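import Mathlib

set_option autoImplicit false

open Set MeasureTheory
open scoped ContDiff RealInnerProductSpace

namespace Pool.Agent.Work.MP_804706_an

/-- test functions: real valued smooth functions with compact support contained in `Ω` -/
def IsTest {N : ℕ} (Ω : Set (EuclideanSpace ℝ (Fin N))) (φ : EuclideanSpace ℝ (Fin N) → ℝ) : Prop :=
  ContDiff ℝ ∞ φ ∧ HasCompactSupport φ ∧ tsupport φ ⊆ Ω

/-- the Sobolev space `H¹₀(Ω)`, each element `u` being given together with its weak gradient `∇u`: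
the closure in `L²(Ω) × L²(Ω; ℝᴺ)` of the pairs `(φ, ∇φ)`, `φ` a test function -/
def H01 {N : ℕ} (Ω : Set (EuclideanSpace ℝ (Fin N))) :
    Set (Lp ℝ 2 (volume.restrict Ω) × Lp (EuclideanSpace ℝ (Fin N)) 2 (volume.restrict Ω)) :=
  closure {p | ∃ φ, IsTest Ω φ ∧ (∀ᵐ x ∂(volume.restrict Ω), p.1 x = φ x) ∧
    (∀ᵐ x ∂(volume.restrict Ω), p.2 x = gradient φ x)}

/-- the critical exponent `2N/(N-2)` -/
noncomputable def critExp (N : ℕ) : ℝ := 2 * (N : ℝ) / ((N : ℝ) - 2)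

/-- the energy `𝓔_v(u)`, with `p = (u, ∇u)` -/
noncomputable def energy {N : ℕ} (Ω : Set (EuclideanSpace ℝ (Fin N))) (a b lam : ℝ)
    (v : Lp ℝ 2 (volume.restrict Ω))
    (p : Lp ℝ 2 (volume.restrict Ω) × Lp (EuclideanSpace ℝ (Fin N)) 2 (volume.restrict Ω)) : ℝ :=
  a / 2 * (∫ x in Ω, ‖p.2 x‖ ^ 2) + b / 4 * (∫ x in Ω, ‖p.2 x‖ ^ 2) ^ 2
    - 1 / critExp N * (∫ x in Ω, |p.1 x| ^ critExp N) - lam / 2 * ∫ x in Ω, (p.1 x - v x) ^ 2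

/-- `p = (u, ∇u) ∈ H¹₀(Ω)` is a weak solution of `(P_{λ,v})`, that is a critical point of `𝓔_v` in
`H¹₀(Ω)`: the equation holds when tested with every `w ∈ H¹₀(Ω)` -/
def IsWeakSol {N : ℕ} (Ω : Set (EuclideanSpace ℝ (Fin N))) (a b lam : ℝ)
    (v : Lp ℝ 2 (volume.restrict Ω))
    (p : Lp ℝ 2 (volume.restrict Ω) × Lp (EuclideanSpace ℝ (Fin N)) 2 (volume.restrict Ω)) : Prop :=
  p ∈ H01 Ω ∧ ∀ w ∈ H01 Ω,
    (a + b * ∫ x in Ω, ‖p.2 x‖ ^ 2) * (∫ x in Ω, ⟪p.2 x, w.2 x⟫) =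
      ∫ x in Ω, (|p.1 x| ^ (critExp N - 2) * p.1 x + lam * (p.1 x - v x)) * w.1 x

/-- `p = (u, ∇u)` is a global minimizer of `𝓔_v` on `H¹₀(Ω)` -/
def IsGlobalMin {N : ℕ} (Ω : Set (EuclideanSpace ℝ (Fin N))) (a b lam : ℝ)
    (v : Lp ℝ 2 (volume.restrict Ω))
    (p : Lp ℝ 2 (volume.restrict Ω) × Lp (EuclideanSpace ℝ (Fin N)) 2 (volume.restrict Ω)) : Prop :=
  p ∈ H01 Ω ∧ ∀ w ∈ H01 Ω, energy Ω a b lam v p ≤ energy Ω a b lam v w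

end Pool.Agent.Work.MP_804706_an
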