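import Mathlib
import Pool.Agent.Work.MP_804706_an.Defs

set_option autoImplicit false

open Set Metric Filter InnerProductSpace MeasureTheory
open scoped Topology RealInnerProductSpace ENNReal ContDiff

namespace Pool.Agent.Work.MP_804706_an

abbrev Eu (N : ℕ) := EuclideanSpace ℝ (Fin N)

noncomputable abbrev LL {N : ℕ} (Ω : Set (Eu N)) := Lp ℝ 2 (volume.restrict Ω)

noncomputable abbrev LV {N : ℕ} (Ω : Set (Eu N)) := Lp (Eu N) 2 (volume.restrict Ω)

variable {N : ℕ} {Ω : Set (Eu N)}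

/-! ### test functions -/

theorem gradient_add' {φ ψ : Eu N → ℝ} (hφ : ContDiff ℝ ∞ φ) (hψ : ContDiff ℝ ∞ ψ) (x : Eu N) :
    gradient (φ + ψ) x = gradient φ x + gradient ψ x := by
  unfold gradient
  rw [fderiv_add (hφ.differentiable (by simp) x) (hψ.differentiable (by simp) x), map_add]

theorem gradient_smul' {φ : Eu N → ℝ} (hφ : ContDiff ℝ ∞ φ) (c : ℝ) (x : Eu N) :
    gradient (c • φ) x = c • gradient φ x := by
  unfold gradient
  rw [fderiv_const_smul (hφ.differentiable (by simp) x), map_smulₛₗ]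
  simp

theorem gradient_zero' (x : Eu N) : gradient (0 : Eu N → ℝ) x = 0 := by
  unfold gradient
  simp

theorem norm_gradient' (φ : Eu N → ℝ) (x : Eu N) : ‖gradient φ x‖ = ‖fderiv ℝ φ x‖ := by
  unfold gradient
  simp

theorem IsTest.add {φ ψ : Eu N → ℝ} (hφ : IsTest Ω φ) (hψ : IsTest Ω ψ) : IsTest Ω (φ + ψ) :=
  ⟨hφ.1.add hψ.1, hφ.2.1.add hψ.2.1,
    (tsupport_add φ ψ).trans (union_subset hφ.2.2 hψ.2.2)⟩

theorem IsTest.smul {φ : Eu N → ℝ} (hφ : IsTest Ω φ) (c : ℝ) : IsTest Ω (c • φ) :=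
  ⟨hφ.1.const_smul c, hφ.2.1.smul_left (f := fun _ => c),
    (closure_mono (Function.support_const_smul_subset c φ)).trans hφ.2.2⟩

theorem IsTest.zero : IsTest Ω (0 : Eu N → ℝ) :=
  ⟨contDiff_const, HasCompactSupport.zero, by simp [tsupport]⟩

theorem IsTest.continuous {φ : Eu N → ℝ} (hφ : IsTest Ω φ) : Continuous φ := hφ.1.continuous

theorem IsTest.continuous_fderiv {φ : Eu N → ℝ} (hφ : IsTest Ω φ) : Continuous (fderiv ℝ φ) :=
  hφ.1.continuous_fderiv (by simp)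

theorem IsTest.continuous_gradient {φ : Eu N → ℝ} (hφ : IsTest Ω φ) : Continuous (gradient φ) := by
  unfold gradient
  exact (toDual ℝ (Eu N)).symm.continuous.comp hφ.continuous_fderiv

theorem IsTest.compact_gradient {φ : Eu N → ℝ} (hφ : IsTest Ω φ) :
    HasCompactSupport (gradient φ) := by
  have h := hφ.2.1.fderiv (𝕜 := ℝ)
  unfold gradient
  exact h.comp_left (g := fun y => (toDual ℝ (Eu N)).symm y) (map_zero _)

theorem IsTest.memLp {φ : Eu N → ℝ} (hφ : IsTest Ω φ) (p : ℝ≥0∞) (μ : Measure (Eu N))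
    [IsFiniteMeasureOnCompacts μ] : MemLp φ p μ :=
  hφ.continuous.memLp_of_hasCompactSupport hφ.2.1

theorem IsTest.memLp_gradient {φ : Eu N → ℝ} (hφ : IsTest Ω φ) (p : ℝ≥0∞) (μ : Measure (Eu N))
    [IsFiniteMeasureOnCompacts μ] : MemLp (gradient φ) p μ :=
  hφ.continuous_gradient.memLp_of_hasCompactSupport hφ.compact_gradient

theorem IsTest.support_fderiv {φ : Eu N → ℝ} (hφ : IsTest Ω φ) :
    Function.support (fderiv ℝ φ) ⊆ Ω :=
  (support_fderiv_subset ℝ).trans hφ.2.2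

theorem IsTest.support {φ : Eu N → ℝ} (hφ : IsTest Ω φ) : Function.support φ ⊆ Ω :=
  (subset_tsupport φ).trans hφ.2.2

/-- the linear space of pairs -/
noncomputable def W0 (Ω : Set (Eu N)) : Submodule ℝ (LL Ω × LV Ω) where
  carrier := {p | ∃ φ, IsTest Ω φ ∧ (∀ᵐ x ∂(volume.restrict Ω), p.1 x = φ x) ∧
    (∀ᵐ x ∂(volume.restrict Ω), p.2 x = gradient φ x)}
  add_mem' := by
    rintro p p' ⟨φ, hφ, h1, h2⟩ ⟨ψ, hψ, h3, h4⟩
    refine ⟨φ + ψ, hφ.add hψ, ?_, ?_⟩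
    · filter_upwards [h1, h3, Lp.coeFn_add p.1 p'.1] with x a b c
      rw [Prod.fst_add, c, Pi.add_apply, Pi.add_apply, a, b]
    · filter_upwards [h2, h4, Lp.coeFn_add p.2 p'.2] with x a b c
      rw [Prod.snd_add, c, Pi.add_apply, a, b, gradient_add' hφ.1 hψ.1]
  zero_mem' := by
    refine ⟨0, IsTest.zero, ?_, ?_⟩
    · filter_upwards [Lp.coeFn_zero ℝ 2 (volume.restrict Ω)] with x hx
      exact hx
    · filter_upwards [Lp.coeFn_zero (Eu N) 2 (volume.restrict Ω)] with x hx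
      rw [gradient_zero']
      exact hx
  smul_mem' := by
    rintro c p ⟨φ, hφ, h1, h2⟩
    refine ⟨c • φ, hφ.smul c, ?_, ?_⟩
    · filter_upwards [h1, Lp.coeFn_smul c p.1] with x a b
      rw [Prod.smul_fst, b, Pi.smul_apply, Pi.smul_apply, a]
    · filter_upwards [h2, Lp.coeFn_smul c p.2] with x a b
      rw [Prod.smul_snd, b, Pi.smul_apply, a, gradient_smul' hφ.1]

/-- the space `H¹₀` as a closed subspace of pairs -/
noncomputable def WW (Ω : Set (Eu N)) : Submodule ℝ (LL Ω × LV Ω) := (W0 Ω).topologicalClosure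

theorem coe_WW : (WW Ω : Set (LL Ω × LV Ω)) = H01 Ω := rfl

theorem mem_WW {p : LL Ω × LV Ω} : p ∈ WW Ω ↔ p ∈ H01 Ω := Iff.rfl

/-- the pair of a test function -/
noncomputable def pair {φ : Eu N → ℝ} (hφ : IsTest Ω φ) : LL Ω × LV Ω :=
  ((hφ.memLp 2 _).toLp φ, (hφ.memLp_gradient 2 _).toLp (gradient φ))

theorem pair_mem {φ : Eu N → ℝ} (hφ : IsTest Ω φ) : pair hφ ∈ W0 Ω :=
  ⟨φ, hφ, MemLp.coeFn_toLp (hφ.memLp 2 _), MemLp.coeFn_toLp (hφ.memLp_gradient 2 _)⟩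

theorem exists_pair {p : LL Ω × LV Ω} (hp : p ∈ W0 Ω) :
    ∃ φ, ∃ hφ : IsTest Ω φ, p = pair hφ := by
  obtain ⟨φ, hφ, h1, h2⟩ := hp
  refine ⟨φ, hφ, Prod.ext ?_ ?_⟩
  · refine Lp.ext ?_
    filter_upwards [h1, MemLp.coeFn_toLp (hφ.memLp 2 (volume.restrict Ω))] with x a b
    rw [a]; exact b.symm
  · refine Lp.ext ?_
    filter_upwards [h2, MemLp.coeFn_toLp (hφ.memLp_gradient 2 (volume.restrict Ω))] with x a b
    rw [a]; exact b.symm

end Pool.Agent.Work.MP_804706_an
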