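import Mathlib
import Pool.Agent.Work.MP_804706_an.Space

set_option autoImplicit false

open Set Metric Filter InnerProductSpace MeasureTheory
open scoped Topology RealInnerProductSpace ENNReal ContDiff NNReal

namespace Pool.Agent.Work.MP_804706_an

variable {N : ℕ} {Ω : Set (Eu N)}

theorem eLpNorm_gradient {φ : Eu N → ℝ} (hφ : IsTest Ω φ) :
    eLpNorm (fderiv ℝ φ) 2 volume = eLpNorm (gradient φ) 2 (volume.restrict Ω) := by
  have h := eLpNorm_restrict_eq_of_support_subset (p := 2) (μ := (volume : Measure (Eu N)))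
    (f := fderiv ℝ φ) (s := Ω) hφ.support_fderiv
  rw [← h]
  refine eLpNorm_congr_norm_ae (Eventually.of_forall fun x => ?_)
  rw [norm_gradient']

theorem norm_pair_snd {φ : Eu N → ℝ} (hφ : IsTest Ω φ) :
    ENNReal.ofReal ‖(pair hφ).2‖ = eLpNorm (gradient φ) 2 (volume.restrict Ω) := by
  unfold pair
  simp only
  rw [Lp.norm_toLp, ENNReal.ofReal_toReal (hφ.memLp_gradient 2 _).eLpNorm_ne_top]

/-- Poincaré inequality on `H¹₀` -/
theorem poincare (hN : 2 < N) (hΩ : Bornology.IsBounded Ω) :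
    ∃ P : ℝ, 0 ≤ P ∧ ∀ p ∈ H01 Ω, ‖p.1‖ ≤ P * ‖p.2‖ := by
  have hfr : Module.finrank ℝ (Eu N) = N := by simp
  set C : ℝ≥0 := eLpNormLESNormFDerivOfLeConst ℝ (volume : Measure (Eu N)) Ω 2 2 with hC
  refine ⟨C, C.2, ?_⟩
  have h0 : ∀ p ∈ (W0 Ω : Set (LL Ω × LV Ω)), ‖p.1‖ ≤ C * ‖p.2‖ := by
    intro p hp
    obtain ⟨φ, hφ, rfl⟩ := exists_pair hp
    have h1 := eLpNorm_le_eLpNorm_fderiv (volume : Measure (Eu N)) (F := ℝ) (u := φ) (s := Ω)
      (hφ.1.of_le (by simp)) hφ.support (p := 2) (by norm_num)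
      (by rw [hfr]; exact_mod_cast hN) hΩ
    rw [← hC] at h1
    have h2 : ENNReal.ofReal ‖(pair hφ).1‖ ≤ ENNReal.ofReal (C * ‖(pair hφ).2‖) := by
      rw [ENNReal.ofReal_mul (NNReal.coe_nonneg C), norm_pair_snd, ← eLpNorm_gradient hφ, ENNReal.ofReal_coe_nnreal]
      unfold pair
      simp only
      rw [Lp.norm_toLp, ENNReal.ofReal_toReal (hφ.memLp 2 _).eLpNorm_ne_top]
      exact (eLpNorm_mono_measure _ Measure.restrict_le_self).trans h1
    exact (ENNReal.ofReal_le_ofReal_iff (by positivity)).1 h2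
  intro p hp
  have hcl : IsClosed {p : LL Ω × LV Ω | ‖p.1‖ ≤ C * ‖p.2‖} :=
    isClosed_le (by fun_prop) (by fun_prop)
  exact closure_minimal h0 hcl hp

theorem one_lt_critExp (hN : 4 < N) : 2 < critExp N ∧ critExp N < 4 := by
  have hN' : (4 : ℝ) < N := by exact_mod_cast hN
  unfold critExp
  constructor
  · rw [lt_div_iff₀ (by linarith)]; linarith
  · rw [div_lt_iff₀ (by linarith)]; linarith

/-- Sobolev inequality on `H¹₀` -/
theorem sobolev (hN : 4 < N) :
    ∃ S : ℝ, 0 ≤ S ∧ ∀ p ∈ H01 Ω,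
      eLpNorm p.1 (ENNReal.ofReal (critExp N)) (volume.restrict Ω) ≤
        ENNReal.ofReal (S * ‖p.2‖) := by
  have hfr : Module.finrank ℝ (Eu N) = N := by simp
  have hN' : (4 : ℝ) < N := by exact_mod_cast hN
  obtain ⟨hq2, hq4⟩ := one_lt_critExp hN
  set q : ℝ≥0 := Real.toNNReal (critExp N) with hq
  have hqr : (q : ℝ) = critExp N := Real.coe_toNNReal _ (by linarith)
  set C : ℝ≥0 := SNormLESNormFDerivOfEqConst ℝ (volume : Measure (Eu N)) ((2 : ℝ≥0) : ℝ) with hC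
  refine ⟨C, C.2, ?_⟩
  have h0 : ∀ φ : Eu N → ℝ, ∀ hφ : IsTest Ω φ,
      eLpNorm (pair hφ).1 (ENNReal.ofReal (critExp N)) (volume.restrict Ω) ≤
        ENNReal.ofReal (C * ‖(pair hφ).2‖) := by
    intro φ hφ
    have h1 := eLpNorm_le_eLpNorm_fderiv_of_eq (volume : Measure (Eu N)) (F := ℝ) (u := φ)
      (hφ.1.of_le (by simp)) hφ.2.1 (p := 2) (p' := q) (by norm_num)
      (by rw [hfr]; omega) (by
        rw [hqr, hfr]
        unfold critExp
        have : (N : ℝ) ≠ 0 := by linarith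
        have h3 : (N : ℝ) - 2 ≠ 0 := by linarith
        push_cast
        field_simp)
    rw [ENNReal.ofReal_mul (NNReal.coe_nonneg C), norm_pair_snd, ← eLpNorm_gradient hφ, ENNReal.ofReal_coe_nnreal]
    have h2 : eLpNorm (pair hφ).1 (ENNReal.ofReal (critExp N)) (volume.restrict Ω) =
        eLpNorm φ (ENNReal.ofReal (critExp N)) (volume.restrict Ω) :=
      eLpNorm_congr_ae (MemLp.coeFn_toLp (hφ.memLp 2 _))
    rw [h2]
    exact (eLpNorm_mono_measure _ Measure.restrict_le_self).trans h1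
  intro p hp
  obtain ⟨s, hs, hlim⟩ := mem_closure_iff_seq_limit.1 hp
  have hs' : ∀ n, ∃ φ, ∃ hφ : IsTest Ω φ, s n = pair hφ := fun n => exists_pair (hs n)
  have hlim1 : Tendsto (fun n => (s n).1) atTop (𝓝 p.1) := (continuous_fst.tendsto p).comp hlim
  have hlim2 : Tendsto (fun n => (s n).2) atTop (𝓝 p.2) := (continuous_snd.tendsto p).comp hlim
  have hm := tendstoInMeasure_of_tendsto_Lp hlim1
  obtain ⟨ns, hns, hae⟩ := hm.exists_seq_tendsto_ae
  have hle := Lp.eLpNorm_lim_le_liminf_eLpNorm (p := ENNReal.ofReal (critExp N))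
    (μ := volume.restrict Ω)
    (f := fun n => ((s (ns n)).1 : Eu N → ℝ)) (fun n => (Lp.aestronglyMeasurable _)) p.1 hae
  refine hle.trans ?_
  have hb : ∀ n, eLpNorm (s (ns n)).1 (ENNReal.ofReal (critExp N)) (volume.restrict Ω) ≤
      ENNReal.ofReal (C * ‖(s (ns n)).2‖) := by
    intro n
    obtain ⟨φ, hφ, h⟩ := hs' (ns n)
    rw [h]
    exact h0 φ hφ
  have hlim3 : Tendsto (fun n => ENNReal.ofReal (C * ‖(s (ns n)).2‖)) atTop
      (𝓝 (ENNReal.ofReal (C * ‖p.2‖))) :=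
    ENNReal.tendsto_ofReal (((hlim2.comp hns.tendsto_atTop).norm).const_mul _)
  calc liminf (fun n => eLpNorm (s (ns n)).1 (ENNReal.ofReal (critExp N)) (volume.restrict Ω)) atTop
      ≤ liminf (fun n => ENNReal.ofReal (C * ‖(s (ns n)).2‖)) atTop :=
        liminf_le_liminf (Eventually.of_forall hb)
    _ = ENNReal.ofReal (C * ‖p.2‖) := hlim3.liminf_eq

end Pool.Agent.Work.MP_804706_an
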