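import Mathlib
import Pool.Agent.Work.MP_804706_an.Embed

set_option autoImplicit false

open Set Metric Filter InnerProductSpace MeasureTheory
open scoped Topology RealInnerProductSpace ENNReal ContDiff NNReal

namespace Pool.Agent.Work.MP_804706_an

variable {N : ℕ} {Ω : Set (Eu N)}

/-! ### integration by parts and closability -/

theorem memLp_vec {ψ : Eu N → ℝ} (hψ : IsTest Ω ψ) (e : Eu N) :
    MemLp (fun x => ψ x • e) 2 (volume.restrict Ω) := by
  apply Continuous.memLp_of_hasCompactSupport (hψ.continuous.smul continuous_const)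
  exact hψ.2.1.smul_right

theorem memLp_dir {ψ : Eu N → ℝ} (hψ : IsTest Ω ψ) (e : Eu N) :
    MemLp (fun x => fderiv ℝ ψ x e) 2 (volume.restrict Ω) := by
  apply Continuous.memLp_of_hasCompactSupport (hψ.continuous_fderiv.clm_apply continuous_const)
  exact (hψ.2.1.fderiv (𝕜 := ℝ)).comp_left (g := fun L : Eu N →L[ℝ] ℝ => L e) (by simp)

theorem parts_test {φ ψ : Eu N → ℝ} (hφ : IsTest Ω φ) (hψ : IsTest Ω ψ) (e : Eu N) :
    ∫ x in Ω, fderiv ℝ φ x e * ψ x = - ∫ x in Ω, φ x * fderiv ℝ ψ x e := by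
  have e1 : ∫ x in Ω, fderiv ℝ φ x e * ψ x = ∫ x, fderiv ℝ φ x e * ψ x := by
    apply setIntegral_eq_integral_of_forall_compl_eq_zero
    intro x hx
    have : ψ x = 0 := by
      by_contra h
      exact hx (hψ.support h)
    rw [this, mul_zero]
  have e2 : ∫ x in Ω, φ x * fderiv ℝ ψ x e = ∫ x, φ x * fderiv ℝ ψ x e := by
    apply setIntegral_eq_integral_of_forall_compl_eq_zero
    intro x hx
    have : φ x = 0 := by
      by_contra h
      exact hx (hφ.support h)
    rw [this, zero_mul]
  have hc1 : Continuous (fun x => fderiv ℝ φ x e) := hφ.continuous_fderiv.clm_apply continuous_const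
  have hc2 : Continuous (fun x => fderiv ℝ ψ x e) := hψ.continuous_fderiv.clm_apply continuous_const
  rw [e1, e2, integral_mul_fderiv_eq_neg_fderiv_mul_of_integrable, neg_neg]
  · exact (hc1.mul hψ.continuous).integrable_of_hasCompactSupport hψ.2.1.mul_left
  · exact (hφ.continuous.mul hc2).integrable_of_hasCompactSupport hφ.2.1.mul_right
  · exact (hφ.continuous.mul hψ.continuous).integrable_of_hasCompactSupport hφ.2.1.mul_right
  · intro x _
    exact hφ.1.differentiable (by simp) x
  · intro x _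
    exact hψ.1.differentiable (by simp) x

/-- the weak gradient identity on `H¹₀` -/
theorem parts_H01 {ψ : Eu N → ℝ} (hψ : IsTest Ω ψ) (e : Eu N) (p : LL Ω × LV Ω) (hp : p ∈ H01 Ω) :
    ⟪p.2, (memLp_vec hψ e).toLp _⟫ = - ⟪p.1, (memLp_dir hψ e).toLp _⟫ := by
  have h0 : ∀ p ∈ (W0 Ω : Set (LL Ω × LV Ω)),
      ⟪p.2, (memLp_vec hψ e).toLp _⟫ = - ⟪p.1, (memLp_dir hψ e).toLp _⟫ := by
    intro p hp
    obtain ⟨φ, hφ, rfl⟩ := exists_pair hp
    have h1 : ⟪(pair hφ).2, (memLp_vec hψ e).toLp _⟫ = ∫ x in Ω, fderiv ℝ φ x e * ψ x := by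
      rw [L2.inner_def]
      apply integral_congr_ae
      filter_upwards [(memLp_vec hψ e).coeFn_toLp, (hφ.memLp_gradient 2 _).coeFn_toLp] with x a b
      unfold pair
      simp only
      rw [a, b, inner_smul_right]
      unfold gradient
      rw [InnerProductSpace.toDual_symm_apply, mul_comm]
    have h2 : ⟪(pair hφ).1, (memLp_dir hψ e).toLp _⟫ = ∫ x in Ω, φ x * fderiv ℝ ψ x e := by
      rw [L2.inner_def]
      apply integral_congr_ae
      filter_upwards [(memLp_dir hψ e).coeFn_toLp, (hφ.memLp 2 _).coeFn_toLp] with x a b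
      unfold pair
      simp only
      rw [a, b]
      simp [mul_comm]
    rw [h1, h2, parts_test hφ hψ e]
  have hcl : IsClosed {p : LL Ω × LV Ω |
      ⟪p.2, (memLp_vec hψ e).toLp _⟫ = - ⟪p.1, (memLp_dir hψ e).toLp _⟫} :=
    isClosed_eq (by fun_prop) (by fun_prop)
  exact closure_minimal h0 hcl hp

/-- closability: an element of `H¹₀` with zero function part has zero gradient -/
theorem closable (hΩo : IsOpen Ω) (hΩ : Bornology.IsBounded Ω) (g : LV Ω)
    (hg : ((0 : LL Ω), g) ∈ H01 Ω) : g = 0 := by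
  have : IsFiniteMeasure (volume.restrict Ω) := ⟨by
    rw [Measure.restrict_apply_univ]
    exact hΩ.measure_lt_top⟩
  have hgi : Integrable (g : Eu N → Eu N) (volume.restrict Ω) :=
    (Lp.memLp g).integrable (by norm_num)
  have hae : ∀ᵐ x ∂(volume.restrict Ω), x ∈ Ω → g x = 0 := by
    apply hΩo.ae_eq_zero_of_integral_contDiff_smul_eq_zero (hgi.locallyIntegrable.locallyIntegrableOn _)
    intro ψ hψ1 hψ2 hψ3
    have hψ : IsTest Ω ψ := ⟨hψ1, hψ2, hψ3⟩
    have hint : Integrable (fun x => ψ x • g x) (volume.restrict Ω) := by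
      obtain ⟨C, hC⟩ := hψ2.exists_bound_of_continuous hψ.continuous
      exact hgi.bdd_smul C hψ.continuous.aestronglyMeasurable (Eventually.of_forall hC)
    refine ext_inner_right ℝ fun e => ?_
    rw [inner_zero_left, real_inner_comm, ← integral_inner hint]
    have h1 := parts_H01 hψ e _ hg
    simp only [inner_zero_left, neg_zero] at h1
    rw [L2.inner_def] at h1
    rw [← h1]
    apply integral_congr_ae
    filter_upwards [(memLp_vec hψ e).coeFn_toLp] with x a
    rw [a, inner_smul_right, inner_smul_right, real_inner_comm]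
  have hae' : ∀ᵐ x ∂(volume.restrict Ω), x ∈ Ω := ae_restrict_mem hΩo.measurableSet
  refine Lp.ext ?_
  filter_upwards [hae, hae', Lp.coeFn_zero (Eu N) 2 (volume.restrict Ω)] with x a b c
  rw [a b, c]
  rfl

/-! ### the Hilbert space -/

/-- the gradients of elements of `H¹₀` -/
noncomputable def HSp (Ω : Set (Eu N)) : Submodule ℝ (LV Ω) :=
  ((W0 Ω).map (LinearMap.snd ℝ (LL Ω) (LV Ω))).topologicalClosure

noncomputable instance instCompleteHSp : CompleteSpace (HSp Ω) :=
  Submodule.topologicalClosure.completeSpace _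

theorem snd_mem_HSp {p : LL Ω × LV Ω} (hp : p ∈ H01 Ω) : p.2 ∈ HSp Ω := by
  have h1 : MapsTo (fun p : LL Ω × LV Ω => p.2) (W0 Ω : Set (LL Ω × LV Ω))
      ((W0 Ω).map (LinearMap.snd ℝ (LL Ω) (LV Ω)) : Set (LV Ω)) := by
    intro p hp
    exact ⟨p, hp, rfl⟩
  exact map_mem_closure continuous_snd hp h1

/-- abstract extension lemma -/
theorem exists_ext {X Z : Type*} [NormedAddCommGroup X] [NormedSpace ℝ X] [CompleteSpace X]
    [NormedAddCommGroup Z] [NormedSpace ℝ Z] [CompleteSpace Z] (W : Submodule ℝ (X × Z)) (P : ℝ)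
    (hP : ∀ p ∈ W.topologicalClosure, ‖p.1‖ ≤ P * ‖p.2‖) :
    ∃ ι : (W.map (LinearMap.snd ℝ X Z)).topologicalClosure →L[ℝ] X,
      ∀ g : (W.map (LinearMap.snd ℝ X Z)).topologicalClosure,
        (ι g, (g : Z)) ∈ W.topologicalClosure := by
  set S : W.topologicalClosure →L[ℝ] Z :=
    (ContinuousLinearMap.snd ℝ X Z).comp W.topologicalClosure.subtypeL with hS
  have hSa : ∀ p : W.topologicalClosure, S p = (p : X × Z).2 := fun p => rfl
  have hcomp : CompleteSpace W.topologicalClosure := Submodule.topologicalClosure.completeSpace _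
  have hbound : ∀ p : W.topologicalClosure, ‖p‖ ≤ (max P 1) * ‖S p‖ := by
    intro p
    rw [hSa]
    have h1 := hP (p : X × Z) p.2
    have h2 : ‖(p : X × Z)‖ = max ‖(p : X × Z).1‖ ‖(p : X × Z).2‖ := rfl
    rw [Submodule.norm_coe] at h2
    rw [h2]
    apply max_le
    · refine h1.trans ?_
      gcongr
      exact le_max_left _ _
    · exact le_mul_of_one_le_left (norm_nonneg _) (le_max_right _ _)
  have hanti : AntilipschitzWith (Real.toNNReal (max P 1)) S := by
    apply AddMonoidHomClass.antilipschitz_of_bound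
    intro p
    rw [Real.coe_toNNReal _ (by positivity)]
    exact hbound p
  have hclosed : IsClosed (range S) := hanti.isClosed_range S.uniformContinuous
  have hinj : Function.Injective S := hanti.injective
  have hsub : ((W.map (LinearMap.snd ℝ X Z)).topologicalClosure : Set Z) ⊆ range S := by
    apply closure_minimal _ hclosed
    rintro _ ⟨p, hp, rfl⟩
    exact ⟨⟨p, subset_closure hp⟩, rfl⟩
  have hmem : ∀ g : (W.map (LinearMap.snd ℝ X Z)).topologicalClosure,
      (W.map (LinearMap.snd ℝ X Z)).topologicalClosure.subtypeL g ∈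
        LinearMap.range (S : W.topologicalClosure →ₗ[ℝ] Z) := by
    intro g
    obtain ⟨p, hp⟩ := hsub g.2
    exact ⟨p, hp⟩
  refine ⟨((ContinuousLinearMap.fst ℝ X Z).comp W.topologicalClosure.subtypeL).comp
    (((S.equivRange hinj hclosed).symm :
      LinearMap.range (S : W.topologicalClosure →ₗ[ℝ] Z) →L[ℝ] W.topologicalClosure).comp
      (((W.map (LinearMap.snd ℝ X Z)).topologicalClosure.subtypeL).codRestrict _ hmem)),
      fun g => ?_⟩
  have h1 : S ((S.equivRange hinj hclosed).symm
      ((((W.map (LinearMap.snd ℝ X Z)).topologicalClosure.subtypeL).codRestrict _ hmem) g)) =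
        (g : Z) := by
    have h2 := (S.equivRange hinj hclosed).apply_symm_apply
      ((((W.map (LinearMap.snd ℝ X Z)).topologicalClosure.subtypeL).codRestrict _ hmem) g)
    have h3 := congrArg (fun z : LinearMap.range (S : W.topologicalClosure →ₗ[ℝ] Z) => (z : Z)) h2
    exact h3
  have h5 := ((S.equivRange hinj hclosed).symm
      ((((W.map (LinearMap.snd ℝ X Z)).topologicalClosure.subtypeL).codRestrict _ hmem) g)).2
  rw [hSa] at h1
  have h6 : ((((ContinuousLinearMap.fst ℝ X Z).comp W.topologicalClosure.subtypeL).comp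
    (((S.equivRange hinj hclosed).symm :
      LinearMap.range (S : W.topologicalClosure →ₗ[ℝ] Z) →L[ℝ] W.topologicalClosure).comp
      (((W.map (LinearMap.snd ℝ X Z)).topologicalClosure.subtypeL).codRestrict _ hmem))) g, (g : Z))
      = (((S.equivRange hinj hclosed).symm
      ((((W.map (LinearMap.snd ℝ X Z)).topologicalClosure.subtypeL).codRestrict _ hmem) g) :
        W.topologicalClosure) : X × Z) := by
    refine Prod.ext rfl ?_
    rw [h1]
  rw [h6]
  exact h5

theorem exists_iota (hN : 2 < N) (hΩ : Bornology.IsBounded Ω) :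
    ∃ ι : HSp Ω →L[ℝ] LL Ω, ∀ g : HSp Ω, (ι g, (g : LV Ω)) ∈ H01 Ω := by
  obtain ⟨P, hP0, hP⟩ := poincare (Ω := Ω) hN hΩ
  exact exists_ext (W0 Ω) P hP

end Pool.Agent.Work.MP_804706_an
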