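import Mathlib
import Pool.Agent.Work.MP_804706_an.Iota

set_option autoImplicit false

open Set Metric Filter InnerProductSpace MeasureTheory
open scoped Topology RealInnerProductSpace ENNReal ContDiff NNReal

namespace Pool.Agent.Work.MP_804706_an

variable {N : ℕ} {Ω : Set (Eu N)}

/-- six test functions whose classes in L2(Ω) are linearly independent -/
theorem exists_six_tests (hN : 0 < N) (hΩo : IsOpen Ω) (hΩn : Ω.Nonempty) :
    ∃ (f : Fin 6 → Eu N → ℝ) (hf : ∀ i, IsTest Ω (f i)),
      LinearIndependent ℝ (fun i => (pair (hf i)).1) := by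
  obtain ⟨x₀, hx₀⟩ := hΩn
  obtain ⟨r, hr, hball⟩ := Metric.isOpen_iff.1 hΩo x₀ hx₀
  set e : Eu N := EuclideanSpace.single ⟨0, hN⟩ 1 with he
  have hen : ‖e‖ = 1 := by simp [he]
  set c : Fin 6 → Eu N := fun k => x₀ + (((k : ℕ) : ℝ) / 8 * r) • e with hc
  have hcdist : ∀ k l : Fin 6, dist (c k) (c l) = |((k : ℕ) : ℝ) - ((l : ℕ) : ℝ)| / 8 * r := by
    intro k l
    rw [dist_eq_norm]
    have : c k - c l = ((((k : ℕ) : ℝ) - ((l : ℕ) : ℝ)) / 8 * r) • e := by
      simp only [hc, add_sub_add_left_eq_sub, ← sub_smul]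
      congr 1
      ring
    rw [this, norm_smul, hen, mul_one, Real.norm_eq_abs, abs_mul, abs_div, abs_of_pos hr]
    norm_num
  have hc0 : ∀ k : Fin 6, dist (c k) x₀ ≤ 5 / 8 * r := by
    intro k
    rw [dist_eq_norm]
    have : c k - x₀ = (((k : ℕ) : ℝ) / 8 * r) • e := by
      simp only [hc]; abel
    rw [this, norm_smul, hen, mul_one, Real.norm_eq_abs, abs_of_nonneg (by positivity)]
    have : ((k : ℕ) : ℝ) ≤ 5 := by
      have := k.2
      exact_mod_cast (by omega : (k : ℕ) ≤ 5)
    have h2 : ((k : ℕ) : ℝ) / 8 ≤ 5 / 8 := by linarith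
    gcongr
  set B : ∀ k : Fin 6, ContDiffBump (c k) := fun k =>
    { rIn := r / 40, rOut := r / 20, rIn_pos := by positivity, rIn_lt_rOut := by linarith } with hB
  have hts : ∀ k, tsupport (B k) = closedBall (c k) (r / 20) := fun k => (B k).tsupport_eq
  have htest : ∀ k, IsTest Ω (B k) := by
    intro k
    refine ⟨(B k).contDiff, (B k).hasCompactSupport, ?_⟩
    rw [hts]
    intro x hx
    apply hball
    rw [mem_ball]
    rw [mem_closedBall] at hx
    have := dist_triangle x (c k) x₀
    have := hc0 k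
    linarith
  refine ⟨fun k => B k, htest, ?_⟩
  have hdisj : ∀ k l : Fin 6, k ≠ l → ∀ x, (B k) x * (B l) x = 0 := by
    intro k l hkl x
    by_contra hne
    have h1 : (B k) x ≠ 0 := left_ne_zero_of_mul hne
    have h2 : (B l) x ≠ 0 := right_ne_zero_of_mul hne
    have h3 : x ∈ closedBall (c k) (r / 20) := by
      rw [← hts]; exact subset_tsupport _ h1
    have h4 : x ∈ closedBall (c l) (r / 20) := by
      rw [← hts]; exact subset_tsupport _ h2
    rw [mem_closedBall] at h3 h4
    have h5 := dist_triangle_left (c k) (c l) x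
    rw [hcdist] at h5
    have h6 : (1 : ℝ) ≤ |((k : ℕ) : ℝ) - ((l : ℕ) : ℝ)| := by
      have h7 : ((k : ℕ) : ℤ) - ((l : ℕ) : ℤ) ≠ 0 := by
        intro h
        apply hkl
        apply Fin.ext
        omega
      have h8 := Int.one_le_abs h7
      exact_mod_cast h8
    have h9 : 1 / 8 * r ≤ |((k : ℕ) : ℝ) - ((l : ℕ) : ℝ)| / 8 * r := by
      gcongr
    linarith
  apply linearIndependent_of_ne_zero_of_inner_eq_zero
  · intro k h0
    have hae : ∀ᵐ x ∂(volume.restrict Ω), (B k) x = 0 := by
      have h1 : ∀ᵐ x ∂(volume.restrict Ω), (pair (htest k)).1 x = (B k) x :=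
        ((htest k).memLp 2 (volume.restrict Ω)).coeFn_toLp
      rw [h0] at h1
      filter_upwards [h1, Lp.coeFn_zero ℝ 2 (volume.restrict Ω)] with x hx hx'
      rw [← hx]
      exact hx'
    have hsub : ball (c k) (r / 40) ⊆ Ω := by
      intro x hx
      apply hball
      rw [mem_ball] at hx ⊢
      have := dist_triangle x (c k) x₀
      have := hc0 k
      linarith
    have hae2 : ∀ᵐ x ∂(volume.restrict (ball (c k) (r / 40))), (B k) x = 0 :=
      ae_mono (Measure.restrict_mono hsub le_rfl) hae
    have hae3 : ∀ᵐ x ∂(volume.restrict (ball (c k) (r / 40))), (B k) x = 1 := by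
      filter_upwards [ae_restrict_mem measurableSet_ball] with x hx
      exact (B k).one_of_mem_closedBall (ball_subset_closedBall hx)
    have hfalse : ∀ᵐ x ∂(volume.restrict (ball (c k) (r / 40))), False := by
      filter_upwards [hae2, hae3] with x h1 h2
      rw [h1] at h2
      exact zero_ne_one h2
    rw [Filter.eventually_false_iff_eq_bot, ae_eq_bot, Measure.restrict_eq_zero] at hfalse
    exact (measure_ball_pos volume (c k) (by positivity : 0 < r / 40)).ne' hfalse
  · intro k l hkl
    rw [L2.inner_def]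
    have h1 : ∀ᵐ x ∂(volume.restrict Ω), (pair (htest k)).1 x = (B k) x :=
        ((htest k).memLp 2 (volume.restrict Ω)).coeFn_toLp
    have h2 : ∀ᵐ x ∂(volume.restrict Ω), (pair (htest l)).1 x = (B l) x :=
        ((htest l).memLp 2 (volume.restrict Ω)).coeFn_toLp
    rw [← integral_zero (Eu N) ℝ (μ := volume.restrict Ω)]
    apply integral_congr_ae
    filter_upwards [h1, h2] with x hx hy
    rw [hx, hy]
    have := hdisj k l hkl x
    simpa [mul_comm] using this

end Pool.Agent.Work.MP_804706_an
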