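import Mathlib

set_option autoImplicit false

open Set MeasureTheory
open scoped ContDiff RealInnerProductSpace

namespace Pool.Agent.Work.MP_804706_an.Fun

/-- Lebesgue measure on `Ω ⊆ ℝᴺ` -/
noncomputable def mu {N : ℕ} (Ω : Set (EuclideanSpace ℝ (Fin N))) :
    Measure (EuclideanSpace ℝ (Fin N)) :=
  volume.restrict Ω

/-- test functions: real valued smooth functions with compact support contained in `Ω` -/
def IsTest {N : ℕ} (Ω : Set (EuclideanSpace ℝ (Fin N))) (φ : EuclideanSpace ℝ (Fin N) → ℝ) : Prop :=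
  ContDiff ℝ ∞ φ ∧ HasCompactSupport φ ∧ tsupport φ ⊆ Ω

/-- `u ∈ H¹₀(Ω)` with weak gradient `g`: `u` and `g` are square integrable on `Ω` and for every
`ε > 0` there is a test function `φ` such that `‖u - φ‖₂ < ε` and `‖g - ∇φ‖₂ < ε` on `Ω` -/
def IsH01 {N : ℕ} (Ω : Set (EuclideanSpace ℝ (Fin N))) (u : EuclideanSpace ℝ (Fin N) → ℝ)
    (g : EuclideanSpace ℝ (Fin N) → EuclideanSpace ℝ (Fin N)) : Prop :=
  MemLp u 2 (mu Ω) ∧ MemLp g 2 (mu Ω) ∧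
    ∀ ε : ENNReal, 0 < ε → ∃ φ, IsTest Ω φ ∧
      eLpNorm (fun x => u x - φ x) 2 (mu Ω) < ε ∧
      eLpNorm (fun x => g x - gradient φ x) 2 (mu Ω) < ε

/-- the critical exponent `2N/(N-2)` -/
noncomputable def critExp (N : ℕ) : ℝ := 2 * (N : ℝ) / ((N : ℝ) - 2)

/-- the energy `𝓔_v(u)`, where `g = ∇u` -/
noncomputable def energy {N : ℕ} (Ω : Set (EuclideanSpace ℝ (Fin N))) (a b lam : ℝ)
    (v u : EuclideanSpace ℝ (Fin N) → ℝ)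
    (g : EuclideanSpace ℝ (Fin N) → EuclideanSpace ℝ (Fin N)) : ℝ :=
  a / 2 * (∫ x, ‖g x‖ ^ 2 ∂(mu Ω)) + b / 4 * (∫ x, ‖g x‖ ^ 2 ∂(mu Ω)) ^ 2
    - 1 / critExp N * (∫ x, |u x| ^ critExp N ∂(mu Ω)) - lam / 2 * ∫ x, (u x - v x) ^ 2 ∂(mu Ω)

/-- `u` (with `g = ∇u`) is a weak solution of `(P_{λ,v})`, that is a critical point of `𝓔_v` in
`H¹₀(Ω)`: the equation holds when tested with every `w ∈ H¹₀(Ω)`, `h = ∇w` -/
def IsWeakSol {N : ℕ} (Ω : Set (EuclideanSpace ℝ (Fin N))) (a b lam : ℝ)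
    (v u : EuclideanSpace ℝ (Fin N) → ℝ)
    (g : EuclideanSpace ℝ (Fin N) → EuclideanSpace ℝ (Fin N)) : Prop :=
  IsH01 Ω u g ∧ ∀ w h, IsH01 Ω w h →
    (a + b * ∫ x, ‖g x‖ ^ 2 ∂(mu Ω)) * (∫ x, ⟪g x, h x⟫ ∂(mu Ω)) =
      ∫ x, (|u x| ^ (critExp N - 2) * u x + lam * (u x - v x)) * w x ∂(mu Ω)

/-- `u` (with `g = ∇u`) is a global minimizer of `𝓔_v` on `H¹₀(Ω)` -/
def IsGlobalMin {N : ℕ} (Ω : Set (EuclideanSpace ℝ (Fin N))) (a b lam : ℝ)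
    (v u : EuclideanSpace ℝ (Fin N) → ℝ)
    (g : EuclideanSpace ℝ (Fin N) → EuclideanSpace ℝ (Fin N)) : Prop :=
  IsH01 Ω u g ∧ ∀ w h, IsH01 Ω w h → energy Ω a b lam v u g ≤ energy Ω a b lam v w h

end Pool.Agent.Work.MP_804706_an.Fun
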