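import Mathlib

set_option autoImplicit false

open Set Metric Filter InnerProductSpace
open scoped Topology RealInnerProductSpace

namespace Pool.Agent.Work.MP_804706_an

variable {H : Type*} [NormedAddCommGroup H] [InnerProductSpace ℝ H] [CompleteSpace H]

/-- descent estimate from a Lipschitz gradient on a ball -/
theorem descent (e : H → ℝ) (G : H → H) (hG : ∀ u, HasGradientAt e (G u) u) (R L : ℝ)
    (hL : ∀ u ∈ closedBall (0 : H) R, ∀ w ∈ closedBall (0 : H) R, ‖G u - G w‖ ≤ L * ‖u - w‖)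
    (u h : H) (hu : u ∈ closedBall (0 : H) R) (huh : u + h ∈ closedBall (0 : H) R) :
    e (u + h) ≤ e u + ⟪G u, h⟫ + L * ‖h‖ ^ 2 := by
  set φ : ℝ → ℝ := fun t => e (u + t • h) - t * ⟪G u, h⟫ with hφ
  have hd : ∀ t, HasDerivAt φ (⟪G (u + t • h), h⟫ - ⟪G u, h⟫) t := by
    intro t
    have h1 : HasDerivAt (fun t : ℝ => u + t • h) h t := by
      have := ((hasDerivAt_id t).smul_const h).const_add u
      simpa using this
    have h2 := (hG (u + t • h)).hasFDerivAt.comp_hasDerivAt t h1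
    have h3 : HasDerivAt (fun t : ℝ => t * ⟪G u, h⟫) ⟪G u, h⟫ t := by
      simpa using (hasDerivAt_id t).mul_const ⟪G u, h⟫
    have h4 := h2.sub h3
    simpa [hφ, Function.comp_def] using! h4
  have hmem : ∀ t ∈ Icc (0 : ℝ) 1, u + t • h ∈ closedBall (0 : H) R := by
    intro t ht
    have hc := convex_closedBall (0 : H) R
    have := hc hu huh (sub_nonneg.2 ht.2) ht.1 (by ring)
    convert! this using 1
    rw [smul_add, sub_smul, one_smul]; abel
  have hbound : ∀ t ∈ interior (Icc (0 : ℝ) 1), deriv φ t ≤ L * ‖h‖ ^ 2 := by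
    intro t ht
    rw [interior_Icc] at ht
    have ht' : t ∈ Icc (0 : ℝ) 1 := ⟨ht.1.le, ht.2.le⟩
    rw [(hd t).deriv, ← inner_sub_left]
    have h0 : (0 : ℝ) ∈ Icc (0 : ℝ) 1 := ⟨le_rfl, zero_le_one⟩
    have hLh : ‖G (u + t • h) - G u‖ ≤ L * ‖t • h‖ := by
      have := hL _ (hmem t ht') _ hu
      simpa using this
    have hL0 : 0 ≤ L * ‖t • h‖ := (norm_nonneg _).trans hLh
    calc ⟪G (u + t • h) - G u, h⟫ ≤ ‖G (u + t • h) - G u‖ * ‖h‖ := real_inner_le_norm _ _
      _ ≤ L * ‖t • h‖ * ‖h‖ := by gcongr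
      _ = t * (L * ‖h‖ ^ 2) := by
          rw [norm_smul, Real.norm_eq_abs, abs_of_pos ht.1]; ring
      _ ≤ 1 * (L * ‖h‖ ^ 2) := by
          have h5 : 0 ≤ L * ‖h‖ ^ 2 := by
            have h6 : 0 ≤ t * (L * ‖h‖ ^ 2) := by
              have : t * (L * ‖h‖ ^ 2) = L * ‖t • h‖ * ‖h‖ := by
                rw [norm_smul, Real.norm_eq_abs, abs_of_pos ht.1]; ring
              rw [this]; positivity
            exact nonneg_of_mul_nonneg_right h6 ht.1
          gcongr
          exact ht.2.le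
      _ = L * ‖h‖ ^ 2 := one_mul _
  have hcont : ContinuousOn φ (Icc 0 1) := fun t _ => (hd t).continuousAt.continuousWithinAt
  have := Convex.image_sub_le_mul_sub_of_deriv_le (convex_Icc (0 : ℝ) 1) hcont
    (fun t _ => (hd t).differentiableAt.differentiableWithinAt) hbound 0 ⟨le_rfl, zero_le_one⟩ 1
    ⟨zero_le_one, le_rfl⟩ zero_le_one
  simp only [hφ, one_smul, zero_smul, add_zero, one_mul, zero_mul, sub_zero, mul_one] at this
  linarith

/-- mountain pass principle with Lipschitz gradient on bounded sets (one gradient step) -/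
theorem mountain_pass (e : H → ℝ) (G : H → H) (hG : ∀ u, HasGradientAt e (G u) u)
    (hLip : ∀ R, ∃ L, ∀ u ∈ closedBall (0 : H) R, ∀ w ∈ closedBall (0 : H) R,
      ‖G u - G w‖ ≤ L * ‖u - w‖)
    (hbdd : ∀ c, ∃ R, ∀ u, e u ≤ c → ‖u‖ ≤ R)
    (u₁ u₂ : H) (m c : ℝ) (h1 : e u₁ = m) (h2 : e u₂ = m) (hmc : m < c)
    (hc1 : ∀ ε > 0, ∃ γ : Path u₁ u₂, ∀ t, e (γ t) ≤ c + ε)
    (hc2 : ∀ ε > 0, ¬ ∃ γ : Path u₁ u₂, ∀ t, e (γ t) ≤ c - ε)
    (hPS : ∀ v : ℕ → H, Tendsto (fun n => e (v n)) atTop (𝓝 c) →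
      Tendsto (fun n => ‖G (v n)‖) atTop (𝓝 0) →
      ∃ φ : ℕ → ℕ, StrictMono φ ∧ ∃ x, Tendsto (fun n => v (φ n)) atTop (𝓝 x)) :
    ∃ u, e u = c ∧ G u = 0 := by
  have hecont : Continuous e := continuous_iff_continuousAt.2 fun u => (hG u).hasFDerivAt.continuousAt
  have hGcont : Continuous G := by
    rw [continuous_iff_continuousAt]
    intro u
    obtain ⟨L, hL⟩ := hLip (‖u‖ + 1)
    have hL0 : 0 ≤ L ∨ L < 0 := le_or_gt 0 L
    rw [Metric.continuousAt_iff]
    intro ε hε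
    refine ⟨min 1 (ε / (|L| + 1)), by positivity, fun {w} hw => ?_⟩
    have hw1 : dist w u < 1 := lt_of_lt_of_le hw (min_le_left _ _)
    have hw2 : dist w u < ε / (|L| + 1) := lt_of_lt_of_le hw (min_le_right _ _)
    have hwm : w ∈ closedBall (0 : H) (‖u‖ + 1) := by
      rw [mem_closedBall, dist_zero_right]
      have : ‖w‖ ≤ ‖w - u‖ + ‖u‖ := by
        have := norm_add_le (w - u) u
        simpa using this
      rw [dist_eq_norm] at hw1
      linarith
    have hum : u ∈ closedBall (0 : H) (‖u‖ + 1) := by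
      rw [mem_closedBall, dist_zero_right]; linarith
    rw [dist_eq_norm]
    calc ‖G w - G u‖ ≤ L * ‖w - u‖ := hL w hwm u hum
      _ ≤ |L| * ‖w - u‖ := by gcongr; exact le_abs_self L
      _ ≤ (|L| + 1) * ‖w - u‖ := by gcongr; linarith
      _ < (|L| + 1) * (ε / (|L| + 1)) := by
          rw [← dist_eq_norm]; gcongr
      _ = ε := by field_simp
  by_contra hno
  push Not at hno
  -- uniform lower bound for the gradient near level c
  have hunif : ∃ ε₀ > 0, ∃ δ₀ > 0, ∀ u, |e u - c| ≤ ε₀ → δ₀ ≤ ‖G u‖ := by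
    by_contra hcon
    push Not at hcon
    have hex : ∀ n : ℕ, ∃ u, |e u - c| ≤ 1 / ((n : ℝ) + 1) ∧ ‖G u‖ < 1 / ((n : ℝ) + 1) := by
      intro n
      exact hcon (1 / ((n : ℝ) + 1)) (by positivity) (1 / ((n : ℝ) + 1)) (by positivity)
    choose v hv1 hv2 using hex
    have hlim : Tendsto (fun n : ℕ => 1 / ((n : ℝ) + 1)) atTop (𝓝 0) :=
      tendsto_one_div_add_atTop_nhds_zero_nat
    have ht1 : Tendsto (fun n => e (v n)) atTop (𝓝 c) := by
      rw [tendsto_iff_dist_tendsto_zero]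
      refine squeeze_zero (fun _ => dist_nonneg) (fun n => ?_) hlim
      rw [Real.dist_eq]; exact hv1 n
    have ht2 : Tendsto (fun n => ‖G (v n)‖) atTop (𝓝 0) :=
      squeeze_zero (fun _ => norm_nonneg _) (fun n => (hv2 n).le) hlim
    obtain ⟨φ, hφ, x, hx⟩ := hPS v ht1 ht2
    have e1 : e x = c := tendsto_nhds_unique ((hecont.tendsto x).comp hx)
      (ht1.comp hφ.tendsto_atTop)
    have e2 : ‖G x‖ = 0 := tendsto_nhds_unique (((hGcont.norm).tendsto x).comp hx)
      (ht2.comp hφ.tendsto_atTop)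
    exact hno x e1 (norm_eq_zero.1 e2)
  obtain ⟨ε₁, hε₁, δ₀, hδ₀, hδ⟩ := hunif
  set ε₀ := min ε₁ ((c - m) / 2) with hε₀def
  have hε₀ : 0 < ε₀ := lt_min hε₁ (by linarith)
  have hε₀1 : ε₀ ≤ ε₁ := min_le_left _ _
  have hε₀2 : ε₀ ≤ (c - m) / 2 := min_le_right _ _
  obtain ⟨R, hR⟩ := hbdd (c + 1 + ε₀)
  set R' := max R 0 with hR'
  obtain ⟨L, hL⟩ := hLip (R' + 1)
  set L' := |L| + 1 with hL'
  have hL'0 : 0 < L' := by positivity
  have hL'L : ∀ u ∈ closedBall (0 : H) (R' + 1), ∀ w ∈ closedBall (0 : H) (R' + 1),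
      ‖G u - G w‖ ≤ L' * ‖u - w‖ := by
    intro u hu w hw
    refine (hL u hu w hw).trans ?_
    gcongr
    exact (le_abs_self L).trans (by linarith)
  -- bound for the gradient on the ball
  set B := ‖G 0‖ + L' * (R' + 1) with hB
  have hB0 : 0 ≤ B := by positivity
  have hGB : ∀ u, ‖u‖ ≤ R' → ‖G u‖ ≤ B := by
    intro u hu
    have h0 : (0 : H) ∈ closedBall (0 : H) (R' + 1) := by
      rw [mem_closedBall, dist_self]; positivity
    have hu' : u ∈ closedBall (0 : H) (R' + 1) := by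
      rw [mem_closedBall, dist_zero_right]; linarith
    have h3 := hL'L u hu' 0 h0
    rw [sub_zero] at h3
    calc ‖G u‖ = ‖G 0 + (G u - G 0)‖ := by congr 1; abel
      _ ≤ ‖G 0‖ + ‖G u - G 0‖ := norm_add_le _ _
      _ ≤ ‖G 0‖ + L' * (R' + 1) := by
          gcongr
          exact h3.trans (by gcongr; linarith)
  set h := min (1 / (2 * L')) (1 / (B + 1)) with hh
  have hh0 : 0 < h := lt_min (by positivity) (by positivity)
  have hhL : L' * h ≤ 1 / 2 := by
    calc L' * h ≤ L' * (1 / (2 * L')) := by gcongr; exact min_le_left _ _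
      _ = 1 / 2 := by field_simp
  have hhB : h * B ≤ 1 := by
    calc h * B ≤ (1 / (B + 1)) * (B + 1) := by
          gcongr
          · exact min_le_right _ _
          · linarith
      _ = 1 := by field_simp
  -- the cutoff and the step
  set χ : H → ℝ := fun u => max 0 (min 1 ((e u - (c - ε₀)) / (ε₀ / 2))) with hχ
  have hχcont : Continuous χ := by
    apply continuous_const.max
    apply continuous_const.min
    exact (hecont.sub continuous_const).div_const _
  have hχ0 : ∀ u, 0 ≤ χ u := fun u => le_max_left _ _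
  have hχ1 : ∀ u, χ u ≤ 1 := fun u => max_le zero_le_one (min_le_left _ _)
  set D : H → H := fun u => u + (-(h * χ u)) • G u with hD
  have hDcont : Continuous D := by
    apply continuous_id.add
    exact ((continuous_const.mul hχcont).neg).smul hGcont
  have hstep : ∀ u, e u ≤ c + 1 + ε₀ → e (D u) ≤ e u - h * χ u / 2 * ‖G u‖ ^ 2 := by
    intro u hu
    have huR : ‖u‖ ≤ R' := (hR u hu).trans (le_max_left _ _)
    have hum : u ∈ closedBall (0 : H) (R' + 1) := by
      rw [mem_closedBall, dist_zero_right]; linarith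
    have hnorm : ‖(-(h * χ u)) • G u‖ = h * χ u * ‖G u‖ := by
      rw [norm_smul, Real.norm_eq_abs, abs_neg, abs_of_nonneg (mul_nonneg hh0.le (hχ0 u))]
    have hDm : u + (-(h * χ u)) • G u ∈ closedBall (0 : H) (R' + 1) := by
      rw [mem_closedBall, dist_zero_right]
      calc ‖u + (-(h * χ u)) • G u‖ ≤ ‖u‖ + ‖(-(h * χ u)) • G u‖ := norm_add_le _ _
        _ ≤ R' + h * 1 * B := by
            rw [hnorm]
            gcongr
            · exact hχ1 u
            · exact hGB u huR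
        _ ≤ R' + 1 := by linarith
    have h3 := descent e G hG (R' + 1) L' hL'L u _ hum hDm
    rw [inner_smul_right, real_inner_self_eq_norm_sq, hnorm] at h3
    have h4 : L' * (h * χ u * ‖G u‖) ^ 2 ≤ h * χ u / 2 * ‖G u‖ ^ 2 := by
      have : L' * (h * χ u * ‖G u‖) ^ 2 = (L' * h) * χ u * (h * χ u * ‖G u‖ ^ 2) := by ring
      rw [this]
      have h5 : 0 ≤ h * χ u * ‖G u‖ ^ 2 := by
        have := hχ0 u
        positivity
      have h6 : (L' * h) * χ u ≤ 1 / 2 := by
        calc (L' * h) * χ u ≤ (1 / 2) * 1 := mul_le_mul hhL (hχ1 u) (hχ0 u) (by norm_num)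
          _ = 1 / 2 := by ring
      nlinarith
    change e (u + (-(h * χ u)) • G u) ≤ _
    nlinarith
  set ε := min ε₀ (h * δ₀ ^ 2 / 4) with hε
  have hε0 : 0 < ε := lt_min hε₀ (by positivity)
  obtain ⟨γ, hγ⟩ := hc1 ε hε0
  apply hc2 (min (ε₀ / 2) (h * δ₀ ^ 2 / 4)) (lt_min (by positivity) (by positivity))
  have hfix : ∀ u, e u = m → D u = u := by
    intro u hu
    have : χ u = 0 := by
      simp only [hχ, hu]
      apply max_eq_left
      apply (min_le_right _ _).trans
      apply div_nonpos_of_nonpos_of_nonneg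
      · linarith
      · positivity
    simp only [hD, this, mul_zero, neg_zero, zero_smul, add_zero]
  refine ⟨⟨⟨fun t => D (γ t), hDcont.comp γ.continuous⟩, ?_, ?_⟩, ?_⟩
  · simp only [γ.source]; exact hfix u₁ h1
  · simp only [γ.target]; exact hfix u₂ h2
  · intro t
    change e (D (γ t)) ≤ _
    have hγt := hγ t
    have hle : e (γ t) ≤ c + 1 + ε₀ := by
      have : ε ≤ ε₀ := min_le_left _ _
      linarith
    have h3 := hstep (γ t) hle
    rcases lt_or_ge (e (γ t)) (c - ε₀ / 2) with h4 | h4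
    · have h5 : 0 ≤ h * χ (γ t) / 2 * ‖G (γ t)‖ ^ 2 := by
        have := hχ0 (γ t)
        positivity
      have h6 : min (ε₀ / 2) (h * δ₀ ^ 2 / 4) ≤ ε₀ / 2 := min_le_left _ _
      linarith
    · have hχt : χ (γ t) = 1 := by
        simp only [hχ]
        rw [min_eq_left, max_eq_right zero_le_one]
        rw [one_le_div (by positivity)]
        linarith
      have habs : |e (γ t) - c| ≤ ε₁ := by
        rw [abs_le]
        have : ε ≤ ε₀ := min_le_left _ _
        constructor <;> linarith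
      have h5 := hδ (γ t) habs
      rw [hχt, mul_one] at h3
      have h6 : δ₀ ^ 2 ≤ ‖G (γ t)‖ ^ 2 := by gcongr
      have h7 : min (ε₀ / 2) (h * δ₀ ^ 2 / 4) ≤ h * δ₀ ^ 2 / 4 := min_le_right _ _
      have h8 : ε ≤ h * δ₀ ^ 2 / 4 := min_le_right _ _
      have h9 : h / 2 * δ₀ ^ 2 ≤ h / 2 * ‖G (γ t)‖ ^ 2 := by gcongr
      linarith

end Pool.Agent.Work.MP_804706_an
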