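import Mathlib

set_option autoImplicit false

open Set Metric Filter InnerProductSpace
open scoped Topology RealInnerProductSpace

namespace Pool.Agent.Work.MP_804706_an

variable {H L : Type*} [NormedAddCommGroup H] [InnerProductSpace ℝ H] [CompleteSpace H]
  [NormedAddCommGroup L] [InnerProductSpace ℝ L] [CompleteSpace L]

theorem exists_weak_subseq (ι : H →L[ℝ] L) (hinj : Function.Injective ι)
    (hcpt : IsCompactOperator ι) (u : ℕ → H) (R : ℝ) (hb : ∀ n, ‖u n‖ ≤ R) :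
    ∃ φ : ℕ → ℕ, StrictMono φ ∧ ∃ x : H, (∀ h, Tendsto (fun n => ⟪u (φ n), h⟫) atTop (𝓝 ⟪x, h⟫)) ∧
      Tendsto (fun n => ι (u (φ n))) atTop (𝓝 (ι x)) ∧
      ∃ ρ, Tendsto (fun n => ‖u (φ n)‖) atTop (𝓝 ρ) := by
  have hR : 0 ≤ R := (norm_nonneg _).trans (hb 0)
  have hK : IsCompact (closure (ι '' closedBall 0 R)) :=
    IsCompactOperator.isCompact_closure_image_closedBall (f := (ι : H →ₗ[ℝ] L)) hcpt R
  obtain ⟨y, -, φ₁, hφ₁, hy⟩ := hK.isSeqCompact (x := fun n => ι (u n)) (fun n =>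
    subset_closure ⟨u n, by simpa using hb n, rfl⟩)
  obtain ⟨ρ, -, φ₂, hφ₂, hρ⟩ := (isCompact_Icc (a := (0 : ℝ)) (b := R)).isSeqCompact
    (x := fun n => ‖u (φ₁ n)‖) (fun n => ⟨norm_nonneg _, hb _⟩)
  set v : ℕ → H := fun n => u (φ₁ (φ₂ n)) with hv
  have hvb : ∀ n, ‖v n‖ ≤ R := fun n => hb _
  have hιv : Tendsto (fun n => ι (v n)) atTop (𝓝 y) := hy.comp hφ₂.tendsto_atTop
  -- density of the range of the adjoint
  have hdense : DenseRange (ContinuousLinearMap.adjoint ι) := by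
    have h1 := ContinuousLinearMap.orthogonal_ker ι
    have h2 : (ι : H →ₗ[ℝ] L).ker = ⊥ := LinearMap.ker_eq_bot.2 hinj
    rw [h2, Submodule.bot_orthogonal_eq_top] at h1
    rw [denseRange_iff_closure_range]
    have h3 := congrArg (fun S : Submodule ℝ H => (S : Set H)) h1.symm
    simp only [Submodule.topologicalClosure_coe, Submodule.top_coe] at h3
    exact h3
  have hadj : ∀ z, Tendsto (fun n => ⟪v n, ContinuousLinearMap.adjoint ι z⟫) atTop (𝓝 ⟪y, z⟫) := by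
    intro z
    simp only [ContinuousLinearMap.adjoint_inner_right]
    exact hιv.inner tendsto_const_nhds
  have hcauchy : ∀ h, CauchySeq (fun n => ⟪v n, h⟫) := by
    intro h
    rw [Metric.cauchySeq_iff']
    intro ε hε
    obtain ⟨z, hz⟩ := hdense.exists_dist_lt h (ε := ε / (4 * (R + 1))) (by positivity)
    have h1 : CauchySeq (fun n => ⟪v n, ContinuousLinearMap.adjoint ι z⟫) := (hadj z).cauchySeq
    rw [Metric.cauchySeq_iff'] at h1
    obtain ⟨N, hN⟩ := h1 (ε / 4) (by positivity)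
    refine ⟨N, fun n hn => ?_⟩
    have h2 := hN n hn
    rw [Real.dist_eq] at h2 ⊢
    have key : ∀ k, |⟪v k, h⟫ - ⟪v k, ContinuousLinearMap.adjoint ι z⟫| ≤ ε / 4 := by
      intro k
      rw [← inner_sub_right]
      calc |⟪v k, h - ContinuousLinearMap.adjoint ι z⟫|
          ≤ ‖v k‖ * ‖h - ContinuousLinearMap.adjoint ι z‖ := abs_real_inner_le_norm _ _
        _ ≤ (R + 1) * (ε / (4 * (R + 1))) := by
            rw [← dist_eq_norm]
            gcongr
            linarith [hvb k]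
        _ = ε / 4 := by field_simp
    have h3 := key n
    have h4 := key N
    have : ⟪v n, h⟫ - ⟪v N, h⟫ = (⟪v n, h⟫ - ⟪v n, ContinuousLinearMap.adjoint ι z⟫)
      + (⟪v n, ContinuousLinearMap.adjoint ι z⟫ - ⟪v N, ContinuousLinearMap.adjoint ι z⟫)
      - (⟪v N, h⟫ - ⟪v N, ContinuousLinearMap.adjoint ι z⟫) := by ring
    rw [this]
    rw [abs_le] at h3 h4
    rw [abs_lt] at h2
    rw [abs_lt]
    constructor <;> linarith [h3.1, h3.2, h4.1, h4.2, h2.1, h2.2]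
  choose l hl using fun h => cauchySeq_tendsto_of_complete (hcauchy h)
  have hptw : Tendsto (fun n (x : H) => (innerSL ℝ (v n)) x) atTop (𝓝 l) := by
    rw [tendsto_pi_nhds]
    intro h
    simpa using hl h
  set ℓ : H →L[ℝ] ℝ := continuousLinearMapOfTendsto (fun n => innerSL ℝ (v n)) hptw with hℓ
  have hℓa : ∀ h, ℓ h = l h := fun h => rfl
  set x : H := (InnerProductSpace.toDual ℝ H).symm ℓ with hx
  have hxin : ∀ h, ⟪x, h⟫ = l h := by
    intro h
    rw [hx, InnerProductSpace.toDual_symm_apply, hℓa]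
  refine ⟨φ₁ ∘ φ₂, hφ₁.comp hφ₂, x, fun h => ?_, ?_, ρ, hρ⟩
  · rw [hxin]; exact hl h
  · have hxy : ι x = y := by
      refine ext_inner_right ℝ fun z => ?_
      rw [← ContinuousLinearMap.adjoint_inner_right, hxin]
      exact tendsto_nhds_unique (hl _) (hadj z)
    rw [hxy]
    exact hιv

omit [CompleteSpace H] in
/-- norms of differences with the weak limit -/
theorem tendsto_norm_sub_sq (v : ℕ → H) (x : H) (ρ : ℝ)
    (hw : ∀ h, Tendsto (fun n => ⟪v n, h⟫) atTop (𝓝 ⟪x, h⟫))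
    (hρ : Tendsto (fun n => ‖v n‖) atTop (𝓝 ρ)) :
    Tendsto (fun n => ‖v n - x‖ ^ 2) atTop (𝓝 (ρ ^ 2 - ‖x‖ ^ 2)) := by
  have h1 : ∀ n, ‖v n - x‖ ^ 2 = ‖v n‖ ^ 2 - 2 * ⟪v n, x⟫ + ‖x‖ ^ 2 := fun n =>
    norm_sub_sq_real _ _
  simp only [h1]
  have h2 := ((hρ.pow 2).sub ((hw x).const_mul 2)).add_const (‖x‖ ^ 2)
  rw [real_inner_self_eq_norm_sq] at h2
  convert! h2 using 2
  ring

end Pool.Agent.Work.MP_804706_an
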