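import Mathlib
import Pool.Agent.Work.MP_804706_an.Weak
import Pool.Agent.Work.MP_804706_an.MountainPass

set_option autoImplicit false

open Set Metric Filter InnerProductSpace
open scoped Topology RealInnerProductSpace

namespace Pool.Agent.Work.MP_804706_an

/-- abstract data: a compactly embedded Hilbert space and a subquartic perturbation -/
structure KData (H L : Type*) [NormedAddCommGroup H] [InnerProductSpace ℝ H] [CompleteSpace H]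
    [NormedAddCommGroup L] [InnerProductSpace ℝ L] [CompleteSpace L] where
  ι : H →L[ℝ] L
  inj : Function.Injective ι
  cpt : IsCompactOperator ι
  Ψ : H → ℝ
  DΨ : H → H
  θ : ℝ → ℝ
  q : ℝ
  hq0 : 0 ≤ q
  hq4 : q ≤ 4
  θ_nonneg : ∀ s, 0 ≤ θ s
  θ_mono : ∀ s t, 0 ≤ s → s ≤ t → θ s ≤ θ t
  θ_small : ∀ ε > 0, ∃ S, ∀ s, S ≤ s → θ s ≤ ε * s ^ 2
  nonneg : ∀ u, 0 ≤ Ψ u
  even : ∀ u, Ψ (-u) = Ψ u
  bound : ∀ u, Ψ u ≤ θ ‖u‖ * ‖u‖ ^ 2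
  grad : ∀ u, HasGradientAt Ψ (DΨ u) u
  lip : ∀ u w, ‖DΨ u - DΨ w‖ ≤ θ (‖u‖ + ‖w‖) * ‖u - w‖
  bl : ∀ (v : ℕ → H) (x : H) (R : ℝ), (∀ n, ‖v n‖ ≤ R) →
    (∀ h, Tendsto (fun n => ⟪v n, h⟫) atTop (𝓝 ⟪x, h⟫)) →
    Tendsto (fun n => ι (v n)) atTop (𝓝 (ι x)) →
    Tendsto (fun n => Ψ (v n) - Ψ x - Ψ (v n - x)) atTop (𝓝 0) ∧
      Tendsto (fun n => ⟪DΨ (v n), v n - x⟫ - q * Ψ (v n - x)) atTop (𝓝 0)

variable {H L : Type*} [NormedAddCommGroup H] [InnerProductSpace ℝ H] [CompleteSpace H]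
    [NormedAddCommGroup L] [InnerProductSpace ℝ L] [CompleteSpace L]

namespace KData

variable (D : KData H L) (a b lam : ℝ) (v : L)

/-- the functional without the quadratic term -/
noncomputable def I (u : H) : ℝ := a / 2 * ‖u‖ ^ 2 + b / 4 * ‖u‖ ^ 4 - D.Ψ u

/-- the energy -/
noncomputable def E (u : H) : ℝ := D.I a b u - lam / 2 * ‖D.ι u - v‖ ^ 2

/-- the energy shifted by a constant -/
noncomputable def e (u : H) : ℝ := D.I a b u - lam / 2 * ‖D.ι u‖ ^ 2 + lam * ⟪D.ι u, v⟫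

/-- the gradient -/
noncomputable def G (u : H) : H :=
  (a + b * ‖u‖ ^ 2) • u - D.DΨ u - lam • ContinuousLinearMap.adjoint D.ι (D.ι u)
    + lam • ContinuousLinearMap.adjoint D.ι v

theorem E_eq (u : H) : D.E a b lam v u = D.e a b lam v u - lam / 2 * ‖v‖ ^ 2 := by
  unfold E e
  rw [norm_sub_sq_real]
  ring

theorem theta_le (ε : ℝ) (hε : 0 < ε) : ∃ C, 0 ≤ C ∧ ∀ s, 0 ≤ s → D.θ s ≤ ε * s ^ 2 + C := by
  obtain ⟨S, hS⟩ := D.θ_small ε hε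
  refine ⟨D.θ (max S 0), D.θ_nonneg _, fun s hs => ?_⟩
  rcases le_total S s with h | h
  · have := hS s h
    have := D.θ_nonneg (max S 0)
    linarith
  · have h1 := D.θ_mono s (max S 0) hs (h.trans (le_max_left _ _))
    have : 0 ≤ ε * s ^ 2 := by positivity
    linarith

theorem hasGradientAt_e (u : H) : HasGradientAt (D.e a b lam v) (D.G a b lam v u) u := by
  have h1 : HasFDerivAt (fun x : H => ‖x‖ ^ 2) (2 • (innerSL ℝ) u) u :=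
    (hasStrictFDerivAt_norm_sq u).hasFDerivAt
  have h2 : HasFDerivAt (fun x : H => ‖x‖ ^ 4) ((2 * ‖u‖ ^ 2) • (2 • (innerSL ℝ) u)) u := by
    have := h1.pow 2
    have e1 : (fun x : H => ‖x‖ ^ 4) = fun x : H => (‖x‖ ^ 2) ^ 2 := by
      funext x; ring
    rw [e1]
    convert! this using 1
    ext y
    simp
  have h3 : HasFDerivAt (fun x : H => ‖D.ι x‖ ^ 2) (2 • ((innerSL ℝ) (D.ι u)).comp D.ι) u :=
    D.ι.hasFDerivAt.norm_sq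
  have h4 : HasFDerivAt (fun x : H => ⟪D.ι x, v⟫) (((innerSL ℝ) v).comp D.ι) u := by
    have e1 : (fun x : H => ⟪D.ι x, v⟫) = fun x : H => ((innerSL ℝ) v) (D.ι x) := by
      funext x; rw [innerSL_apply_apply, real_inner_comm]
    rw [e1]
    exact ((innerSL ℝ) v).hasFDerivAt.comp u D.ι.hasFDerivAt
  have h5 := (D.grad u).hasFDerivAt
  have h6 := (((h1.const_mul (a / 2)).add (h2.const_mul (b / 4))).sub h5).sub
    (h3.const_mul (lam / 2)) |>.add (h4.const_mul lam)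
  rw [hasGradientAt_iff_hasFDerivAt]
  have e2 : D.e a b lam v = fun x => a / 2 * ‖x‖ ^ 2 + b / 4 * ‖x‖ ^ 4 - D.Ψ x
      - lam / 2 * ‖D.ι x‖ ^ 2 + lam * ⟪D.ι x, v⟫ := by
    funext x; rfl
  rw [e2]
  convert! h6 using 1
  ext y
  simp only [G, InnerProductSpace.toDual_apply_apply, add_apply,
    sub_apply, smul_apply, innerSL_apply_apply,
    ContinuousLinearMap.comp_apply, inner_add_left, inner_sub_left, inner_smul_left,
    ContinuousLinearMap.adjoint_inner_left, smul_eq_mul, nsmul_eq_mul, conj_trivial]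
  push_cast
  ring

theorem G_lip (R : ℝ) : ∃ K, ∀ u ∈ closedBall (0 : H) R, ∀ w ∈ closedBall (0 : H) R,
      ‖D.G a b lam v u - D.G a b lam v w‖ ≤ K * ‖u - w‖ := by
  rcases lt_or_ge R 0 with hR | hR
  · refine ⟨0, fun u hu => ?_⟩
    rw [closedBall_eq_empty.2 hR] at hu
    exact hu.elim
  refine ⟨|a| + |b| * (3 * R ^ 2) + D.θ (2 * R) +
    |lam| * (‖ContinuousLinearMap.adjoint D.ι‖ * ‖D.ι‖), ?_⟩
  intro u hu w hw
  rw [mem_closedBall, dist_zero_right] at hu hw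
  have key : D.G a b lam v u - D.G a b lam v w =
      (a • (u - w) + b • ((‖u‖ ^ 2 - ‖w‖ ^ 2) • u + ‖w‖ ^ 2 • (u - w))) - (D.DΨ u - D.DΨ w)
        - lam • ContinuousLinearMap.adjoint D.ι (D.ι (u - w)) := by
    simp only [G, map_sub, smul_sub, add_smul, sub_smul, smul_add, mul_smul]
    abel
  have h1 : ‖(‖u‖ ^ 2 - ‖w‖ ^ 2) • u + ‖w‖ ^ 2 • (u - w)‖ ≤ 3 * R ^ 2 * ‖u - w‖ := by
    have h2 : |‖u‖ ^ 2 - ‖w‖ ^ 2| ≤ 2 * R * ‖u - w‖ := by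
      have h3 : ‖u‖ ^ 2 - ‖w‖ ^ 2 = (‖u‖ + ‖w‖) * (‖u‖ - ‖w‖) := by ring
      rw [h3, abs_mul]
      have h4 : |‖u‖ - ‖w‖| ≤ ‖u - w‖ := abs_norm_sub_norm_le u w
      have h5 : |‖u‖ + ‖w‖| ≤ 2 * R := by
        rw [abs_of_nonneg (by positivity)]; linarith
      exact mul_le_mul h5 h4 (abs_nonneg _) (by positivity)
    calc ‖(‖u‖ ^ 2 - ‖w‖ ^ 2) • u + ‖w‖ ^ 2 • (u - w)‖
        ≤ ‖(‖u‖ ^ 2 - ‖w‖ ^ 2) • u‖ + ‖‖w‖ ^ 2 • (u - w)‖ := norm_add_le _ _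
      _ = |‖u‖ ^ 2 - ‖w‖ ^ 2| * ‖u‖ + ‖w‖ ^ 2 * ‖u - w‖ := by
          rw [norm_smul, norm_smul, Real.norm_eq_abs, Real.norm_eq_abs, abs_of_nonneg
            (by positivity : 0 ≤ ‖w‖ ^ 2)]
      _ ≤ 2 * R * ‖u - w‖ * R + R ^ 2 * ‖u - w‖ := by gcongr
      _ = 3 * R ^ 2 * ‖u - w‖ := by ring
  have h6 : ‖D.DΨ u - D.DΨ w‖ ≤ D.θ (2 * R) * ‖u - w‖ := by
    refine (D.lip u w).trans ?_
    gcongr
    exact D.θ_mono _ _ (by positivity) (by linarith)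
  have h7 : ‖ContinuousLinearMap.adjoint D.ι (D.ι (u - w))‖ ≤
      ‖ContinuousLinearMap.adjoint D.ι‖ * ‖D.ι‖ * ‖u - w‖ := by
    refine (ContinuousLinearMap.le_opNorm _ _).trans ?_
    rw [mul_assoc]
    gcongr
    exact ContinuousLinearMap.le_opNorm _ _
  rw [key]
  calc ‖(a • (u - w) + b • ((‖u‖ ^ 2 - ‖w‖ ^ 2) • u + ‖w‖ ^ 2 • (u - w))) - (D.DΨ u - D.DΨ w)
        - lam • ContinuousLinearMap.adjoint D.ι (D.ι (u - w))‖
      ≤ ‖a • (u - w)‖ + ‖b • ((‖u‖ ^ 2 - ‖w‖ ^ 2) • u + ‖w‖ ^ 2 • (u - w))‖ +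
        ‖D.DΨ u - D.DΨ w‖ + ‖lam • ContinuousLinearMap.adjoint D.ι (D.ι (u - w))‖ := by
        refine (norm_sub_le _ _).trans ?_
        gcongr
        refine (norm_sub_le _ _).trans ?_
        gcongr
        exact norm_add_le _ _
    _ ≤ |a| * ‖u - w‖ + |b| * (3 * R ^ 2 * ‖u - w‖) + D.θ (2 * R) * ‖u - w‖ +
        |lam| * (‖ContinuousLinearMap.adjoint D.ι‖ * ‖D.ι‖ * ‖u - w‖) := by
        rw [norm_smul, norm_smul, norm_smul, Real.norm_eq_abs, Real.norm_eq_abs, Real.norm_eq_abs]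
        gcongr
    _ = _ := by ring

/-- lower bound on `I` -/
theorem I_lower (ha : 0 ≤ a) (hb : 0 < b) : ∃ C, 0 ≤ C ∧ ∀ u, b / 8 * ‖u‖ ^ 4 - C ≤ D.I a b u := by
  obtain ⟨C, hC0, hC⟩ := D.theta_le (b / 16) (by positivity)
  refine ⟨4 * C ^ 2 / b, by positivity, fun u => ?_⟩
  have h1 := D.bound u
  have h2 := hC ‖u‖ (norm_nonneg u)
  have h3 : D.θ ‖u‖ * ‖u‖ ^ 2 ≤ (b / 16 * ‖u‖ ^ 2 + C) * ‖u‖ ^ 2 := by gcongr
  have h4 : C * ‖u‖ ^ 2 ≤ b / 16 * ‖u‖ ^ 4 + 4 * C ^ 2 / b := by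
    have h5 : b / 16 * ‖u‖ ^ 4 + 4 * C ^ 2 / b - C * ‖u‖ ^ 2 =
        (b * ‖u‖ ^ 2 / 8 - C) ^ 2 * (4 / b) := by
      field_simp
      ring
    have h6 : 0 ≤ (b * ‖u‖ ^ 2 / 8 - C) ^ 2 * (4 / b) := by positivity
    linarith
  unfold I
  have h7 : 0 ≤ a / 2 * ‖u‖ ^ 2 := by positivity
  nlinarith

theorem e_lower (hlam : 0 ≤ lam) (u : H) :
    D.I a b u - lam / 2 * (‖D.ι‖ ^ 2 * ‖u‖ ^ 2) -
      lam * (‖ContinuousLinearMap.adjoint D.ι v‖ * ‖u‖) ≤ D.e a b lam v u := by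
  unfold e
  have h1 : ‖D.ι u‖ ^ 2 ≤ ‖D.ι‖ ^ 2 * ‖u‖ ^ 2 := by
    rw [← mul_pow]
    gcongr
    exact D.ι.le_opNorm u
  have h2 : -(‖ContinuousLinearMap.adjoint D.ι v‖ * ‖u‖) ≤ ⟪D.ι u, v⟫ := by
    rw [← ContinuousLinearMap.adjoint_inner_right, mul_comm]
    have := abs_real_inner_le_norm u (ContinuousLinearMap.adjoint D.ι v)
    exact (abs_le.1 this).1
  nlinarith

/-- uniform coercivity -/
theorem coercive (ha : 0 ≤ a) (hb : 0 < b) (hlam : 0 ≤ lam) (B c : ℝ) :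
    ∃ R, 0 ≤ R ∧ ∀ v : L, ‖v‖ ≤ B → ∀ u, D.e a b lam v u ≤ c → ‖u‖ ≤ R := by
  obtain ⟨C, hC0, hC⟩ := D.I_lower a b ha hb
  set K := lam / 2 * ‖D.ι‖ ^ 2 + lam * (‖ContinuousLinearMap.adjoint D.ι‖ * |B|) with hK
  have hK0 : 0 ≤ K := by positivity
  set T := 8 / b * (K + |c + C| + 1) with hT
  have hT0 : 0 ≤ T := by positivity
  refine ⟨T + 1, by positivity, fun v hv u hu => ?_⟩
  by_contra hcon
  push Not at hcon
  have hx1 : 1 ≤ ‖u‖ := by linarith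
  have h1 := D.e_lower a b lam v hlam u
  have h2 := hC u
  have h3 : ‖ContinuousLinearMap.adjoint D.ι v‖ ≤ ‖ContinuousLinearMap.adjoint D.ι‖ * |B| := by
    refine (ContinuousLinearMap.le_opNorm _ _).trans ?_
    gcongr
    exact hv.trans (le_abs_self B)
  have h4 : lam * (‖ContinuousLinearMap.adjoint D.ι v‖ * ‖u‖) ≤
      lam * (‖ContinuousLinearMap.adjoint D.ι‖ * |B|) * ‖u‖ ^ 2 := by
    calc lam * (‖ContinuousLinearMap.adjoint D.ι v‖ * ‖u‖)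
        ≤ lam * ((‖ContinuousLinearMap.adjoint D.ι‖ * |B|) * ‖u‖ ^ 2) := by
          gcongr
          nlinarith
      _ = _ := by ring
  have h5 : b / 8 * ‖u‖ ^ 4 - K * ‖u‖ ^ 2 ≤ c + C := by
    rw [hK]
    nlinarith
  have h6 : T ≤ ‖u‖ ^ 2 := by nlinarith
  have h7 : b / 8 * T = K + |c + C| + 1 := by
    rw [hT]; field_simp
  have h8 : K + |c + C| + 1 ≤ b / 8 * ‖u‖ ^ 2 := by
    rw [← h7]; gcongr
  have h9 : (|c + C| + 1) * ‖u‖ ^ 2 ≤ b / 8 * ‖u‖ ^ 4 - K * ‖u‖ ^ 2 := by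
    have : b / 8 * ‖u‖ ^ 4 - K * ‖u‖ ^ 2 = (b / 8 * ‖u‖ ^ 2 - K) * ‖u‖ ^ 2 := by ring
    rw [this]
    gcongr
    linarith
  have h10 : |c + C| + 1 ≤ (|c + C| + 1) * ‖u‖ ^ 2 := by
    have h12 : 0 ≤ |c + C| + 1 := by positivity
    have h13 : 1 ≤ ‖u‖ ^ 2 := by nlinarith
    exact le_mul_of_one_le_right h12 h13
  have h11 := le_abs_self (c + C)
  linarith

end KData

end Pool.Agent.Work.MP_804706_an
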