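import Mathlib
import Pool.Agent.Work.MP_804706_an.Basic

set_option autoImplicit false

open Set Metric Filter InnerProductSpace
open scoped Topology RealInnerProductSpace

namespace Pool.Agent.Work.MP_804706_an

variable {H L : Type*} [NormedAddCommGroup H] [InnerProductSpace ℝ H] [CompleteSpace H]
    [NormedAddCommGroup L] [InnerProductSpace ℝ L] [CompleteSpace L]

namespace KData

variable (D : KData H L) (a b lam : ℝ) (v : L)

/-- `R₁` is admissible -/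
def Adm (b R₁ : ℝ) : Prop := 3 ≤ R₁ ∧ ∀ s, R₁ ≤ s → D.θ s ≤ b / 8 * s ^ 2

theorem exists_adm (hb : 0 < b) : ∃ R₁, D.Adm b R₁ := by
  obtain ⟨S, hS⟩ := D.θ_small (b / 8) (by positivity)
  exact ⟨max 3 S, le_max_left _ _, fun s hs => hS s ((le_max_right _ _).trans hs)⟩

/-- the level below which everything lives far from the origin -/
noncomputable def Kc (R₁ : ℝ) : ℝ :=
  D.θ R₁ * R₁ ^ 2 + lam / 2 * (‖D.ι‖ ^ 2 * R₁ ^ 2) +
    lam * (‖ContinuousLinearMap.adjoint D.ι v‖ * R₁)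

theorem ball_lower (ha : 0 ≤ a) (hb : 0 < b) (hlam : 0 ≤ lam) (R₁ : ℝ) (hR : 0 ≤ R₁) (u : H)
    (hu : ‖u‖ ≤ R₁) : - D.Kc lam v R₁ ≤ D.e a b lam v u := by
  refine le_trans ?_ (D.e_lower a b lam v hlam u)
  unfold Kc I
  have h1 := D.bound u
  have h2 : D.θ ‖u‖ * ‖u‖ ^ 2 ≤ D.θ R₁ * R₁ ^ 2 := by
    have := D.θ_nonneg R₁
    gcongr
    exact D.θ_mono _ _ (norm_nonneg _) hu
  have h3 : 0 ≤ a / 2 * ‖u‖ ^ 2 := by positivity
  have h4 : 0 ≤ b / 4 * ‖u‖ ^ 4 := by positivity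
  have h5 : lam / 2 * (‖D.ι‖ ^ 2 * ‖u‖ ^ 2) ≤ lam / 2 * (‖D.ι‖ ^ 2 * R₁ ^ 2) := by gcongr
  have h6 : lam * (‖ContinuousLinearMap.adjoint D.ι v‖ * ‖u‖) ≤
    lam * (‖ContinuousLinearMap.adjoint D.ι v‖ * R₁) := by gcongr
  linarith

theorem psi_eventually (hb : 0 < b) (R₁ : ℝ) (hA : D.Adm b R₁) (w : ℕ → H) (τ ρ : ℝ)
    (hτ : Tendsto (fun n => ‖w n‖ ^ 2) atTop (𝓝 τ)) (hτρ : τ ≤ ρ ^ 2) (hρ : R₁ ≤ ρ) :
    ∀ᶠ n in atTop, D.Ψ (w n) ≤ 2 * b / 9 * ρ ^ 2 * ‖w n‖ ^ 2 := by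
  have hρ3 : 3 ≤ ρ := hA.1.trans hρ
  have h1 : τ < (ρ + 1) ^ 2 := by nlinarith
  filter_upwards [hτ.eventually_lt_const h1] with n hn
  have h2 : ‖w n‖ < ρ + 1 := lt_of_pow_lt_pow_left₀ 2 (by linarith) hn
  have h3 : D.θ ‖w n‖ ≤ b / 8 * (ρ + 1) ^ 2 :=
    (D.θ_mono _ _ (norm_nonneg _) h2.le).trans (hA.2 _ (by linarith))
  have h4 : b / 8 * (ρ + 1) ^ 2 ≤ 2 * b / 9 * ρ ^ 2 := by
    have : 9 * (ρ + 1) ^ 2 ≤ 16 * ρ ^ 2 := by nlinarith
    nlinarith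
  calc D.Ψ (w n) ≤ D.θ ‖w n‖ * ‖w n‖ ^ 2 := D.bound _
    _ ≤ 2 * b / 9 * ρ ^ 2 * ‖w n‖ ^ 2 := by gcongr; exact h3.trans h4

theorem continuous_e : Continuous (D.e a b lam v) :=
  continuous_iff_continuousAt.2 fun u => (D.hasGradientAt_e a b lam v u).hasFDerivAt.continuousAt

/-- extraction of a good subsequence from a sequence with bounded energy below the critical level -/
theorem extract (ha : 0 ≤ a) (hb : 0 < b) (hlam : 0 ≤ lam) (R₁ : ℝ) (hA : D.Adm b R₁)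
    (u : ℕ → H) (c : ℝ) (hc : c < - D.Kc lam v R₁)
    (hlim : Tendsto (fun n => D.e a b lam v (u n)) atTop (𝓝 c)) :
    ∃ φ : ℕ → ℕ, StrictMono φ ∧ ∃ x : H, ∃ R ρ : ℝ, (∀ n, ‖u (φ n)‖ ≤ R) ∧
      (∀ h, Tendsto (fun n => ⟪u (φ n), h⟫) atTop (𝓝 ⟪x, h⟫)) ∧
      Tendsto (fun n => D.ι (u (φ n))) atTop (𝓝 (D.ι x)) ∧
      Tendsto (fun n => ‖u (φ n)‖) atTop (𝓝 ρ) ∧ R₁ ≤ ρ ∧
      Tendsto (fun n => ‖u (φ n) - x‖ ^ 2) atTop (𝓝 (ρ ^ 2 - ‖x‖ ^ 2)) ∧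
      0 ≤ ρ ^ 2 - ‖x‖ ^ 2 := by
  obtain ⟨c', hc'⟩ := hlim.bddAbove_range
  obtain ⟨R, hR0, hR⟩ := D.coercive a b lam ha hb hlam ‖v‖ c'
  have hb' : ∀ n, ‖u n‖ ≤ R := fun n => hR v le_rfl (u n) (hc' ⟨n, rfl⟩)
  obtain ⟨φ, hφ, x, hw, hι, ρ, hρ⟩ := exists_weak_subseq D.ι D.inj D.cpt u R hb'
  have hR₁0 : 0 ≤ R₁ := by linarith [hA.1]
  have hev : ∀ᶠ n in atTop, R₁ ≤ ‖u (φ n)‖ := by
    have h1 := (hlim.comp hφ.tendsto_atTop).eventually_lt_const hc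
    filter_upwards [h1] with n hn
    by_contra hcon
    push Not at hcon
    have := D.ball_lower a b lam v ha hb hlam R₁ hR₁0 (u (φ n)) hcon.le
    simp only [Function.comp] at hn
    linarith
  have hρR : R₁ ≤ ρ := ge_of_tendsto hρ hev
  have hsq := tendsto_norm_sub_sq (fun n => u (φ n)) x ρ hw hρ
  exact ⟨φ, hφ, x, R, ρ, fun n => hb' _, hw, hι, hρ, hρR, hsq,
    ge_of_tendsto hsq (Eventually.of_forall fun n => by positivity)⟩

/-- minimizing sequences are compact -/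
theorem min_compact (ha : 0 ≤ a) (hb : 0 < b) (hlam : 0 ≤ lam) (R₁ : ℝ) (hA : D.Adm b R₁)
    (m : ℝ) (hm : ∀ u, m ≤ D.e a b lam v u) (hmK : m < - D.Kc lam v R₁) (u : ℕ → H)
    (hlim : Tendsto (fun n => D.e a b lam v (u n)) atTop (𝓝 m)) :
    ∃ φ : ℕ → ℕ, StrictMono φ ∧ ∃ x, Tendsto (fun n => u (φ n)) atTop (𝓝 x) ∧
      D.e a b lam v x = m := by
  obtain ⟨φ, hφ, x, R, ρ, hbd, hw, hι, hρ, hρR, hsq, hτ0⟩ :=
    D.extract a b lam v ha hb hlam R₁ hA u m hmK hlim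
  have hρ3 : 3 ≤ ρ := hA.1.trans hρR
  have hlim' : Tendsto (fun n => D.e a b lam v (u (φ n))) atTop (𝓝 m) :=
    hlim.comp hφ.tendsto_atTop
  -- limit of Ψ (u n)
  have hΨu : Tendsto (fun n => D.Ψ (u (φ n))) atTop
      (𝓝 (a / 2 * ρ ^ 2 + b / 4 * ρ ^ 4 - lam / 2 * ‖D.ι x‖ ^ 2 + lam * ⟪D.ι x, v⟫ - m)) := by
    have h1 := ((((hρ.pow 2).const_mul (a / 2)).add ((hρ.pow 4).const_mul (b / 4))).sub
      ((hι.norm.pow 2).const_mul (lam / 2))).add ((hι.inner (tendsto_const_nhds (x := v))).const_mul lam)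
      |>.sub hlim'
    refine h1.congr fun n => ?_
    simp only [e, I]
    ring
  have hbl := (D.bl (fun n => u (φ n)) x R hbd hw hι).1
  have hΨw : Tendsto (fun n => D.Ψ (u (φ n) - x)) atTop
      (𝓝 (a / 2 * ρ ^ 2 + b / 4 * ρ ^ 4 - lam / 2 * ‖D.ι x‖ ^ 2 + lam * ⟪D.ι x, v⟫ - m
        - D.Ψ x)) := by
    have h1 := (hΨu.sub_const (D.Ψ x)).sub hbl
    rw [sub_zero] at h1
    refine h1.congr fun n => ?_
    ring
  have hev := D.psi_eventually b hb R₁ hA (fun n => u (φ n) - x) _ ρ hsq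
    (by linarith [sq_nonneg ‖x‖]) hρR
  have h2 := le_of_tendsto_of_tendsto hΨw (hsq.const_mul (2 * b / 9 * ρ ^ 2)) hev
  have h3 := hm x
  simp only [e, I] at h3
  have h4 : b / 4 * ((ρ ^ 2 - ‖x‖ ^ 2) * (ρ ^ 2 + ‖x‖ ^ 2)) ≤
      2 * b / 9 * ρ ^ 2 * (ρ ^ 2 - ‖x‖ ^ 2) := by
    have h5 : 0 ≤ a / 2 * (ρ ^ 2 - ‖x‖ ^ 2) := by positivity
    nlinarith
  have h6 : ρ ^ 2 - ‖x‖ ^ 2 = 0 := by
    by_contra hne
    have hpos : 0 < ρ ^ 2 - ‖x‖ ^ 2 := lt_of_le_of_ne hτ0 (Ne.symm hne)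
    have h7 : b / 4 * (ρ ^ 2 + ‖x‖ ^ 2) ≤ 2 * b / 9 * ρ ^ 2 := by
      have : b / 4 * (ρ ^ 2 + ‖x‖ ^ 2) * (ρ ^ 2 - ‖x‖ ^ 2) ≤
        2 * b / 9 * ρ ^ 2 * (ρ ^ 2 - ‖x‖ ^ 2) := by nlinarith
      exact le_of_mul_le_mul_right this hpos
    have h8 : 0 < b * ρ ^ 2 := by positivity
    have h9 : 0 ≤ b * ‖x‖ ^ 2 := by positivity
    nlinarith
  rw [h6] at hsq
  have h10 : Tendsto (fun n => u (φ n)) atTop (𝓝 x) := by
    rw [tendsto_iff_norm_sub_tendsto_zero]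
    have := (Real.continuous_sqrt.tendsto 0).comp hsq
    simpa [Function.comp_def, Real.sqrt_sq, norm_nonneg] using this
  refine ⟨φ, hφ, x, h10, ?_⟩
  exact tendsto_nhds_unique (((D.continuous_e a b lam v).tendsto x).comp h10) hlim'

/-- Palais-Smale sequences below the level are compact -/
theorem ps_compact (ha : 0 ≤ a) (hb : 0 < b) (hlam : 0 ≤ lam) (R₁ : ℝ) (hA : D.Adm b R₁)
    (c : ℝ) (hc : c < - D.Kc lam v R₁) (u : ℕ → H)
    (hlim : Tendsto (fun n => D.e a b lam v (u n)) atTop (𝓝 c))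
    (hG : Tendsto (fun n => ‖D.G a b lam v (u n)‖) atTop (𝓝 0)) :
    ∃ φ : ℕ → ℕ, StrictMono φ ∧ ∃ x, Tendsto (fun n => u (φ n)) atTop (𝓝 x) := by
  obtain ⟨φ, hφ, x, R, ρ, hbd, hw, hι, hρ, hρR, hsq, hτ0⟩ :=
    D.extract a b lam v ha hb hlam R₁ hA u c hc hlim
  have hρ3 : 3 ≤ ρ := hA.1.trans hρR
  set w : ℕ → H := fun n => u (φ n) - x with hwdef
  have hwb : ∀ n, ‖w n‖ ≤ R + ‖x‖ := fun n => (norm_sub_le _ _).trans (by
    have := hbd n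
    linarith)
  have hGw : Tendsto (fun n => ⟪D.G a b lam v (u (φ n)), w n⟫) atTop (𝓝 0) := by
    have h1 : Tendsto (fun n => ‖D.G a b lam v (u (φ n))‖ * (R + ‖x‖)) atTop (𝓝 0) := by
      have := (hG.comp hφ.tendsto_atTop).mul_const (R + ‖x‖)
      simpa using this
    refine squeeze_zero_norm (fun n => ?_) h1
    rw [Real.norm_eq_abs]
    refine (abs_real_inner_le_norm _ _).trans ?_
    gcongr
    exact hwb n
  have hxw : Tendsto (fun n => ⟪x, w n⟫) atTop (𝓝 0) := by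
    have h1 := (hw x).sub_const ⟪x, x⟫
    rw [sub_self] at h1
    refine h1.congr fun n => ?_
    simp only [hwdef]
    rw [inner_sub_right, real_inner_comm]
  have huw : Tendsto (fun n => ⟪u (φ n), w n⟫) atTop (𝓝 (ρ ^ 2 - ‖x‖ ^ 2)) := by
    have h1 := hsq.add hxw
    rw [add_zero] at h1
    refine h1.congr fun n => ?_
    simp only [hwdef]
    rw [← real_inner_self_eq_norm_sq, ← inner_add_left]
    congr 1
    abel
  have hιw : Tendsto (fun n => D.ι (w n)) atTop (𝓝 0) := by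
    have h1 := hι.sub_const (D.ι x)
    rw [sub_self] at h1
    refine h1.congr fun n => ?_
    simp only [hwdef, map_sub]
  have hexp : ∀ n, ⟪D.DΨ (u (φ n)), w n⟫ = (a + b * ‖u (φ n)‖ ^ 2) * ⟪u (φ n), w n⟫
      - lam * ⟪D.ι (u (φ n)), D.ι (w n)⟫ + lam * ⟪v, D.ι (w n)⟫
      - ⟪D.G a b lam v (u (φ n)), w n⟫ := by
    intro n
    simp only [G, inner_add_left, inner_sub_left, inner_smul_left,
      ContinuousLinearMap.adjoint_inner_left, conj_trivial]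
    ring
  have hDΨ : Tendsto (fun n => ⟪D.DΨ (u (φ n)), w n⟫) atTop
      (𝓝 ((a + b * ρ ^ 2) * (ρ ^ 2 - ‖x‖ ^ 2))) := by
    have h1 := (((((hρ.pow 2).const_mul b).const_add a).mul huw).sub
      ((hι.inner hιw).const_mul lam)).add (((tendsto_const_nhds (x := v)).inner hιw).const_mul lam)
      |>.sub hGw
    simp only [inner_zero_right, mul_zero, sub_zero, add_zero] at h1
    exact h1.congr fun n => (hexp n).symm
  have hbl := (D.bl (fun n => u (φ n)) x R hbd hw hι).2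
  have hqΨ : Tendsto (fun n => D.q * D.Ψ (w n)) atTop
      (𝓝 ((a + b * ρ ^ 2) * (ρ ^ 2 - ‖x‖ ^ 2))) := by
    have h1 := hDΨ.sub hbl
    rw [sub_zero] at h1
    refine h1.congr fun n => ?_
    simp only [hwdef]
    ring
  have hev := D.psi_eventually b hb R₁ hA w _ ρ hsq (by linarith [sq_nonneg ‖x‖]) hρR
  have hev' : ∀ᶠ n in atTop, D.q * D.Ψ (w n) ≤ 4 * (2 * b / 9 * ρ ^ 2) * ‖w n‖ ^ 2 := by
    filter_upwards [hev] with n hn
    have h1 := D.nonneg (w n)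
    have h2 := D.hq4
    calc D.q * D.Ψ (w n) ≤ 4 * D.Ψ (w n) := by gcongr
      _ ≤ 4 * (2 * b / 9 * ρ ^ 2 * ‖w n‖ ^ 2) := by gcongr
      _ = _ := by ring
  have h2 := le_of_tendsto_of_tendsto hqΨ (hsq.const_mul (4 * (2 * b / 9 * ρ ^ 2))) hev'
  have h6 : ρ ^ 2 - ‖x‖ ^ 2 = 0 := by
    by_contra hne
    have hpos : 0 < ρ ^ 2 - ‖x‖ ^ 2 := lt_of_le_of_ne hτ0 (Ne.symm hne)
    have h7 := le_of_mul_le_mul_right h2 hpos
    have h8 : 0 < b * ρ ^ 2 := by positivity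
    nlinarith
  rw [h6] at hsq
  refine ⟨φ, hφ, x, ?_⟩
  rw [tendsto_iff_norm_sub_tendsto_zero]
  have := (Real.continuous_sqrt.tendsto 0).comp hsq
  simpa [Function.comp_def, Real.sqrt_sq, norm_nonneg] using this

/-- existence of a minimizer -/
theorem exists_min (ha : 0 ≤ a) (hb : 0 < b) (hlam : 0 ≤ lam) (R₁ : ℝ) (hA : D.Adm b R₁)
    (hdeep : ∃ u, D.e a b lam v u < - D.Kc lam v R₁) :
    ∃ x, (∀ u, D.e a b lam v x ≤ D.e a b lam v u) := by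
  have hbdd : BddBelow (range (D.e a b lam v)) := by
    obtain ⟨R, hR0, hR⟩ := D.coercive a b lam ha hb hlam ‖v‖ 0
    obtain ⟨C, hC0, hC⟩ := D.I_lower a b ha hb
    refine ⟨min 0 (-C - lam / 2 * (‖D.ι‖ ^ 2 * R ^ 2) -
      lam * (‖ContinuousLinearMap.adjoint D.ι v‖ * R)), ?_⟩
    rintro _ ⟨u, rfl⟩
    rcases le_total (D.e a b lam v u) 0 with h | h
    · have h1 := hR v le_rfl u h
      refine (min_le_right _ _).trans ?_
      refine le_trans ?_ (D.e_lower a b lam v hlam u)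
      have h2 := hC u
      have h3 : 0 ≤ b / 8 * ‖u‖ ^ 4 := by positivity
      have h5 : lam / 2 * (‖D.ι‖ ^ 2 * ‖u‖ ^ 2) ≤ lam / 2 * (‖D.ι‖ ^ 2 * R ^ 2) := by gcongr
      have h6 : lam * (‖ContinuousLinearMap.adjoint D.ι v‖ * ‖u‖) ≤
        lam * (‖ContinuousLinearMap.adjoint D.ι v‖ * R) := by gcongr
      linarith
    · exact (min_le_left _ _).trans h
  set m := sInf (range (D.e a b lam v)) with hm
  have hml : ∀ u, m ≤ D.e a b lam v u := fun u => csInf_le hbdd ⟨u, rfl⟩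
  obtain ⟨u₀, hu₀⟩ := hdeep
  have hmK : m < - D.Kc lam v R₁ := (hml u₀).trans_lt hu₀
  have hex : ∀ n : ℕ, ∃ u, D.e a b lam v u < m + 1 / ((n : ℝ) + 1) := by
    intro n
    obtain ⟨_, ⟨u, rfl⟩, hu⟩ := exists_lt_of_csInf_lt (range_nonempty _)
      (show sInf (range (D.e a b lam v)) < m + 1 / ((n : ℝ) + 1) by
        rw [← hm]
        have : (0 : ℝ) < 1 / ((n : ℝ) + 1) := by positivity
        linarith)
    exact ⟨u, hu⟩
  choose u hu using hex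
  have hlim : Tendsto (fun n => D.e a b lam v (u n)) atTop (𝓝 m) := by
    have h1 : Tendsto (fun n : ℕ => m + 1 / ((n : ℝ) + 1)) atTop (𝓝 m) := by
      have := (tendsto_one_div_add_atTop_nhds_zero_nat (𝕜 := ℝ)).const_add m
      simpa using this
    exact tendsto_of_tendsto_of_tendsto_of_le_of_le tendsto_const_nhds h1 (fun n => hml _)
      (fun n => (hu n).le)
  obtain ⟨φ, hφ, x, hx, hex⟩ := D.min_compact a b lam v ha hb hlam R₁ hA m hml hmK u hlim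
  exact ⟨x, fun w => by rw [hex]; exact hml w⟩

end KData

end Pool.Agent.Work.MP_804706_an
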