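import Mathlib
import Pool.Agent.Work.MP_804706_an.Compact

set_option autoImplicit false

open Set Metric Filter InnerProductSpace
open scoped Topology RealInnerProductSpace

namespace Pool.Agent.Work.MP_804706_an

variable {H L : Type*} [NormedAddCommGroup H] [InnerProductSpace ℝ H] [CompleteSpace H]
    [NormedAddCommGroup L] [InnerProductSpace ℝ L] [CompleteSpace L]

namespace KData

variable (D : KData H L) (a b lam : ℝ) (v : L)

/-- minimizers for converging data subconverge to a minimizer -/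
theorem min_stable (ha : 0 ≤ a) (hb : 0 < b) (hlam : 0 ≤ lam) (R₁ : ℝ) (hA : D.Adm b R₁)
    (x : H) (hx : ∀ u, D.e a b lam v x ≤ D.e a b lam v u) (hxK : D.e a b lam v x < - D.Kc lam v R₁)
    (w : ℕ → L) (hw : Tendsto w atTop (𝓝 v)) (u : ℕ → H)
    (hu : ∀ n y, D.e a b lam (w n) (u n) ≤ D.e a b lam (w n) y) :
    ∃ φ : ℕ → ℕ, StrictMono φ ∧ ∃ z, Tendsto (fun n => u (φ n)) atTop (𝓝 z) ∧
      ∀ y, D.e a b lam v z ≤ D.e a b lam v y := by
  obtain ⟨B, hB⟩ := hw.norm.bddAbove_range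
  have hB' : ∀ n, ‖w n‖ ≤ B := fun n => hB ⟨n, rfl⟩
  obtain ⟨R, hR0, hR⟩ := D.coercive a b lam ha hb hlam B 0
  have he0 : ∀ z : L, D.e a b lam z 0 ≤ 0 := by
    intro z
    simp only [e, I, norm_zero, map_zero, inner_zero_left]
    have := D.nonneg 0
    norm_num
    exact this
  have huR : ∀ n, ‖u n‖ ≤ R := fun n => hR (w n) (hB' n) (u n) ((hu n 0).trans (he0 _))
  have hdiff : ∀ (z : L) (y : H), D.e a b lam v y = D.e a b lam z y + lam * ⟪D.ι y, v - z⟫ := by
    intro z y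
    simp only [e, inner_sub_right]
    ring
  have hlim : Tendsto (fun n => D.e a b lam v (u n)) atTop (𝓝 (D.e a b lam v x)) := by
    have hup : Tendsto (fun n => D.e a b lam v x + lam * (‖D.ι x‖ * ‖v - w n‖) +
        lam * (‖D.ι‖ * R * ‖v - w n‖)) atTop (𝓝 (D.e a b lam v x)) := by
      have h1 : Tendsto (fun n => ‖v - w n‖) atTop (𝓝 0) := by
        have := (hw.const_sub v).norm
        simpa using this
      have h2 := (((h1.const_mul ‖D.ι x‖).const_mul lam).const_add (D.e a b lam v x)).add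
        ((h1.const_mul (‖D.ι‖ * R)).const_mul lam)
      simpa using h2
    refine tendsto_of_tendsto_of_tendsto_of_le_of_le tendsto_const_nhds hup (fun n => hx _)
      (fun n => ?_)
    change D.e a b lam v (u n) ≤ _
    rw [hdiff (w n) (u n)]
    have h3 := hu n x
    have h4 := hdiff (w n) x
    have h5 : -(‖D.ι x‖ * ‖v - w n‖) ≤ ⟪D.ι x, v - w n⟫ := by
      exact (abs_le.1 (abs_real_inner_le_norm _ _)).1
    have h6 : ⟪D.ι (u n), v - w n⟫ ≤ ‖D.ι‖ * R * ‖v - w n‖ := by
      refine (real_inner_le_norm _ _).trans ?_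
      gcongr
      refine (D.ι.le_opNorm _).trans ?_
      gcongr
      exact huR n
    nlinarith
  obtain ⟨φ, hφ, z, hz, hez⟩ := D.min_compact a b lam v ha hb hlam R₁ hA _ hx hxK u hlim
  exact ⟨φ, hφ, z, hz, fun y => by rw [hez]; exact hx y⟩

/-- two distinct global minimizers for some datum in a dense convex set -/
theorem two_min (ha : 0 ≤ a) (hb : 0 < b) (hlam : 0 < lam) (R₁ : ℝ) (hA : D.Adm b R₁)
    (hdeep : ∀ v, ∃ u, D.e a b lam v u < - D.Kc lam v R₁)
    (J : ℝ) (hJ : ∀ u, -J ≤ D.I a b u) (u₀ : H)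
    (hu₀ : D.I a b u₀ - lam / 2 * ‖D.ι u₀‖ ^ 2 < - J - 1)
    (C : Set L) (hC : Convex ℝ C) (hCd : range D.ι ⊆ closure C) :
    ∃ v ∈ C, ∃ u₁ u₂ : H, u₁ ≠ u₂ ∧ (∀ y, D.e a b lam v u₁ ≤ D.e a b lam v y) ∧
      (∀ y, D.e a b lam v u₂ ≤ D.e a b lam v y) := by
  by_contra hcon
  push Not at hcon
  have hex : ∀ v : L, ∃ x, ∀ u, D.e a b lam v x ≤ D.e a b lam v u :=
    fun v => D.exists_min a b lam v ha hb hlam.le R₁ hA (hdeep v)
  choose x hx using hex
  have huniq : ∀ v ∈ C, ∀ z, (∀ y, D.e a b lam v z ≤ D.e a b lam v y) → z = x v := by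
    intro v hv z hz
    by_contra hne
    obtain ⟨y, hy⟩ := hcon v hv z (x v) hne hz
    exact absurd (hx v y) (not_le.2 hy)
  have hxE : ∀ v y, D.E a b lam v (x v) ≤ D.E a b lam v y := by
    intro v y
    rw [D.E_eq, D.E_eq]
    linarith [hx v y]
  have hEcont : ∀ y : H, Continuous (fun v : L => D.E a b lam v y) := by
    intro y
    unfold E
    fun_prop
  -- a base point
  have hCne : C.Nonempty := by
    have h0 : (0 : L) ∈ closure C := hCd ⟨0, map_zero _⟩
    exact closure_nonempty_iff.1 ⟨0, h0⟩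
  obtain ⟨v₀, hv₀⟩ := hCne
  obtain ⟨R₂, hR₂0, hR₂⟩ := D.coercive a b lam ha hb hlam.le ‖v₀‖ (- J - 1 + lam / 2 * ‖v₀‖ ^ 2)
  -- the key property for finite subsets
  have key : ∀ F : Set L, F.Finite → F ⊆ C → v₀ ∈ F → ∃ z : H,
      (∀ v ∈ F, 2 / lam < ‖D.ι z - v‖ ^ 2) ∧ ‖z‖ ≤ R₂ := by
    intro F hF hFC hv₀F
    set P := convexHull ℝ F with hP
    have hPc : IsCompact P := hF.isCompact_convexHull ℝ
    have hPC : P ⊆ C := convexHull_min hFC hC
    have hPconv : Convex ℝ P := convex_convexHull ℝ F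
    have hFP : F ⊆ P := subset_convexHull ℝ F
    have husc : UpperSemicontinuousOn (fun v => D.E a b lam v (x v)) P := by
      intro v hv y hy
      have h1 : ∀ᶠ w in 𝓝[P] v, D.E a b lam w (x v) < y :=
        ((hEcont (x v)).tendsto v).mono_left nhdsWithin_le_nhds |>.eventually_lt_const hy
      filter_upwards [h1] with w hw
      exact (hxE w (x v)).trans_lt hw
    obtain ⟨vb, hvb, hmax⟩ := husc.exists_isMaxOn ⟨v₀, hFP hv₀F⟩ hPc
    set ub := x vb with hub
    -- first order condition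
    have hfoc : ∀ v ∈ P, ⟪D.ι ub - vb, v - vb⟫ ≤ 0 := by
      intro v hv
      set t : ℕ → ℝ := fun n => 1 / ((n : ℝ) + 1) with ht
      have ht0 : ∀ n, 0 < t n := fun n => by simp only [ht]; positivity
      have ht1 : ∀ n, t n ≤ 1 := fun n => by
        simp only [ht]
        rw [div_le_one (by positivity)]
        linarith [(Nat.cast_nonneg n : (0 : ℝ) ≤ n)]
      have htlim : Tendsto t atTop (𝓝 0) := tendsto_one_div_add_atTop_nhds_zero_nat
      set w : ℕ → L := fun n => vb + t n • (v - vb) with hw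
      have hwP : ∀ n, w n ∈ P := by
        intro n
        have := hPconv hvb hv (sub_nonneg.2 (ht1 n)) (ht0 n).le (by ring)
        convert! this using 1
        simp only [hw, smul_sub, sub_smul, one_smul]
        abel
      have hwlim : Tendsto w atTop (𝓝 vb) := by
        have := (htlim.smul_const (v - vb)).const_add vb
        simpa using this
      obtain ⟨y, hy⟩ := hdeep vb
      obtain ⟨φ, hφ, z, hz, hzmin⟩ := D.min_stable a b lam vb ha hb hlam.le R₁ hA ub (hx vb)
        ((hx vb y).trans_lt hy) w hwlim (fun n => x (w n)) (fun n => hx (w n))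
      have hzu : z = ub := huniq vb (hPC hvb) z hzmin
      have hineq : ∀ n, 2 * ⟪D.ι (x (w n)) - vb, v - vb⟫ ≤ t n * ‖v - vb‖ ^ 2 := by
        intro n
        have h1 : D.E a b lam (w n) (x (w n)) ≤ D.E a b lam vb ub := hmax (hwP n)
        have h2 : D.E a b lam vb ub ≤ D.E a b lam vb (x (w n)) := hxE vb _
        have h3 := h1.trans h2
        simp only [E] at h3
        have h4 : ‖D.ι (x (w n)) - vb‖ ^ 2 ≤ ‖D.ι (x (w n)) - w n‖ ^ 2 := by
          have : lam / 2 * ‖D.ι (x (w n)) - vb‖ ^ 2 ≤ lam / 2 * ‖D.ι (x (w n)) - w n‖ ^ 2 := by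
            linarith
          exact le_of_mul_le_mul_left this (by positivity)
        have h5 : D.ι (x (w n)) - w n = (D.ι (x (w n)) - vb) - t n • (v - vb) := by
          simp only [hw]; abel
        rw [h5, norm_sub_sq_real (D.ι (x (w n)) - vb) (t n • (v - vb)), inner_smul_right,
          norm_smul, Real.norm_eq_abs, abs_of_pos (ht0 n)] at h4
        have h6 : t n * (2 * ⟪D.ι (x (w n)) - vb, v - vb⟫) ≤ t n * (t n * ‖v - vb‖ ^ 2) := by
          nlinarith
        exact le_of_mul_le_mul_left h6 (ht0 n)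
      have hl1 : Tendsto (fun n => 2 * ⟪D.ι (x (w (φ n))) - vb, v - vb⟫) atTop
          (𝓝 (2 * ⟪D.ι ub - vb, v - vb⟫)) := by
        rw [hzu] at hz
        have h7 : Tendsto (fun n => D.ι (x (w (φ n)))) atTop (𝓝 (D.ι ub)) :=
          (D.ι.continuous.tendsto ub).comp hz
        exact ((h7.sub_const vb).inner tendsto_const_nhds).const_mul 2
      have hl2 : Tendsto (fun n => t (φ n) * ‖v - vb‖ ^ 2) atTop (𝓝 0) := by
        have := (htlim.comp hφ.tendsto_atTop).mul_const (‖v - vb‖ ^ 2)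
        simpa using this
      have := le_of_tendsto_of_tendsto' hl1 hl2 (fun n => hineq (φ n))
      linarith
    have hfar : ∀ v ∈ P, ‖D.ι ub - vb‖ ^ 2 ≤ ‖D.ι ub - v‖ ^ 2 := by
      intro v hv
      have h1 := hfoc v hv
      have h2 : D.ι ub - v = (D.ι ub - vb) - (v - vb) := by abel
      rw [h2, norm_sub_sq_real (D.ι ub - vb) (v - vb)]
      nlinarith [sq_nonneg ‖v - vb‖]
    have hlow : D.E a b lam vb ub < - J - 1 := by
      have h1 := hxE vb u₀
      have h2 := hxE vb (-u₀)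
      have h3 : D.I a b (-u₀) = D.I a b u₀ := by
        simp only [I, norm_neg, D.even]
      simp only [E] at h1 h2 ⊢
      rw [h3, map_neg] at h2
      have h4 : ‖-D.ι u₀ - vb‖ ^ 2 = ‖D.ι u₀‖ ^ 2 + 2 * ⟪D.ι u₀, vb⟫ + ‖vb‖ ^ 2 := by
        rw [show -D.ι u₀ - vb = -(D.ι u₀ + vb) by abel, norm_neg, norm_add_sq_real]
      rw [h4] at h2
      rw [norm_sub_sq_real (D.ι u₀) vb] at h1
      have h5 : 0 ≤ lam / 2 * ‖vb‖ ^ 2 := by positivity
      linarith
    have hgap : 2 / lam < ‖D.ι ub - vb‖ ^ 2 := by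
      simp only [E] at hlow
      have h1 := hJ ub
      rw [div_lt_iff₀ hlam]
      nlinarith
    refine ⟨ub, fun v hv => hgap.trans_le (hfar v (hFP hv)), ?_⟩
    apply hR₂ v₀ le_rfl
    have h1 := hfar v₀ (hFP hv₀F)
    have h2 : D.E a b lam v₀ ub ≤ D.E a b lam vb ub := by
      simp only [E]
      have : lam / 2 * ‖D.ι ub - vb‖ ^ 2 ≤ lam / 2 * ‖D.ι ub - v₀‖ ^ 2 := by gcongr
      linarith
    rw [D.E_eq a b lam v₀ ub] at h2
    linarith
  -- total boundedness
  have hK : IsCompact (closure (D.ι '' closedBall 0 R₂)) :=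
    IsCompactOperator.isCompact_closure_image_closedBall (f := (D.ι : H →ₗ[ℝ] L)) D.cpt R₂
  have htb : TotallyBounded (D.ι '' closedBall 0 R₂) := hK.totallyBounded.subset subset_closure
  set ε := Real.sqrt (2 / lam) / 2 with hε
  have hε0 : 0 < ε := by
    have : 0 < Real.sqrt (2 / lam) := Real.sqrt_pos.2 (by positivity)
    positivity
  obtain ⟨t, htsub, htf, htcov⟩ := finite_approx_of_totallyBounded htb ε hε0
  have happ : ∀ y ∈ t, ∃ c ∈ C, dist y c < ε := by
    intro y hy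
    obtain ⟨z, -, rfl⟩ := htsub hy
    exact Metric.mem_closure_iff.1 (hCd ⟨z, rfl⟩) ε hε0
  choose! f hf1 hf2 using happ
  obtain ⟨z, hz1, hz2⟩ := key (insert v₀ (f '' t)) ((htf.image f).insert _)
    (by
      intro y hy
      rcases hy with rfl | ⟨y', hy', rfl⟩
      · exact hv₀
      · exact hf1 y' hy') (mem_insert _ _)
  have hzm : D.ι z ∈ D.ι '' closedBall 0 R₂ := ⟨z, by simpa using hz2, rfl⟩
  obtain ⟨y, hy, hzy⟩ := mem_iUnion₂.1 (htcov hzm)
  have h1 := hz1 (f y) (mem_insert_of_mem _ ⟨y, hy, rfl⟩)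
  have h2 : ‖D.ι z - f y‖ < 2 * ε := by
    rw [← dist_eq_norm]
    have := dist_triangle (D.ι z) y (f y)
    have h3 := hf2 y hy
    rw [mem_ball] at hzy
    linarith
  have h3 : ‖D.ι z - f y‖ ^ 2 < 2 / lam := by
    have h4 : (2 * ε) ^ 2 = 2 / lam := by
      rw [hε, mul_div_cancel₀ _ (two_ne_zero), Real.sq_sqrt (by positivity)]
    rw [← h4]
    gcongr
  exact absurd h1 (not_lt.2 h3.le)

end KData

end Pool.Agent.Work.MP_804706_an
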