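import Mathlib
import Pool.Agent.Work.MP_804706_an.TwoMin

set_option autoImplicit false

open Set Metric Filter InnerProductSpace
open scoped Topology RealInnerProductSpace

namespace Pool.Agent.Work.MP_804706_an

variable {H L : Type*} [NormedAddCommGroup H] [InnerProductSpace ℝ H] [CompleteSpace H]
    [NormedAddCommGroup L] [InnerProductSpace ℝ L] [CompleteSpace L]

namespace KData

variable (D : KData H L) (a b lam : ℝ) (v : L)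

theorem exists_mu (V : Submodule ℝ H) [FiniteDimensional ℝ V] :
    ∃ μ : ℝ, 0 < μ ∧ ∀ ψ ∈ V, μ * ‖ψ‖ ^ 2 ≤ ‖D.ι ψ‖ ^ 2 := by
  set f : V →ₗ[ℝ] L := (D.ι : H →ₗ[ℝ] L) ∘ₗ V.subtype with hf
  have hker : LinearMap.ker f = ⊥ := by
    rw [LinearMap.ker_eq_bot]
    exact D.inj.comp Subtype.val_injective
  obtain ⟨K, hK, hK'⟩ := f.exists_antilipschitzWith hker
  have hK0 : (0 : ℝ) < K := hK
  refine ⟨1 / (K : ℝ) ^ 2, by positivity, fun ψ hψ => ?_⟩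
  have h1 := hK'.le_mul_dist ⟨ψ, hψ⟩ 0
  rw [dist_zero_right, map_zero, dist_zero_right] at h1
  have h2 : ‖ψ‖ ≤ K * ‖D.ι ψ‖ := h1
  have h3 : ‖ψ‖ ^ 2 ≤ (K * ‖D.ι ψ‖) ^ 2 := by gcongr
  rw [div_mul_eq_mul_div, one_mul, div_le_iff₀ (by positivity)]
  calc ‖ψ‖ ^ 2 ≤ (K * ‖D.ι ψ‖) ^ 2 := h3
    _ = ‖D.ι ψ‖ ^ 2 * K ^ 2 := by ring

/-- test with an element of the finite dimensional subspace -/
theorem test_psi (hb : 0 < b) (hlam : 0 < lam) (μ : ℝ) (hμ : 0 < μ)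
    (hlamμ : 4 * a ≤ lam * μ) (ψ : H) (hψ1 : ‖ψ‖ = 1) (hψμ : μ ≤ ‖D.ι ψ‖ ^ 2)
    (hψv : ⟪D.ι ψ, v⟫ ≤ 0) :
    a / 2 * (lam * μ / (2 * b)) + b / 4 * (lam * μ / (2 * b)) ^ 2 -
      lam / 2 * ((lam * μ / (2 * b)) * ‖D.ι ψ‖ ^ 2) ≤ - (lam ^ 2 * μ ^ 2 / (8 * b)) ∧
    D.e a b lam v (Real.sqrt (lam * μ / (2 * b)) • ψ) ≤ - (lam ^ 2 * μ ^ 2 / (8 * b)) := by
  set t := lam * μ / (2 * b) with ht
  have ht0 : 0 < t := by positivity
  have hbt : b * t = lam * μ / 2 := by rw [ht]; field_simp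
  have h1 : a / 2 * t + b / 4 * t ^ 2 - lam / 2 * (t * ‖D.ι ψ‖ ^ 2) ≤
      - (lam ^ 2 * μ ^ 2 / (8 * b)) := by
    have h2 : lam ^ 2 * μ ^ 2 / (8 * b) = t * (lam * μ) / 4 := by rw [ht]; field_simp; ring
    have h3 : lam / 2 * (t * μ) ≤ lam / 2 * (t * ‖D.ι ψ‖ ^ 2) := by gcongr
    have h4 : b / 4 * t ^ 2 = t * (lam * μ) / 8 := by
      have : b / 4 * t ^ 2 = (b * t) * t / 4 := by ring
      rw [this, hbt]; ring
    have h5 : a / 2 * t ≤ t * (lam * μ) / 8 := by nlinarith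
    rw [h2, h4]
    nlinarith
  refine ⟨h1, ?_⟩
  have hs : Real.sqrt t ^ 2 = t := Real.sq_sqrt ht0.le
  have hs0 : 0 ≤ Real.sqrt t := Real.sqrt_nonneg t
  have h6 : ‖Real.sqrt t • ψ‖ = Real.sqrt t := by
    rw [norm_smul, hψ1, mul_one, Real.norm_eq_abs, abs_of_nonneg hs0]
  have h7 : ‖D.ι (Real.sqrt t • ψ)‖ ^ 2 = t * ‖D.ι ψ‖ ^ 2 := by
    rw [map_smul, norm_smul, mul_pow, Real.norm_eq_abs, sq_abs, hs]
  have h8 : ⟪D.ι (Real.sqrt t • ψ), v⟫ ≤ 0 := by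
    rw [map_smul, real_inner_smul_left]
    exact mul_nonpos_of_nonneg_of_nonpos hs0 hψv
  have h9 := D.nonneg (Real.sqrt t • ψ)
  unfold e I
  rw [h6, h7, show Real.sqrt t ^ 4 = (Real.sqrt t ^ 2) ^ 2 by ring, hs]
  have h10 : lam * ⟪D.ι (Real.sqrt t • ψ), v⟫ ≤ 0 := mul_nonpos_of_nonneg_of_nonpos hlam.le h8
  linarith

/-- test with a multiple of the adjoint image of the datum -/
theorem test_adj (ha : 0 ≤ a) (hb : 0 < b) (hlam : 0 < lam) (r : ℝ) (hr : 0 ≤ r) :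
    ∃ w : H, D.e a b lam v w ≤ a / 2 * r ^ 2 + b / 4 * r ^ 4 -
      lam * (r * ‖ContinuousLinearMap.adjoint D.ι v‖) := by
  set M := ‖ContinuousLinearMap.adjoint D.ι v‖ with hM
  rcases eq_or_ne M 0 with h0 | h0
  · refine ⟨0, ?_⟩
    rw [h0]
    have h1 := D.nonneg 0
    simp only [e, I, norm_zero, map_zero, inner_zero_left, mul_zero, sub_zero]
    have : 0 ≤ a / 2 * r ^ 2 + b / 4 * r ^ 4 := by positivity
    norm_num
    linarith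
  · have hM0 : 0 < M := lt_of_le_of_ne (norm_nonneg _) (Ne.symm h0)
    refine ⟨(-(r / M)) • ContinuousLinearMap.adjoint D.ι v, ?_⟩
    set w := (-(r / M)) • ContinuousLinearMap.adjoint D.ι v with hw
    have h1 : ‖w‖ = r := by
      rw [hw, norm_smul, Real.norm_eq_abs, abs_neg, abs_of_nonneg (by positivity), ← hM]
      field_simp
    have h2 : ⟪D.ι w, v⟫ = -(r * M) := by
      rw [← ContinuousLinearMap.adjoint_inner_right, hw, real_inner_smul_left,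
        real_inner_self_eq_norm_sq, ← hM]
      field_simp
    have h3 := D.nonneg w
    unfold e I
    rw [h1, h2]
    have h4 : 0 ≤ lam / 2 * ‖D.ι w‖ ^ 2 := by positivity
    linarith

/-- the deep level, for large `lam` and all data -/
theorem deep (ha : 0 ≤ a) (hb : 0 < b) (R₁ : ℝ) (hA : D.Adm b R₁) (ψ : H) (hψ : ψ ≠ 0) :
    ∃ lam₁ : ℝ, 1 ≤ lam₁ ∧ ∀ lam, lam₁ ≤ lam → ∀ v : L, ∃ u, D.e a b lam v u < - D.Kc lam v R₁ := by
  have hR₁ : 0 < R₁ := by linarith [hA.1]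
  -- normalise ψ
  set ψ₁ : H := (‖ψ‖⁻¹) • ψ with hψ₁
  have hψ₁n : ‖ψ₁‖ = 1 := by
    rw [hψ₁, norm_smul, norm_inv, norm_norm]
    exact inv_mul_cancel₀ (norm_ne_zero_iff.2 hψ)
  set μ := ‖D.ι ψ₁‖ ^ 2 with hμ
  have hμ0 : 0 < μ := by
    have : D.ι ψ₁ ≠ 0 := by
      intro h
      have h1 : ψ₁ = 0 := D.inj (by rw [h, map_zero])
      rw [h1, norm_zero] at hψ₁n
      exact zero_ne_one hψ₁n
    have : 0 < ‖D.ι ψ₁‖ := norm_pos_iff.2 this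
    positivity
  set C₃ := a / 2 * (2 * R₁) ^ 2 + b / 4 * (2 * R₁) ^ 4 + D.θ R₁ * R₁ ^ 2 with hC₃
  have hC₃0 : 0 ≤ C₃ := by
    have := D.θ_nonneg R₁
    positivity
  set A := C₃ + D.θ R₁ * R₁ ^ 2 + 1 with hAdef
  have hA0 : 0 ≤ A := by
    have := D.θ_nonneg R₁
    positivity
  set B := ‖D.ι‖ ^ 2 * R₁ ^ 2 with hBdef
  have hB0 : 0 ≤ B := by positivity
  refine ⟨max 1 (max (4 * a / μ) ((A + B) * (8 * b) / μ ^ 2)), le_max_left _ _, ?_⟩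
  intro lam hlam v
  have hl1 : 1 ≤ lam := (le_max_left _ _).trans hlam
  have hl2 : 4 * a / μ ≤ lam := ((le_max_left _ _).trans (le_max_right _ _)).trans hlam
  have hl3 : (A + B) * (8 * b) / μ ^ 2 ≤ lam :=
    ((le_max_right _ _).trans (le_max_right _ _)).trans hlam
  have hlam0 : 0 < lam := by linarith
  have hl2' : 4 * a ≤ lam * μ := by rwa [div_le_iff₀ hμ0] at hl2
  have hl3' : A + B ≤ lam * μ ^ 2 / (8 * b) := by
    rw [div_le_iff₀ (by positivity)] at hl3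
    rw [le_div_iff₀ (by positivity)]
    exact hl3
  set M := ‖ContinuousLinearMap.adjoint D.ι v‖ with hM
  have hM0 : 0 ≤ M := norm_nonneg _
  by_cases hcase : C₃ + lam / 2 * B < lam * (M * R₁)
  · obtain ⟨w, hw⟩ := D.test_adj a b lam v ha hb hlam0 (2 * R₁) (by positivity)
    refine ⟨w, lt_of_le_of_lt hw ?_⟩
    unfold Kc
    rw [← hM, ← hBdef]
    nlinarith
  · push Not at hcase
    -- choose the sign
    obtain ⟨χ, hχn, hχμ, hχv⟩ : ∃ χ : H, ‖χ‖ = 1 ∧ μ ≤ ‖D.ι χ‖ ^ 2 ∧ ⟪D.ι χ, v⟫ ≤ 0 := by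
      rcases le_total ⟪D.ι ψ₁, v⟫ 0 with h | h
      · exact ⟨ψ₁, hψ₁n, le_rfl, h⟩
      · refine ⟨-ψ₁, by rw [norm_neg, hψ₁n], by rw [map_neg, norm_neg], ?_⟩
        rw [map_neg, inner_neg_left]; linarith
    refine ⟨_, lt_of_le_of_lt (D.test_psi a b lam v hb hlam0 μ hμ0 hl2' χ hχn hχμ hχv).2 ?_⟩
    unfold Kc
    rw [← hM, ← hBdef]
    have h1 : lam ^ 2 * μ ^ 2 / (8 * b) = lam * (lam * μ ^ 2 / (8 * b)) := by ring
    have h2 : lam * (A + B) ≤ lam * (lam * μ ^ 2 / (8 * b)) := by gcongr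
    have h3 : A ≤ lam * A := le_mul_of_one_le_left hA0 hl1
    rw [h1]
    nlinarith

end KData

end Pool.Agent.Work.MP_804706_an
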