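import Mathlib
import Pool.Agent.Work.MP_804706_an.Deep

set_option autoImplicit false

open Set Metric Filter InnerProductSpace
open scoped Topology RealInnerProductSpace

namespace Pool.Agent.Work.MP_804706_an

variable {H L : Type*} [NormedAddCommGroup H] [InnerProductSpace ℝ H] [CompleteSpace H]
    [NormedAddCommGroup L] [InnerProductSpace ℝ L] [CompleteSpace L]

namespace KData

variable (D : KData H L) (a b lam : ℝ) (v : L)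

theorem G_eq_zero_of_min (u : H) (hu : ∀ y, D.e a b lam v u ≤ D.e a b lam v y) :
    D.G a b lam v u = 0 := by
  have h1 := (D.hasGradientAt_e a b lam v u).hasFDerivAt
  have h2 : IsLocalMin (D.e a b lam v) u := Filter.Eventually.of_forall hu
  have h3 := h2.hasFDerivAt_eq_zero h1
  exact (map_eq_zero_iff _ (toDual ℝ H).injective).1 h3

/-- a priori bound for two distinct critical points -/
theorem bound_two (ha : 0 ≤ a) (hb : 0 < b) : ∃ C₄ : ℝ, 0 < C₄ ∧ ∀ lam, 1 ≤ lam → ∀ (v : L)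
    (u₁ u₂ : H), u₁ ≠ u₂ → D.G a b lam v u₁ = 0 → D.G a b lam v u₂ = 0 →
    ‖u₁‖ ^ 2 + ‖u₂‖ ^ 2 ≤ C₄ * lam := by
  obtain ⟨C, hC0, hC⟩ := D.theta_le (b / 8) (by positivity)
  refine ⟨4 * (C + ‖D.ι‖ ^ 2 + 1) / b, by positivity, ?_⟩
  intro lam hlam v u₁ u₂ hne h1 h2
  set d := u₁ - u₂ with hd
  have hd0 : 0 < ‖d‖ := norm_pos_iff.2 (sub_ne_zero.2 hne)
  have h3 : ⟪D.G a b lam v u₁ - D.G a b lam v u₂, d⟫ = 0 := by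
    rw [h1, h2, sub_zero, inner_zero_left]
  have h4 : D.G a b lam v u₁ - D.G a b lam v u₂ =
      ((a + b * ‖u₁‖ ^ 2) • u₁ - (a + b * ‖u₂‖ ^ 2) • u₂) - (D.DΨ u₁ - D.DΨ u₂)
        - lam • ContinuousLinearMap.adjoint D.ι (D.ι d) := by
    simp only [G, hd, map_sub, smul_sub]
    abel
  have h5 : ⟪(a + b * ‖u₁‖ ^ 2) • u₁ - (a + b * ‖u₂‖ ^ 2) • u₂, d⟫ =
      a * ‖d‖ ^ 2 + b / 2 * (‖u₁‖ ^ 2 + ‖u₂‖ ^ 2) * ‖d‖ ^ 2 +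
        b / 2 * (‖u₁‖ ^ 2 - ‖u₂‖ ^ 2) ^ 2 := by
    rw [hd, norm_sub_sq_real, inner_sub_left, inner_sub_right, inner_sub_right,
      real_inner_smul_left, real_inner_smul_left, real_inner_smul_left, real_inner_smul_left,
      real_inner_self_eq_norm_sq, real_inner_self_eq_norm_sq, real_inner_comm u₁ u₂]
    ring
  have h6 : ⟪D.DΨ u₁ - D.DΨ u₂, d⟫ ≤ D.θ (‖u₁‖ + ‖u₂‖) * ‖d‖ ^ 2 := by
    refine (real_inner_le_norm _ _).trans ?_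
    rw [pow_two, ← mul_assoc]
    gcongr
    exact D.lip _ _
  have h7 : ⟪lam • ContinuousLinearMap.adjoint D.ι (D.ι d), d⟫ ≤ lam * (‖D.ι‖ ^ 2 * ‖d‖ ^ 2) := by
    rw [real_inner_smul_left, ContinuousLinearMap.adjoint_inner_left, real_inner_self_eq_norm_sq,
      ← mul_pow]
    gcongr
    exact D.ι.le_opNorm d
  rw [h4, inner_sub_left, inner_sub_left, h5] at h3
  have h8 : b / 2 * (‖u₁‖ ^ 2 + ‖u₂‖ ^ 2) * ‖d‖ ^ 2 ≤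
      (D.θ (‖u₁‖ + ‖u₂‖) + lam * ‖D.ι‖ ^ 2) * ‖d‖ ^ 2 := by
    have h9 : 0 ≤ a * ‖d‖ ^ 2 := by positivity
    have h10 : 0 ≤ b / 2 * (‖u₁‖ ^ 2 - ‖u₂‖ ^ 2) ^ 2 := by positivity
    nlinarith
  have h11 := le_of_mul_le_mul_right h8 (by positivity : (0 : ℝ) < ‖d‖ ^ 2)
  have h12 := hC (‖u₁‖ + ‖u₂‖) (by positivity)
  have h13 : (‖u₁‖ + ‖u₂‖) ^ 2 ≤ 2 * (‖u₁‖ ^ 2 + ‖u₂‖ ^ 2) := by
    nlinarith [sq_nonneg (‖u₁‖ - ‖u₂‖)]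
  have h14 : b / 4 * (‖u₁‖ ^ 2 + ‖u₂‖ ^ 2) ≤ C + lam * ‖D.ι‖ ^ 2 := by nlinarith
  have h15 : C + lam * ‖D.ι‖ ^ 2 ≤ (C + ‖D.ι‖ ^ 2 + 1) * lam := by nlinarith
  rw [div_mul_eq_mul_div, le_div_iff₀ hb]
  nlinarith

/-- bound for the dual norm of the datum -/
theorem bound_datum (ha : 0 ≤ a) (hb : 0 < b) (C₄ : ℝ) (hC₄ : 0 < C₄) : ∃ C₆ : ℝ, 0 < C₆ ∧
    ∀ lam, 1 ≤ lam → ∀ (v : L) (u₁ : H), (∀ y, D.e a b lam v u₁ ≤ D.e a b lam v y) →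
      ‖u₁‖ ^ 2 ≤ C₄ * lam → ‖ContinuousLinearMap.adjoint D.ι v‖ ^ 2 ≤ C₆ * lam := by
  obtain ⟨C, hC0, hC⟩ := D.theta_le 1 one_pos
  set K := 2 * a * C₄ + 4 * b * C₄ ^ 2 + C₄ ^ 2 + C * C₄ + 1 / 2 * ‖D.ι‖ ^ 2 * C₄ with hK
  have hK0 : 0 < K := by positivity
  refine ⟨K ^ 2 / C₄, by positivity, ?_⟩
  intro lam hlam v u₁ hu₁ hu₁n
  have hlam0 : 0 < lam := by linarith
  set M := ‖ContinuousLinearMap.adjoint D.ι v‖ with hM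
  have hM0 : 0 ≤ M := norm_nonneg _
  set ρ := Real.sqrt (C₄ * lam) with hρ
  have hρ0 : 0 < ρ := Real.sqrt_pos.2 (by positivity)
  have hρ2 : ρ ^ 2 = C₄ * lam := Real.sq_sqrt (by positivity)
  have hu₁ρ : ‖u₁‖ ≤ ρ := by
    rw [hρ]
    exact Real.le_sqrt_of_sq_le hu₁n
  obtain ⟨w, hw⟩ := D.test_adj a b lam v ha hb hlam0 (2 * ρ) (by positivity)
  have h1 := (hu₁ w).trans hw
  have h2 := D.e_lower a b lam v hlam0.le u₁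
  have h3 : - (D.θ ρ * ρ ^ 2) ≤ D.I a b u₁ := by
    unfold I
    have h4 := D.bound u₁
    have h5 : D.θ ‖u₁‖ * ‖u₁‖ ^ 2 ≤ D.θ ρ * ρ ^ 2 := by
      have := D.θ_nonneg ρ
      gcongr
      exact D.θ_mono _ _ (norm_nonneg _) hu₁ρ
    have h6 : 0 ≤ a / 2 * ‖u₁‖ ^ 2 + b / 4 * ‖u₁‖ ^ 4 := by positivity
    linarith
  have h7 : lam / 2 * (‖D.ι‖ ^ 2 * ‖u₁‖ ^ 2) ≤ lam / 2 * (‖D.ι‖ ^ 2 * ρ ^ 2) := by gcongr
  have h8 : lam * (M * ‖u₁‖) ≤ lam * (M * ρ) := by gcongr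
  have h9 : D.θ ρ ≤ 1 * ρ ^ 2 + C := hC ρ hρ0.le
  have h10 : D.θ ρ * ρ ^ 2 ≤ (1 * ρ ^ 2 + C) * ρ ^ 2 := by gcongr
  have h11 : lam * (M * ρ) ≤ 2 * a * ρ ^ 2 + 4 * b * (ρ ^ 2) ^ 2 + (ρ ^ 2 + C) * ρ ^ 2 +
      lam / 2 * (‖D.ι‖ ^ 2 * ρ ^ 2) := by
    rw [← hM] at h1 h2
    nlinarith
  rw [hρ2] at h11
  have h12 : lam * (M * ρ) ≤ lam * (K * lam) := by
    refine h11.trans ?_
    have hll : lam ≤ lam ^ 2 := by nlinarith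
    have e1 : 2 * a * C₄ * lam ≤ 2 * a * C₄ * lam ^ 2 :=
      mul_le_mul_of_nonneg_left hll (by positivity)
    have e2 : C * C₄ * lam ≤ C * C₄ * lam ^ 2 :=
      mul_le_mul_of_nonneg_left hll (by positivity)
    have e3 : lam * (K * lam) = 2 * a * C₄ * lam ^ 2 + 4 * b * (C₄ * lam) ^ 2 +
        (C₄ * lam) * (C₄ * lam) + C * C₄ * lam ^ 2 + lam / 2 * (‖D.ι‖ ^ 2 * (C₄ * lam)) := by
      rw [hK]; ring
    rw [e3]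
    linarith
  have h13 : M * ρ ≤ K * lam := le_of_mul_le_mul_left h12 hlam0
  have h14 : (M * ρ) ^ 2 ≤ (K * lam) ^ 2 := by gcongr
  rw [mul_pow, hρ2] at h14
  have h15 : M ^ 2 * C₄ * lam ≤ K ^ 2 * lam * lam := by
    calc M ^ 2 * C₄ * lam = M ^ 2 * (C₄ * lam) := by ring
      _ ≤ (K * lam) ^ 2 := h14
      _ = K ^ 2 * lam * lam := by ring
  have h16 := le_of_mul_le_mul_right h15 hlam0
  rw [div_mul_eq_mul_div, le_div_iff₀ hC₄]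
  exact h16

/-- the critical level is small compared with `lam ^ 2` -/
theorem Kc_small (C₆ R₁ η : ℝ) (hC₆ : 0 < C₆) (hR₁ : 0 < R₁) (hη : 0 < η) :
    ∃ lam₂ : ℝ, 1 ≤ lam₂ ∧ ∀ lam, lam₂ ≤ lam → ∀ v : L,
      ‖ContinuousLinearMap.adjoint D.ι v‖ ^ 2 ≤ C₆ * lam → D.Kc lam v R₁ < η * lam ^ 2 := by
  set K := D.θ R₁ * R₁ ^ 2 + 1 / 2 * (‖D.ι‖ ^ 2 * R₁ ^ 2) + C₆ * R₁ ^ 2 / (2 * η) + 1 with hK
  have hK0 : 0 < K := by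
    have := D.θ_nonneg R₁
    positivity
  refine ⟨max 1 (2 * K / η), le_max_left _ _, ?_⟩
  intro lam hlam v hv
  have hl1 : 1 ≤ lam := (le_max_left _ _).trans hlam
  have hl2 : 2 * K / η ≤ lam := (le_max_right _ _).trans hlam
  have hlam0 : 0 < lam := by linarith
  set M := ‖ContinuousLinearMap.adjoint D.ι v‖ with hM
  have hM0 : 0 ≤ M := norm_nonneg _
  have h1 : M * R₁ ≤ η / 2 * lam + C₆ * R₁ ^ 2 / (2 * η) := by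
    have h2 : (M * R₁) ^ 2 ≤ C₆ * R₁ ^ 2 * lam := by
      rw [mul_pow]
      calc M ^ 2 * R₁ ^ 2 ≤ (C₆ * lam) * R₁ ^ 2 := by gcongr
        _ = _ := by ring
    have h3 : (η / 2 * lam + C₆ * R₁ ^ 2 / (2 * η)) ^ 2 ≥ C₆ * R₁ ^ 2 * lam := by
      have h4 : (η / 2 * lam + C₆ * R₁ ^ 2 / (2 * η)) ^ 2 =
          (η / 2 * lam - C₆ * R₁ ^ 2 / (2 * η)) ^ 2 + C₆ * R₁ ^ 2 * lam := by
        field_simp
        ring
      rw [h4]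
      nlinarith [sq_nonneg (η / 2 * lam - C₆ * R₁ ^ 2 / (2 * η))]
    exact (pow_le_pow_iff_left₀ (by positivity) (by positivity) two_ne_zero).1 (h2.trans h3)
  unfold Kc
  rw [← hM]
  have h5 : lam * (M * R₁) ≤ lam * (η / 2 * lam + C₆ * R₁ ^ 2 / (2 * η)) := by gcongr
  have h6 : D.θ R₁ * R₁ ^ 2 ≤ lam * (D.θ R₁ * R₁ ^ 2) := by
    have := D.θ_nonneg R₁
    exact le_mul_of_one_le_left (by positivity) hl1
  have h7 : 2 * K ≤ η * lam := by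
    rw [div_le_iff₀ hη] at hl2
    linarith
  have h8 : lam * (2 * K) ≤ lam * (η * lam) := by gcongr
  have h9 : D.θ R₁ * R₁ ^ 2 + lam / 2 * (‖D.ι‖ ^ 2 * R₁ ^ 2) + lam * (M * R₁) ≤
      lam * (K - 1) + η / 2 * lam ^ 2 := by
    rw [hK]
    nlinarith
  nlinarith

end KData

end Pool.Agent.Work.MP_804706_an
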