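import Mathlib
import Pool.Agent.Work.MP_804706_an.Third

set_option autoImplicit false

open Set Metric Filter InnerProductSpace
open scoped Topology RealInnerProductSpace

namespace Pool.Agent.Work.MP_804706_an

variable {H L : Type*} [NormedAddCommGroup H] [InnerProductSpace ℝ H] [CompleteSpace H]
    [NormedAddCommGroup L] [InnerProductSpace ℝ L] [CompleteSpace L]

namespace KData

variable (D : KData H L) (a b lam : ℝ) (v : L)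

/-- the energy along the curve `√s u₁ + √(1-s) r ψ` -/
theorem curve_bound (hb : 0 < b) (hlam : 0 < lam) (μ : ℝ) (hμ : 0 < μ)
    (hlamμ : 4 * a ≤ lam * μ) (u₁ : H) (hmin : ∀ y, D.e a b lam v u₁ ≤ D.e a b lam v y)
    (ψ : H) (hψ1 : ‖ψ‖ = 1) (hψμ : μ ≤ ‖D.ι ψ‖ ^ 2) (hψv : ⟪D.ι ψ, v⟫ = 0)
    (horth : ⟪u₁, ψ⟫ = 0) (horth' : ⟪D.ι u₁, D.ι ψ⟫ = 0) (η : ℝ)
    (hΨ : D.Ψ u₁ ≤ η) (s : ℝ) (hs : s ∈ Icc (0 : ℝ) 1) :
    D.e a b lam v (Real.sqrt s • u₁ + Real.sqrt (1 - s) • Real.sqrt (lam * μ / (2 * b)) • ψ) ≤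
      - (lam ^ 2 * μ ^ 2 / (8 * b)) + η := by
  obtain ⟨hs0, hs1⟩ := hs
  set t := lam * μ / (2 * b) with ht
  have ht0 : 0 < t := by positivity
  obtain ⟨h1, h2⟩ := D.test_psi a b lam v hb hlam μ hμ hlamμ ψ hψ1 hψμ hψv.le
  rw [← ht] at h1 h2
  have hη0 : 0 ≤ η := (D.nonneg u₁).trans hΨ
  have hs2 : Real.sqrt s ^ 2 = s := Real.sq_sqrt hs0
  have hs3 : Real.sqrt (1 - s) ^ 2 = 1 - s := Real.sq_sqrt (by linarith)
  have ht2 : Real.sqrt t ^ 2 = t := Real.sq_sqrt ht0.le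
  have hss : s ≤ Real.sqrt s := by
    apply Real.le_sqrt_of_sq_le
    nlinarith
  set g := Real.sqrt s • u₁ + Real.sqrt (1 - s) • Real.sqrt t • ψ with hg
  have hgn : ‖g‖ ^ 2 = s * ‖u₁‖ ^ 2 + (1 - s) * t := by
    rw [hg, norm_add_sq_real, real_inner_smul_left, real_inner_smul_right, real_inner_smul_right,
      horth, norm_smul, norm_smul, norm_smul, hψ1, mul_pow, mul_pow, mul_pow, Real.norm_eq_abs,
      Real.norm_eq_abs, Real.norm_eq_abs, sq_abs, sq_abs, sq_abs, hs2, hs3, ht2]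
    ring
  have hgL : ‖D.ι g‖ ^ 2 = s * ‖D.ι u₁‖ ^ 2 + (1 - s) * (t * ‖D.ι ψ‖ ^ 2) := by
    rw [hg, map_add, map_smul, map_smul, map_smul, norm_add_sq_real, real_inner_smul_left,
      real_inner_smul_right, real_inner_smul_right, horth', norm_smul, norm_smul, norm_smul,
      mul_pow, mul_pow, mul_pow, Real.norm_eq_abs,
      Real.norm_eq_abs, Real.norm_eq_abs, sq_abs, sq_abs, sq_abs, hs2, hs3, ht2]
    ring
  have hgv : ⟪D.ι g, v⟫ = Real.sqrt s * ⟪D.ι u₁, v⟫ := by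
    rw [hg, map_add, map_smul, map_smul, map_smul, inner_add_left, real_inner_smul_left,
      real_inner_smul_left, real_inner_smul_left, hψv]
    ring
  have huv : ⟪D.ι u₁, v⟫ ≤ 0 := by
    have h3 := hmin (-u₁)
    simp only [e, I, norm_neg, map_neg, D.even, inner_neg_left] at h3
    have h4 : lam * ⟪D.ι u₁, v⟫ ≤ 0 := by linarith
    by_contra hcon
    push Not at hcon
    have := mul_pos hlam hcon
    linarith
  have h5 : Real.sqrt s * ⟪D.ι u₁, v⟫ ≤ s * ⟪D.ι u₁, v⟫ :=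
    mul_le_mul_of_nonpos_right hss huv
  have h6 : (s * ‖u₁‖ ^ 2 + (1 - s) * t) ^ 2 ≤ s * (‖u₁‖ ^ 2) ^ 2 + (1 - s) * t ^ 2 := by
    have : s * (‖u₁‖ ^ 2) ^ 2 + (1 - s) * t ^ 2 - (s * ‖u₁‖ ^ 2 + (1 - s) * t) ^ 2 =
      s * (1 - s) * (‖u₁‖ ^ 2 - t) ^ 2 := by ring
    have h7 : 0 ≤ s * (1 - s) * (‖u₁‖ ^ 2 - t) ^ 2 := by
      have : 0 ≤ 1 - s := by linarith
      positivity
    linarith
  have h7 := (hmin _).trans h2
  have h8 := D.nonneg g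
  have h9 : D.e a b lam v g = a / 2 * ‖g‖ ^ 2 + b / 4 * (‖g‖ ^ 2) ^ 2 - D.Ψ g
      - lam / 2 * ‖D.ι g‖ ^ 2 + lam * ⟪D.ι g, v⟫ := by
    simp only [e, I]; ring
  have h10 : D.e a b lam v u₁ = a / 2 * ‖u₁‖ ^ 2 + b / 4 * (‖u₁‖ ^ 2) ^ 2 - D.Ψ u₁
      - lam / 2 * ‖D.ι u₁‖ ^ 2 + lam * ⟪D.ι u₁, v⟫ := by
    simp only [e, I]; ring
  rw [h9, hgn, hgL, hgv]
  have h11 : lam * (Real.sqrt s * ⟪D.ι u₁, v⟫) ≤ lam * (s * ⟪D.ι u₁, v⟫) := by gcongr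
  have h12 : b / 4 * (s * ‖u₁‖ ^ 2 + (1 - s) * t) ^ 2 ≤
      b / 4 * (s * (‖u₁‖ ^ 2) ^ 2 + (1 - s) * t ^ 2) := by gcongr
  set Q := lam ^ 2 * μ ^ 2 / (8 * b) with hQ
  have h13 : s * (D.e a b lam v u₁ + D.Ψ u₁) ≤ s * (-Q + η) := by
    gcongr
  have h14 : (1 - s) * (a / 2 * t + b / 4 * t ^ 2 - lam / 2 * (t * ‖D.ι ψ‖ ^ 2)) ≤
      (1 - s) * (-Q + η) := by
    have : 0 ≤ 1 - s := by linarith
    gcongr
    linarith
  rw [h10] at h13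
  linarith

/-- the path to the middle point -/
noncomputable def curve (u₁ χ : H) : Path u₁ χ where
  toFun := fun t : unitInterval => Real.sqrt (1 - (t : ℝ)) • u₁ + Real.sqrt (t : ℝ) • χ
  continuous_toFun := by fun_prop
  source' := by simp
  target' := by simp

/-- a unit vector in a six dimensional subspace orthogonal to five functionals -/
theorem exists_orth (V : Submodule ℝ H) [FiniteDimensional ℝ V] (hV : 5 < Module.finrank ℝ V)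
    (u₁ u₂ : H) : ∃ ψ ∈ V, ‖ψ‖ = 1 ∧ ⟪D.ι ψ, v⟫ = 0 ∧ ⟪u₁, ψ⟫ = 0 ∧ ⟪u₂, ψ⟫ = 0 ∧
      ⟪D.ι u₁, D.ι ψ⟫ = 0 ∧ ⟪D.ι u₂, D.ι ψ⟫ = 0 := by
  set f : H →ₗ[ℝ] (Fin 5 → ℝ) := LinearMap.pi ![
    ((innerSL ℝ v).comp D.ι : H →L[ℝ] ℝ).toLinearMap,
    (innerSL ℝ u₁ : H →L[ℝ] ℝ).toLinearMap, (innerSL ℝ u₂ : H →L[ℝ] ℝ).toLinearMap,
    ((innerSL ℝ (D.ι u₁)).comp D.ι : H →L[ℝ] ℝ).toLinearMap,
    ((innerSL ℝ (D.ι u₂)).comp D.ι : H →L[ℝ] ℝ).toLinearMap] with hf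
  have hker : LinearMap.ker (f ∘ₗ V.subtype) ≠ ⊥ := by
    apply LinearMap.ker_ne_bot_of_finrank_lt
    simpa using hV
  obtain ⟨⟨ψ, hψV⟩, hψker, hψ0⟩ := Submodule.exists_mem_ne_zero_of_ne_bot hker
  have hψ0' : ψ ≠ 0 := fun h => hψ0 (by simpa using h)
  have hfψ : f ψ = 0 := by simpa using hψker
  have hn : ‖ψ‖ ≠ 0 := norm_ne_zero_iff.2 hψ0'
  have e0 := congrFun hfψ 0
  have e1 := congrFun hfψ 1
  have e2 := congrFun hfψ 2
  have e3 := congrFun hfψ 3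
  have e4 := congrFun hfψ 4
  simp [hf] at e0 e1 e2 e3 e4
  refine ⟨‖ψ‖⁻¹ • ψ, V.smul_mem _ hψV, ?_, ?_, ?_, ?_, ?_, ?_⟩
  · rw [norm_smul, norm_inv, norm_norm, inv_mul_cancel₀ hn]
  · rw [map_smul, real_inner_smul_left, real_inner_comm, e0, mul_zero]
  · rw [real_inner_smul_right, e1, mul_zero]
  · rw [real_inner_smul_right, e2, mul_zero]
  · rw [map_smul, real_inner_smul_right, e3, mul_zero]
  · rw [map_smul, real_inner_smul_right, e4, mul_zero]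

/-- a third critical point from two global minimizers joined below the critical level -/
theorem third (ha : 0 ≤ a) (hb : 0 < b) (hlam : 0 < lam) (R₁ : ℝ) (hA : D.Adm b R₁)
    (u₁ u₂ : H) (hne : u₁ ≠ u₂) (h1 : ∀ y, D.e a b lam v u₁ ≤ D.e a b lam v y)
    (h2 : ∀ y, D.e a b lam v u₂ ≤ D.e a b lam v y) (l : ℝ) (hl : l < - D.Kc lam v R₁)
    (γ : Path u₁ u₂) (hγ : ∀ t, D.e a b lam v (γ t) ≤ l) :
    ∃ u₃, u₃ ≠ u₁ ∧ u₃ ≠ u₂ ∧ D.G a b lam v u₃ = 0 := by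
  set m := D.e a b lam v u₁ with hm
  have hm2 : D.e a b lam v u₂ = m := le_antisymm (h2 _) (h1 _)
  set S : Set ℝ := {r | ∃ γ : Path u₁ u₂, ∀ t, D.e a b lam v (γ t) ≤ r} with hS
  have hSne : S.Nonempty := ⟨l, γ, hγ⟩
  have hSm : ∀ r ∈ S, m ≤ r := by
    rintro r ⟨γ', hγ'⟩
    have := hγ' 0
    rwa [γ'.source] at this
  have hSb : BddBelow S := ⟨m, hSm⟩
  set c := sInf S with hc
  have hmc : m ≤ c := le_csInf hSne hSm
  have hcl : c ≤ l := csInf_le hSb ⟨γ, hγ⟩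
  have hcK : c < - D.Kc lam v R₁ := hcl.trans_lt hl
  have hc1 : ∀ ε > 0, ∃ γ : Path u₁ u₂, ∀ t, D.e a b lam v (γ t) ≤ c + ε := by
    intro ε hε
    obtain ⟨r, ⟨γ', hγ'⟩, hr⟩ := exists_lt_of_csInf_lt hSne (show sInf S < c + ε by linarith)
    exact ⟨γ', fun t => (hγ' t).trans hr.le⟩
  have hc2 : ∀ ε > 0, ¬ ∃ γ : Path u₁ u₂, ∀ t, D.e a b lam v (γ t) ≤ c - ε := by
    intro ε hε hex
    have : c ≤ c - ε := csInf_le hSb hex
    linarith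
  rcases hmc.lt_or_eq with hlt | heq
  · have hbdd : ∀ c, ∃ R, ∀ u, D.e a b lam v u ≤ c → ‖u‖ ≤ R := by
      intro c'
      obtain ⟨R, -, hR⟩ := D.coercive a b lam ha hb hlam.le ‖v‖ c'
      exact ⟨R, fun u hu => hR v le_rfl u hu⟩
    obtain ⟨u₃, he, hG⟩ := mountain_pass (D.e a b lam v) (D.G a b lam v)
      (D.hasGradientAt_e a b lam v) (D.G_lip a b lam v) hbdd u₁ u₂ m c rfl hm2 hlt hc1 hc2
      (fun w hw1 hw2 => D.ps_compact a b lam v ha hb hlam.le R₁ hA c hcK w hw1 hw2)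
    refine ⟨u₃, ?_, ?_, hG⟩
    · rintro rfl
      exact absurd he (ne_of_lt hlt)
    · rintro rfl
      rw [hm2] at he
      exact absurd he (ne_of_lt hlt)
  · -- the degenerate case
    set δ := ‖u₂ - u₁‖ / 2 with hδ
    have hd0 : 0 < ‖u₂ - u₁‖ := norm_pos_iff.2 (sub_ne_zero.2 hne.symm)
    have hδ0 : 0 < δ := by positivity
    have hex : ∀ n : ℕ, ∃ z, ‖z - u₁‖ = δ ∧ D.e a b lam v z ≤ m + 1 / ((n : ℝ) + 1) := by
      intro n
      obtain ⟨γ', hγ'⟩ := hc1 (1 / ((n : ℝ) + 1)) (by positivity)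
      have hcont : Continuous (fun t => ‖γ' t - u₁‖) := by fun_prop
      have h0 : ‖γ' 0 - u₁‖ = 0 := by rw [γ'.source, sub_self, norm_zero]
      have h1' : ‖γ' 1 - u₁‖ = ‖u₂ - u₁‖ := by rw [γ'.target]
      have hiv := intermediate_value_univ (0 : unitInterval) 1 hcont
      rw [h0, h1'] at hiv
      obtain ⟨t, ht⟩ := hiv ⟨hδ0.le, by rw [hδ]; linarith⟩
      refine ⟨γ' t, ht, ?_⟩
      have := hγ' t
      rwa [← heq] at this
    choose z hz1 hz2 using hex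
    have hlim : Tendsto (fun n => D.e a b lam v (z n)) atTop (𝓝 m) := by
      have h3 : Tendsto (fun n : ℕ => m + 1 / ((n : ℝ) + 1)) atTop (𝓝 m) := by
        have := (tendsto_one_div_add_atTop_nhds_zero_nat (𝕜 := ℝ)).const_add m
        simpa using this
      exact tendsto_of_tendsto_of_tendsto_of_le_of_le tendsto_const_nhds h3 (fun n => h1 _)
        (fun n => hz2 n)
    obtain ⟨φ, hφ, x, hx, hex⟩ := D.min_compact a b lam v ha hb hlam.le R₁ hA m h1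
      (hmc.trans_lt hcK) z hlim
    have hxn : ‖x - u₁‖ = δ := by
      have h4 : Tendsto (fun n => ‖z (φ n) - u₁‖) atTop (𝓝 ‖x - u₁‖) := (hx.sub_const u₁).norm
      have h5 : Tendsto (fun n => ‖z (φ n) - u₁‖) atTop (𝓝 δ) := by
        simp only [hz1]
        exact tendsto_const_nhds
      exact tendsto_nhds_unique h4 h5
    refine ⟨x, ?_, ?_, ?_⟩
    · rintro rfl
      rw [sub_self, norm_zero] at hxn
      linarith
    · rintro rfl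
      rw [hδ] at hxn
      linarith
    · exact D.G_eq_zero_of_min a b lam v x (fun y => by rw [hex]; exact h1 y)

/-- the abstract three solutions theorem -/
theorem abstract_main (ha : 0 ≤ a) (hb : 0 < b) (V : Submodule ℝ H) [FiniteDimensional ℝ V]
    (hV : 5 < Module.finrank ℝ V) :
    ∃ lam₀ : ℝ, 0 < lam₀ ∧ ∀ lam, lam₀ < lam → ∀ C : Set L, Convex ℝ C →
      range D.ι ⊆ closure C → ∃ v ∈ C, ∃ u₁ u₂ u₃ : H, u₁ ≠ u₂ ∧ u₁ ≠ u₃ ∧ u₂ ≠ u₃ ∧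
        (∀ y, D.E a b lam v u₁ ≤ D.E a b lam v y) ∧ (∀ y, D.E a b lam v u₂ ≤ D.E a b lam v y) ∧
        D.G a b lam v u₁ = 0 ∧ D.G a b lam v u₂ = 0 ∧ D.G a b lam v u₃ = 0 := by
  obtain ⟨R₁, hA⟩ := D.exists_adm b hb
  have hR₁ : 0 < R₁ := by linarith [hA.1]
  obtain ⟨μ, hμ, hVμ⟩ := D.exists_mu V
  -- a nonzero vector
  obtain ⟨ψ₀, hψ₀V, hψ₀n, -⟩ := D.exists_orth (0 : L) V hV 0 0
  have hψ₀0 : ψ₀ ≠ 0 := by
    intro h
    rw [h, norm_zero] at hψ₀n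
    exact zero_ne_one hψ₀n
  obtain ⟨lam₁, hlam₁, hdeep⟩ := D.deep a b ha hb R₁ hA ψ₀ hψ₀0
  obtain ⟨J, hJ0, hJ⟩ := D.I_lower a b ha hb
  have hJ' : ∀ u, -J ≤ D.I a b u := by
    intro u
    have := hJ u
    have h : 0 ≤ b / 8 * ‖u‖ ^ 4 := by positivity
    linarith
  obtain ⟨C₄, hC₄, hbt⟩ := D.bound_two a b ha hb
  obtain ⟨C₆, hC₆, hbd⟩ := D.bound_datum a b ha hb C₄ hC₄
  set η := μ ^ 2 / (16 * b) with hη
  have hη0 : 0 < η := by positivity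
  obtain ⟨lam₂, hlam₂, hKc⟩ := D.Kc_small C₆ R₁ η hC₆ hR₁ hη0
  -- bound for Ψ
  obtain ⟨C, hC0, hC⟩ := D.theta_le (μ ^ 2 / (32 * b * C₄ ^ 2)) (by positivity)
  -- threshold for u₀
  have hμ₀ : μ ≤ ‖D.ι ψ₀‖ ^ 2 := by
    have := hVμ ψ₀ hψ₀V
    rwa [hψ₀n, one_pow, mul_one] at this
  set T₁ := 2 * (|D.I a b ψ₀| + J + 2) / μ with hT₁
  set T₂ := 32 * b * (C * C₄) / μ ^ 2 with hT₂
  refine ⟨max (max lam₁ lam₂) (max (max T₁ T₂) (4 * a / μ)), ?_, ?_⟩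
  · exact lt_of_lt_of_le (by linarith) ((le_max_left lam₁ lam₂).trans (le_max_left _ _))
  intro lam hlam S hSc hSd
  have hl1 : lam₁ ≤ lam := (((le_max_left _ _).trans (le_max_left _ _)).trans_lt hlam).le
  have hl2 : lam₂ ≤ lam := (((le_max_right _ _).trans (le_max_left _ _)).trans_lt hlam).le
  have hl3 : T₁ ≤ lam :=
    ((((le_max_left _ _).trans (le_max_left _ _)).trans (le_max_right _ _)).trans_lt hlam).le
  have hl4 : T₂ ≤ lam :=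
    ((((le_max_right _ _).trans (le_max_left _ _)).trans (le_max_right _ _)).trans_lt hlam).le
  have hl5 : 4 * a / μ ≤ lam := (((le_max_right _ _).trans (le_max_right _ _)).trans_lt hlam).le
  have hlam1 : 1 ≤ lam := hlam₁.trans hl1
  have hlam0 : 0 < lam := by linarith
  have hl5' : 4 * a ≤ lam * μ := by rwa [div_le_iff₀ hμ] at hl5
  have hu₀ : D.I a b ψ₀ - lam / 2 * ‖D.ι ψ₀‖ ^ 2 < - J - 1 := by
    rw [hT₁, div_le_iff₀ hμ] at hl3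
    have h1 : lam * μ ≤ lam * ‖D.ι ψ₀‖ ^ 2 := by gcongr
    have h2 := le_abs_self (D.I a b ψ₀)
    linarith
  obtain ⟨v, hvS, u₁, u₂, hne, hm1, hm2⟩ := D.two_min a b lam ha hb hlam0 R₁ hA
    (hdeep lam hl1) J hJ' ψ₀ hu₀ S hSc hSd
  have hG1 := D.G_eq_zero_of_min a b lam v u₁ hm1
  have hG2 := D.G_eq_zero_of_min a b lam v u₂ hm2
  have hbt' := hbt lam hlam1 v u₁ u₂ hne hG1 hG2
  have hu1n : ‖u₁‖ ^ 2 ≤ C₄ * lam := by
    have := sq_nonneg ‖u₂‖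
    linarith
  have hu2n : ‖u₂‖ ^ 2 ≤ C₄ * lam := by
    have := sq_nonneg ‖u₁‖
    linarith
  have hM := hbd lam hlam1 v u₁ hm1 hu1n
  have hK := hKc lam hl2 v hM
  have hΨb : ∀ u : H, ‖u‖ ^ 2 ≤ C₄ * lam → D.Ψ u ≤ η * lam ^ 2 := by
    intro u hu
    have h1 := D.bound u
    have h2 := hC ‖u‖ (norm_nonneg u)
    have h3 : D.θ ‖u‖ ≤ μ ^ 2 / (32 * b * C₄ ^ 2) * (C₄ * lam) + C := by
      refine h2.trans ?_
      gcongr
    have h4 : D.θ ‖u‖ * ‖u‖ ^ 2 ≤ (μ ^ 2 / (32 * b * C₄ ^ 2) * (C₄ * lam) + C) * (C₄ * lam) := by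
      have := D.θ_nonneg ‖u‖
      gcongr
    have h5 : (μ ^ 2 / (32 * b * C₄ ^ 2) * (C₄ * lam) + C) * (C₄ * lam) =
        η / 2 * lam ^ 2 + lam * (C * C₄) := by
      rw [hη]
      field_simp
      ring
    have h6 : C * C₄ ≤ η / 2 * lam := by
      rw [hT₂, div_le_iff₀ (by positivity)] at hl4
      rw [hη]
      have : μ ^ 2 / (16 * b) / 2 * lam = lam * μ ^ 2 / (32 * b) := by
        field_simp
        ring
      rw [this, le_div_iff₀ (by positivity)]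
      linarith
    have h7 : lam * (C * C₄) ≤ lam * (η / 2 * lam) := by gcongr
    have h8 : lam * (η / 2 * lam) = η / 2 * lam ^ 2 := by ring
    linarith
  obtain ⟨ψ, hψV, hψn, hψv, ho1, ho2, ho3, ho4⟩ := D.exists_orth v V hV u₁ u₂
  have hψμ : μ ≤ ‖D.ι ψ‖ ^ 2 := by
    have := hVμ ψ hψV
    rwa [hψn, one_pow, mul_one] at this
  set χ := Real.sqrt (lam * μ / (2 * b)) • ψ with hχ
  have hlev : - (lam ^ 2 * μ ^ 2 / (8 * b)) + η * lam ^ 2 = - (η * lam ^ 2) := by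
    rw [hη]
    field_simp
    ring
  have hγ1 : ∀ t, D.e a b lam v (curve u₁ χ t) ≤ - (η * lam ^ 2) := by
    intro t
    have h1 := D.curve_bound a b lam v hb hlam0 μ hμ hl5' u₁ hm1 ψ hψn hψμ hψv ho1 ho3 _
      (hΨb u₁ hu1n) (1 - (t : ℝ)) ⟨by linarith [t.2.2], by linarith [t.2.1]⟩
    rw [hlev, sub_sub_cancel] at h1
    exact h1
  have hγ2 : ∀ t, D.e a b lam v (curve u₂ χ t) ≤ - (η * lam ^ 2) := by
    intro t
    have h1 := D.curve_bound a b lam v hb hlam0 μ hμ hl5' u₂ hm2 ψ hψn hψμ hψv ho2 ho4 _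
      (hΨb u₂ hu2n) (1 - (t : ℝ)) ⟨by linarith [t.2.2], by linarith [t.2.1]⟩
    rw [hlev, sub_sub_cancel] at h1
    exact h1
  have hγ : ∀ t, D.e a b lam v (((curve u₁ χ).trans (curve u₂ χ).symm) t) ≤ - (η * lam ^ 2) := by
    intro t
    have hmem : ((curve u₁ χ).trans (curve u₂ χ).symm) t ∈
        range ((curve u₁ χ).trans (curve u₂ χ).symm) := ⟨t, rfl⟩
    rw [Path.trans_range, Path.symm_range] at hmem
    rcases hmem with ⟨s, hs⟩ | ⟨s, hs⟩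
    · rw [← hs]; exact hγ1 s
    · rw [← hs]; exact hγ2 s
  obtain ⟨u₃, h31, h32, hG3⟩ := D.third a b lam v ha hb hlam0 R₁ hA u₁ u₂ hne hm1 hm2
    (- (η * lam ^ 2)) (by linarith) _ hγ
  refine ⟨v, hvS, u₁, u₂, u₃, hne, h31.symm, h32.symm, ?_, ?_, hG1, hG2, hG3⟩
  · intro y
    rw [D.E_eq, D.E_eq]
    linarith [hm1 y]
  · intro y
    rw [D.E_eq, D.E_eq]
    linarith [hm2 y]

end KData

end Pool.Agent.Work.MP_804706_an
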