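import Mathlib

set_option autoImplicit false

open Set Metric Filter InnerProductSpace MeasureTheory
open scoped Topology RealInnerProductSpace ENNReal ContDiff

namespace Pool.Agent.Work.MP_804706_an

/-! ### Pointwise inequalities -/

/-- mean value estimate for `t ^ p`, `p ≥ 1`, on nonnegative reals -/
lemma rpow_sub_le {p a b : ℝ} (hp : 1 ≤ p) (hb : 0 ≤ b) (hab : b ≤ a) :
    a ^ p - b ^ p ≤ p * a ^ (p - 1) * (a - b) := by
  have h := Convex.norm_image_sub_le_of_norm_hasDerivWithin_le (f := fun x : ℝ => x ^ p)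
    (f' := fun x => p * x ^ (p - 1)) (s := Icc b a) (C := p * a ^ (p - 1)) (x := b) (y := a)
    (fun x _ => (Real.hasDerivAt_rpow_const (Or.inr hp)).hasDerivWithinAt)
    (fun x hx => by
      have hx0 : 0 ≤ x := hb.trans hx.1
      rw [Real.norm_of_nonneg (by positivity)]
      exact mul_le_mul_of_nonneg_left (Real.rpow_le_rpow hx0 hx.2 (by linarith)) (by linarith))
    (convex_Icc b a) (left_mem_Icc.2 hab) (right_mem_Icc.2 hab)
  simp only [Real.norm_eq_abs] at h
  rw [abs_of_nonneg (sub_nonneg.2 hab)] at h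
  exact (le_abs_self _).trans h

lemma g_lip_aux {q a b : ℝ} (hq : 2 < q) (ha : 0 ≤ a) (hb : |b| ≤ a) :
    |(|a| ^ (q - 2) * a - |b| ^ (q - 2) * b)| ≤ (q - 1) * (|a| + |b|) ^ (q - 2) * |a - b| := by
  have hpow : ∀ x : ℝ, 0 ≤ x → x ^ (q - 2) * x = x ^ (q - 1) := by
    intro x hx
    rw [← Real.rpow_add_one' hx (by linarith)]
    congr 1; ring
  have hba : b ≤ a := (le_abs_self b).trans hb
  rw [abs_of_nonneg ha, abs_of_nonneg (sub_nonneg.2 hba), hpow a ha]
  rcases le_total 0 b with h0 | h0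
  · rw [abs_of_nonneg h0, hpow b h0]
    rw [abs_of_nonneg (sub_nonneg.2 (Real.rpow_le_rpow h0 hba (by linarith)))]
    refine (rpow_sub_le (by linarith) h0 hba).trans ?_
    have : q - 1 - 1 = q - 2 := by ring
    rw [this]
    gcongr
    · linarith
    · linarith
  · have hb' : |b| = -b := abs_of_nonpos h0
    have h1 : |b| ^ (q - 2) * b = - (|b| ^ (q - 1)) := by
      rw [← hpow |b| (abs_nonneg b)]
      rw [hb']; ring
    rw [h1, sub_neg_eq_add, abs_of_nonneg (by positivity)]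
    have h2 := Real.add_rpow_le_rpow_add ha (abs_nonneg b) (show (1:ℝ) ≤ q - 1 by linarith)
    refine h2.trans ?_
    rw [← hpow _ (by positivity)]
    have h3 : a - b = a + |b| := by rw [hb']; ring
    rw [h3]
    have h4 : 0 ≤ (a + |b|) ^ (q - 2) * (a + |b|) := by positivity
    nlinarith

lemma g_lip {q : ℝ} (hq : 2 < q) (a b : ℝ) :
    |(|a| ^ (q - 2) * a - |b| ^ (q - 2) * b)| ≤ (q - 1) * (|a| + |b|) ^ (q - 2) * |a - b| := by
  -- reduce to `|b| ≤ |a|`, `0 ≤ a`
  have key : ∀ a b : ℝ, |b| ≤ |a| →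
      |(|a| ^ (q - 2) * a - |b| ^ (q - 2) * b)| ≤ (q - 1) * (|a| + |b|) ^ (q - 2) * |a - b| := by
    intro a b hab
    rcases le_total 0 a with h0 | h0
    · rw [abs_of_nonneg h0] at hab
      exact g_lip_aux hq h0 hab
    · have h := g_lip_aux (q := q) (a := -a) (b := -b) hq (by linarith)
        (by rw [abs_neg, ← abs_of_nonpos h0]; exact hab)
      rw [abs_neg, abs_neg] at h
      have e1 : |a| ^ (q - 2) * -a - |b| ^ (q - 2) * -b
        = -(|a| ^ (q - 2) * a - |b| ^ (q - 2) * b) := by ring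
      have e2 : -a - -b = -(a - b) := by ring
      rw [e1, e2, abs_neg, abs_neg] at h
      exact h
  rcases le_total |b| |a| with h | h
  · exact key a b h
  · have := key b a h
    rw [abs_sub_comm, add_comm |b| |a|, abs_sub_comm b a] at this
    exact this

lemma hasDerivAt_Psi {q : ℝ} (hq : 2 < q) (x : ℝ) :
    HasDerivAt (fun x : ℝ => (1 / q) * |x| ^ q) (|x| ^ (q - 2) * x) x := by
  have h := (hasDerivAt_abs_rpow x (show 1 < q by linarith)).const_mul (1 / q)
  refine h.congr_deriv ?_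
  have hq0 : q ≠ 0 := by linarith
  field_simp

/-- second order Taylor estimate -/
lemma G_bound {q : ℝ} (hq : 2 < q) (a t : ℝ) :
    |(1 / q) * |a + t| ^ q - (1 / q) * |a| ^ q - |a| ^ (q - 2) * a * t|
      ≤ (q - 1) * (2 * |a| + |t|) ^ (q - 2) * |t| * |t| := by
  have hF : ∀ s : ℝ, HasDerivAt
      (fun s : ℝ => (1 / q) * |a + s * t| ^ q - s * (|a| ^ (q - 2) * a * t))
      (|a + s * t| ^ (q - 2) * (a + s * t) * t - |a| ^ (q - 2) * a * t) s := by
    intro s
    have h1 : HasDerivAt (fun s : ℝ => a + s * t) t s := by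
      simpa using ((hasDerivAt_id s).mul_const t).const_add a
    have h2 := (hasDerivAt_Psi hq (a + s * t)).comp s h1
    have h3 := (hasDerivAt_id s).mul_const (|a| ^ (q - 2) * a * t)
    rw [one_mul] at h3
    exact h2.sub h3
  have h := Convex.norm_image_sub_le_of_norm_hasDerivWithin_le
    (s := Icc (0:ℝ) 1) (C := (q - 1) * (2 * |a| + |t|) ^ (q - 2) * |t| * |t|) (x := 0) (y := 1)
    (fun x _ => (hF x).hasDerivWithinAt)
    (fun x hx => by
      have e : |a + x * t| ^ (q - 2) * (a + x * t) * t - |a| ^ (q - 2) * a * t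
        = (|a + x * t| ^ (q - 2) * (a + x * t) - |a| ^ (q - 2) * a) * t := by ring
      rw [Real.norm_eq_abs, e, abs_mul]
      have h1 := g_lip hq (a + x * t) a
      have h2 : |a + x * t - a| ≤ |t| := by
        rw [add_sub_cancel_left, abs_mul, abs_of_nonneg hx.1]
        exact mul_le_of_le_one_left (abs_nonneg t) hx.2
      have h3 : |a + x * t| ≤ |a| + |t| := by
        refine (abs_add_le _ _).trans ?_
        rw [add_sub_cancel_left] at h2
        linarith
      have h4 : (|a + x * t| + |a|) ^ (q - 2) ≤ (2 * |a| + |t|) ^ (q - 2) :=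
        Real.rpow_le_rpow (by positivity) (by linarith) (by linarith)
      have hq1 : 0 ≤ q - 1 := by linarith
      calc _ ≤ ((q - 1) * (|a + x * t| + |a|) ^ (q - 2) * |a + x * t - a|) * |t| := by gcongr
        _ ≤ ((q - 1) * (2 * |a| + |t|) ^ (q - 2) * |t|) * |t| := by gcongr
        _ = _ := by ring)
    (convex_Icc 0 1) (by simp) (by simp)
  have e : (1 / q) * |a + t| ^ q - (1 / q) * |a| ^ q - |a| ^ (q - 2) * a * t
      = (1 / q) * |a + 1 * t| ^ q - 1 * (|a| ^ (q - 2) * a * t) -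
        ((1 / q) * |a + 0 * t| ^ q - 0 * (|a| ^ (q - 2) * a * t)) := by
    simp only [one_mul, zero_mul, add_zero, sub_zero]; ring
  rw [e]
  simpa using h

/-- first order estimate -/
lemma G_bound1 {q : ℝ} (hq : 2 < q) (a w : ℝ) :
    |(1 / q) * |a + w| ^ q - (1 / q) * |w| ^ q| ≤ (|a| + |w|) ^ (q - 1) * |a| := by
  have hF : ∀ s : ℝ, HasDerivAt (fun s : ℝ => (1 / q) * |s * a + w| ^ q)
      (|s * a + w| ^ (q - 2) * (s * a + w) * a) s := by
    intro s
    have h1 : HasDerivAt (fun s : ℝ => s * a + w) a s := by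
      simpa using ((hasDerivAt_id s).mul_const a).add_const w
    have h2 := (hasDerivAt_Psi hq (s * a + w)).comp s h1
    simpa [Function.comp_def] using h2
  have h := Convex.norm_image_sub_le_of_norm_hasDerivWithin_le
    (s := Icc (0:ℝ) 1) (C := (|a| + |w|) ^ (q - 1) * |a|) (x := 0) (y := 1)
    (fun x _ => (hF x).hasDerivWithinAt)
    (fun x hx => by
      have e : ∀ y : ℝ, |(|y| ^ (q - 2) * y)| = |y| ^ (q - 1) := by
        intro y
        rw [abs_mul, abs_of_nonneg (Real.rpow_nonneg (abs_nonneg y) _),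
          ← Real.rpow_add_one' (abs_nonneg y) (by linarith)]
        congr 1; ring
      rw [Real.norm_eq_abs, abs_mul, e]
      gcongr
      · linarith
      · refine (abs_add_le _ _).trans ?_
        rw [abs_mul, abs_of_nonneg hx.1]
        have := mul_le_of_le_one_left (abs_nonneg a) hx.2
        linarith)
    (convex_Icc 0 1) (by simp) (by simp)
  simpa using h

lemma BL1 {q : ℝ} (hq : 2 < q) (a w : ℝ) :
    |(1 / q) * |a + w| ^ q - (1 / q) * |a| ^ q - (1 / q) * |w| ^ q|
      ≤ 2 * ((|a| + 2 * |w|) ^ (q - 1) * |a|) := by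
  have h1 := G_bound1 hq a w
  have h2 : (|a| + |w|) ^ (q - 1) ≤ (|a| + 2 * |w|) ^ (q - 1) :=
    Real.rpow_le_rpow (by positivity) (by linarith [abs_nonneg w]) (by linarith)
  have h3 : |a| ^ (q - 1) ≤ (|a| + 2 * |w|) ^ (q - 1) :=
    Real.rpow_le_rpow (by positivity) (by linarith [abs_nonneg w]) (by linarith)
  have h4 : |a| ^ q = |a| ^ (q - 1) * |a| := by
    rw [← Real.rpow_add_one' (abs_nonneg a) (by linarith)]
    congr 1; ring
  have h5 : (1 / q) * |a| ^ q ≤ (|a| + 2 * |w|) ^ (q - 1) * |a| := by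
    rw [h4]
    have : 1 / q ≤ 1 := by rw [div_le_one (by linarith)]; linarith
    have h0 : 0 ≤ |a| ^ (q - 1) * |a| := by positivity
    calc (1 / q) * (|a| ^ (q - 1) * |a|) ≤ 1 * (|a| ^ (q - 1) * |a|) := by gcongr
      _ ≤ _ := by rw [one_mul]; gcongr
  have h6 : 0 ≤ (1 / q) * |a| ^ q := by positivity
  have h7 : (|a| + |w|) ^ (q - 1) * |a| ≤ (|a| + 2 * |w|) ^ (q - 1) * |a| := by gcongr
  rw [abs_le] at h1 ⊢
  constructor <;> linarith [h1.1, h1.2]

lemma BL2 {q : ℝ} (hq : 2 < q) (a w : ℝ) :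
    |(|a + w| ^ (q - 2) * (a + w) * w - |w| ^ q)|
      ≤ (q - 1) * ((|a| + 2 * |w|) ^ (q - 1) * |a|) := by
  have h1 := g_lip hq (a + w) w
  have e1 : |w| ^ q = |w| ^ (q - 2) * w * w := by
    have : |w| ^ q = |w| ^ (q - 2) * |w| ^ (2:ℝ) := by
      rw [← Real.rpow_add' (abs_nonneg w) (by linarith)]
      congr 1; ring
    rw [this, Real.rpow_two, sq_abs]; ring
  have e2 : |a + w| ^ (q - 2) * (a + w) * w - |w| ^ q
      = (|a + w| ^ (q - 2) * (a + w) - |w| ^ (q - 2) * w) * w := by rw [e1]; ring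
  rw [e2, abs_mul]
  have h2 : a + w - w = a := by ring
  rw [h2] at h1
  have h3 : (|a + w| + |w|) ^ (q - 2) ≤ (|a| + 2 * |w|) ^ (q - 2) :=
    Real.rpow_le_rpow (by positivity) (by linarith [abs_add_le a w]) (by linarith)
  have h4 : (|a| + 2 * |w|) ^ (q - 1) = (|a| + 2 * |w|) ^ (q - 2) * (|a| + 2 * |w|) := by
    rw [← Real.rpow_add_one' (by positivity) (by linarith)]
    congr 1; ring
  have hq1 : 0 ≤ q - 1 := by linarith
  calc _ ≤ ((q - 1) * (|a + w| + |w|) ^ (q - 2) * |a|) * |w| := by gcongr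
    _ ≤ ((q - 1) * (|a| + 2 * |w|) ^ (q - 2) * |a|) * (|a| + 2 * |w|) := by
        gcongr
        linarith [abs_nonneg a, abs_nonneg w]
    _ = _ := by rw [h4]; ring

/-- Young-type splitting -/
lemma young_split {q : ℝ} (hq : 2 < q) (K η : ℝ) (hK : 0 ≤ K) (hη : 0 < η) :
    ∃ C : ℝ, 0 ≤ C ∧ ∀ A W : ℝ, 0 ≤ A → 0 ≤ W →
      K * ((A + 2 * W) ^ (q - 1) * A) ≤ η * W ^ q + C * A ^ q := by
  set δ : ℝ := min 1 (η / (K * 3 ^ (q - 1) + 1)) with hδ
  have h3 : (0:ℝ) ≤ K * 3 ^ (q - 1) := by positivity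
  have hδ0 : 0 < δ := lt_min one_pos (div_pos hη (by linarith))
  have hδ1 : δ ≤ 1 := min_le_left _ _
  have hδ2 : K * 3 ^ (q - 1) * δ ≤ η := by
    have h : δ ≤ η / (K * 3 ^ (q - 1) + 1) := min_le_right _ _
    rw [le_div_iff₀ (by linarith)] at h
    nlinarith
  have hpow : ∀ x : ℝ, 0 ≤ x → x ^ (q - 1) * x = x ^ q := by
    intro x hx
    rw [← Real.rpow_add_one' hx (by linarith)]
    congr 1; ring
  refine ⟨K * (1 + 2 / δ) ^ (q - 1), by positivity, fun A W hA hW => ?_⟩
  rcases le_total A (δ * W) with h | h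
  · have h1 : A + 2 * W ≤ 3 * W := by nlinarith
    calc K * ((A + 2 * W) ^ (q - 1) * A) ≤ K * ((3 * W) ^ (q - 1) * (δ * W)) := by
          gcongr
          linarith
      _ = K * 3 ^ (q - 1) * δ * (W ^ (q - 1) * W) := by
          rw [Real.mul_rpow (by norm_num) hW]; ring
      _ ≤ η * W ^ q := by
          rw [hpow W hW]; gcongr
      _ ≤ _ := by
          have : 0 ≤ K * (1 + 2 / δ) ^ (q - 1) * A ^ q := by positivity
          linarith
  · have h1 : W ≤ A / δ := by rw [le_div_iff₀ hδ0]; linarith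
    have h2 : A + 2 * W ≤ (1 + 2 / δ) * A := by
      have : (1 + 2 / δ) * A = A + 2 * (A / δ) := by ring
      rw [this]; linarith
    calc K * ((A + 2 * W) ^ (q - 1) * A) ≤ K * (((1 + 2 / δ) * A) ^ (q - 1) * A) := by
          gcongr
          linarith
      _ = K * (1 + 2 / δ) ^ (q - 1) * (A ^ (q - 1) * A) := by
          rw [Real.mul_rpow (by positivity) hA]; ring
      _ = K * (1 + 2 / δ) ^ (q - 1) * A ^ q := by rw [hpow A hA]
      _ ≤ _ := by
          have : 0 ≤ η * W ^ q := by positivity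
          linarith

/-! ### Integral lemmas -/

section Integral

variable {α : Type*} [MeasurableSpace α] {μ : Measure α}

lemma lint_rpow_le {q : ℝ} (hq : 2 < q) {f : α → ℝ} {A : ℝ} (hA : 0 ≤ A)
    (h : eLpNorm f (ENNReal.ofReal q) μ ≤ ENNReal.ofReal A) :
    ∫⁻ x, ‖f x‖ₑ ^ q ∂μ ≤ ENNReal.ofReal (A ^ q) := by
  have hq0 : 0 < q := by linarith
  have h1 : ENNReal.ofReal q ≠ 0 := by simpa using hq0
  rw [eLpNorm_eq_lintegral_rpow_enorm_toReal h1 ENNReal.ofReal_ne_top,
    ENNReal.toReal_ofReal hq0.le] at h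
  have h2 := ENNReal.rpow_le_rpow h hq0.le
  rw [← ENNReal.rpow_mul, one_div, inv_mul_cancel₀ hq0.ne', ENNReal.rpow_one,
    ENNReal.ofReal_rpow_of_nonneg hA hq0.le] at h2
  exact h2

lemma int_rpow_le {q : ℝ} (hq : 2 < q) {f : α → ℝ} (hf : AEStronglyMeasurable f μ)
    {A : ℝ} (hA : 0 ≤ A)
    (h : eLpNorm f (ENNReal.ofReal q) μ ≤ ENNReal.ofReal A) :
    Integrable (fun x => |f x| ^ q) μ ∧ ∫ x, |f x| ^ q ∂μ ≤ A ^ q := by
  have hq0 : 0 < q := by linarith
  have h1 := lint_rpow_le hq hA h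
  have hmeas : AEStronglyMeasurable (fun x => |f x| ^ q) μ := by
    have : Continuous (fun y : ℝ => |y| ^ q) :=
      (Real.continuous_rpow_const hq0.le).comp continuous_abs
    exact this.comp_aestronglyMeasurable hf
  have he : ∀ x, ‖(|f x| ^ q)‖ₑ = ‖f x‖ₑ ^ q := by
    intro x
    rw [Real.enorm_rpow_of_nonneg (abs_nonneg _) hq0.le, ← Real.norm_eq_abs, enorm_norm]
  constructor
  · refine ⟨hmeas, ?_⟩
    rw [hasFiniteIntegral_iff_enorm]
    simp only [he]
    exact h1.trans_lt ENNReal.ofReal_lt_top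
  · rw [integral_eq_lintegral_of_nonneg_ae (ae_of_all _ fun x => by positivity) hmeas]
    refine ENNReal.toReal_le_of_le_ofReal (by positivity) ?_
    refine le_trans (le_of_eq ?_) h1
    refine lintegral_congr fun x => ?_
    rw [← he, Real.enorm_of_nonneg (by positivity)]

lemma holder3 {q : ℝ} (hq : 2 < q) {f g h : α → ℝ} (hf : AEStronglyMeasurable f μ)
    (hg : AEStronglyMeasurable g μ) (hh : AEStronglyMeasurable h μ)
    {A B C : ℝ} (hA : 0 ≤ A) (hB : 0 ≤ B) (hC : 0 ≤ C)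
    (hfA : eLpNorm f (ENNReal.ofReal q) μ ≤ ENNReal.ofReal A)
    (hgB : eLpNorm g (ENNReal.ofReal q) μ ≤ ENNReal.ofReal B)
    (hhC : eLpNorm h (ENNReal.ofReal q) μ ≤ ENNReal.ofReal C) :
    Integrable (fun x => |f x| ^ (q - 2) * |g x| * |h x|) μ ∧
      ∫ x, |f x| ^ (q - 2) * |g x| * |h x| ∂μ ≤ A ^ (q - 2) * B * C := by
  have hq0 : 0 < q := by linarith
  have hq2 : 0 ≤ q - 2 := by linarith
  have key : ∫⁻ x, ‖f x‖ₑ ^ (q - 2) * ‖g x‖ₑ * ‖h x‖ₑ ∂μ ≤ ENNReal.ofReal (A ^ (q - 2) * B * C) := by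
    have H := ENNReal.lintegral_prod_norm_pow_le (μ := μ) (Finset.univ : Finset (Fin 3))
      (f := ![fun x => ‖f x‖ₑ ^ q, fun x => ‖g x‖ₑ ^ q, fun x => ‖h x‖ₑ ^ q])
      (p := ![(q - 2) / q, 1 / q, 1 / q])
      (by
        intro i _
        fin_cases i
        · exact hf.enorm.pow_const q
        · exact hg.enorm.pow_const q
        · exact hh.enorm.pow_const q)
      (by
        simp only [Fin.sum_univ_three, Matrix.cons_val_zero, Matrix.cons_val_one,
          Matrix.cons_val_two, Matrix.head_cons, Matrix.tail_cons]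
        field_simp
        ring)
      (by
        intro i _
        fin_cases i
        · exact div_nonneg hq2 hq0.le
        · exact div_nonneg zero_le_one hq0.le
        · exact div_nonneg zero_le_one hq0.le)
    simp only [Fin.prod_univ_three, Matrix.cons_val_zero, Matrix.cons_val_one,
      Matrix.cons_val_two, Matrix.head_cons, Matrix.tail_cons] at H
    have e1 : ∀ x : ℝ≥0∞, (x ^ q) ^ ((q - 2) / q) = x ^ (q - 2) := by
      intro x
      rw [← ENNReal.rpow_mul]
      congr 1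
      field_simp
    have e2 : ∀ x : ℝ≥0∞, (x ^ q) ^ (1 / q) = x := by
      intro x
      rw [← ENNReal.rpow_mul, mul_one_div_cancel hq0.ne', ENNReal.rpow_one]
    simp only [e1, e2] at H
    refine H.trans ?_
    have r1 : (∫⁻ x, ‖f x‖ₑ ^ q ∂μ) ^ ((q - 2) / q) ≤ ENNReal.ofReal (A ^ (q - 2)) := by
      refine (ENNReal.rpow_le_rpow (lint_rpow_le hq hA hfA) (div_nonneg hq2 hq0.le)).trans
        (le_of_eq ?_)
      rw [← ENNReal.ofReal_rpow_of_nonneg hA hq0.le, e1, ENNReal.ofReal_rpow_of_nonneg hA hq2]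
    have r2 : ∀ {k : α → ℝ} {D : ℝ}, 0 ≤ D →
        eLpNorm k (ENNReal.ofReal q) μ ≤ ENNReal.ofReal D →
        (∫⁻ x, ‖k x‖ₑ ^ q ∂μ) ^ (1 / q) ≤ ENNReal.ofReal D := by
      intro k D hD hk
      refine (ENNReal.rpow_le_rpow (lint_rpow_le hq hD hk) (by positivity)).trans
        (le_of_eq ?_)
      rw [← ENNReal.ofReal_rpow_of_nonneg hD hq0.le, e2]
    rw [ENNReal.ofReal_mul (by positivity), ENNReal.ofReal_mul (by positivity)]
    exact mul_le_mul' (mul_le_mul' r1 (r2 hB hgB)) (r2 hC hhC)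
  have hmeas : AEStronglyMeasurable (fun x => |f x| ^ (q - 2) * |g x| * |h x|) μ := by
    have c1 : Continuous (fun y : ℝ => |y| ^ (q - 2)) :=
      (Real.continuous_rpow_const hq2).comp continuous_abs
    exact ((c1.comp_aestronglyMeasurable hf).mul hg.norm).mul hh.norm
  have he : ∀ x, ‖(|f x| ^ (q - 2) * |g x| * |h x|)‖ₑ = ‖f x‖ₑ ^ (q - 2) * ‖g x‖ₑ * ‖h x‖ₑ := by
    intro x
    rw [enorm_mul, enorm_mul, Real.enorm_rpow_of_nonneg (abs_nonneg _) hq2]
    simp only [← Real.norm_eq_abs, enorm_norm]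
  constructor
  · refine ⟨hmeas, ?_⟩
    rw [hasFiniteIntegral_iff_enorm]
    simp only [he]
    exact key.trans_lt ENNReal.ofReal_lt_top
  · rw [integral_eq_lintegral_of_nonneg_ae (ae_of_all _ fun x => by positivity) hmeas]
    refine ENNReal.toReal_le_of_le_ofReal (by positivity) ?_
    refine le_trans (le_of_eq ?_) key
    refine lintegral_congr fun x => ?_
    rw [← he, Real.enorm_of_nonneg (by positivity)]

/-- Brezis–Lieb type convergence. -/
lemma BL_conv {q : ℝ} (hq : 2 < q) (F : ℝ → ℝ → ℝ) (hF : Continuous (Function.uncurry F))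
    (hF0 : ∀ a, F a 0 = 0) (K : ℝ) (hK : 0 ≤ K)
    (hFK : ∀ a w, |F a w| ≤ K * ((|a| + 2 * |w|) ^ (q - 1) * |a|))
    {f : α → ℝ} (hf : AEStronglyMeasurable f μ) {A : ℝ} (hA : 0 ≤ A)
    (hfA : eLpNorm f (ENNReal.ofReal q) μ ≤ ENNReal.ofReal A)
    {w : ℕ → α → ℝ} (hw : ∀ n, AEStronglyMeasurable (w n) μ) {B : ℝ} (hB : 0 ≤ B)
    (hwB : ∀ n, eLpNorm (w n) (ENNReal.ofReal q) μ ≤ ENNReal.ofReal B)
    (hw0 : TendstoInMeasure μ w atTop (fun _ => 0)) :
    (∀ n, Integrable (fun x => F (f x) (w n x)) μ) ∧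
      Tendsto (fun n => ∫ x, F (f x) (w n x) ∂μ) atTop (𝓝 0) := by
  have hmeasF : ∀ n, AEStronglyMeasurable (fun x => F (f x) (w n x)) μ := fun n =>
    hF.comp_aestronglyMeasurable (hf.prodMk (hw n))
  obtain ⟨hfi, hfle⟩ := int_rpow_le hq hf hA hfA
  have hwi := fun n => int_rpow_le hq (hw n) hB (hwB n)
  have hint : ∀ n, Integrable (fun x => F (f x) (w n x)) μ := by
    intro n
    obtain ⟨C, hC0, hC⟩ := young_split hq K 1 hK one_pos
    refine Integrable.mono' (((hwi n).1.const_mul 1).add (hfi.const_mul C)) (hmeasF n)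
      (ae_of_all _ fun x => ?_)
    exact (hFK _ _).trans (hC _ _ (abs_nonneg _) (abs_nonneg _))
  refine ⟨hint, ?_⟩
  refine tendsto_of_subseq_tendsto fun ns hns => ?_
  have hsub : TendstoInMeasure μ (fun n => w (ns n)) atTop (fun _ => 0) := fun ε hε =>
    (hw0 ε hε).comp hns
  obtain ⟨ms, _, hms⟩ := hsub.exists_seq_tendsto_ae
  refine ⟨ms, ?_⟩
  rw [Metric.tendsto_atTop]
  intro ε hε
  have hη : 0 < ε / (2 * (B ^ q + 1)) := by positivity
  obtain ⟨C, hC0, hC⟩ := young_split hq K _ hK hη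
  set η : ℝ := ε / (2 * (B ^ q + 1)) with hηdef
  -- truncated functions
  have hG : Tendsto (fun n => ∫ x, max (|F (f x) (w (ns (ms n)) x)| - η * |w (ns (ms n)) x| ^ q) 0 ∂μ)
      atTop (𝓝 (∫ _, (0:ℝ) ∂μ)) := by
    refine tendsto_integral_of_dominated_convergence (fun x => C * |f x| ^ q) ?_
      (hfi.const_mul C) ?_ ?_
    · intro n
      exact ((hint _).abs.aestronglyMeasurable.sub
        (((hwi _).1.const_mul η).aestronglyMeasurable)).sup aestronglyMeasurable_const
    · intro n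
      refine ae_of_all _ fun x => ?_
      rw [Real.norm_of_nonneg (le_max_right _ _)]
      refine max_le ?_ (by positivity)
      have := (hFK (f x) (w (ns (ms n)) x)).trans (hC _ _ (abs_nonneg _) (abs_nonneg _))
      linarith
    · filter_upwards [hms] with x hx
      have h1 : Tendsto (fun n => F (f x) (w (ns (ms n)) x)) atTop (𝓝 0) := by
        have h2 : Tendsto (fun n => Function.uncurry F (f x, w (ns (ms n)) x)) atTop
            (𝓝 (Function.uncurry F (f x, 0))) :=
          (hF.tendsto (f x, 0)).comp (tendsto_const_nhds.prodMk_nhds hx)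
        simpa [Function.uncurry, hF0] using h2
      have h3 : Tendsto (fun n => η * |w (ns (ms n)) x| ^ q) atTop (𝓝 0) := by
        have c1 : Continuous (fun y : ℝ => η * |y| ^ q) :=
          continuous_const.mul
            ((Real.continuous_rpow_const (show (0:ℝ) ≤ q by linarith)).comp continuous_abs)
        have h4 := (c1.tendsto 0).comp hx
        simpa [Function.comp_def, Real.zero_rpow (show q ≠ 0 by linarith)] using h4
      have h5 := (h1.abs.sub h3).max (tendsto_const_nhds (x := (0:ℝ)))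
      simpa using h5
  simp only [integral_zero] at hG
  rw [Metric.tendsto_atTop] at hG
  obtain ⟨N, hN⟩ := hG (ε / 2) (by positivity)
  refine ⟨N, fun n hn => ?_⟩
  have h1 := hN n hn
  rw [dist_zero_right, Real.norm_eq_abs] at h1 ⊢
  have hGi : Integrable (fun x => max (|F (f x) (w (ns (ms n)) x)|
      - η * |w (ns (ms n)) x| ^ q) 0) μ :=
    ((hint _).abs.sub ((hwi _).1.const_mul η)).sup (integrable_zero _ _ _)
  have h2 : |∫ x, F (f x) (w (ns (ms n)) x) ∂μ| ≤
      ∫ x, max (|F (f x) (w (ns (ms n)) x)| - η * |w (ns (ms n)) x| ^ q) 0 ∂μ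
        + η * ∫ x, |w (ns (ms n)) x| ^ q ∂μ := by
    rw [← integral_const_mul, ← integral_add hGi ((hwi _).1.const_mul η)]
    refine (abs_integral_le_integral_abs).trans (integral_mono (hint _).abs
      (hGi.add ((hwi _).1.const_mul η)) fun x => ?_)
    have := le_max_left (|F (f x) (w (ns (ms n)) x)| - η * |w (ns (ms n)) x| ^ q) 0
    simp only
    linarith
  have h3 : η * ∫ x, |w (ns (ms n)) x| ^ q ∂μ < ε / 2 := by
    have h4 := (hwi (ns (ms n))).2
    have h5 : η * (B ^ q + 1) = ε / 2 := by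
      rw [hηdef]; field_simp
    have h6 : η * ∫ x, |w (ns (ms n)) x| ^ q ∂μ < η * (B ^ q + 1) := by
      apply mul_lt_mul_of_pos_left _ hη
      linarith
    linarith
  have h7 := le_abs_self (∫ x, max (|F (f x) (w (ns (ms n)) x)|
      - η * |w (ns (ms n)) x| ^ q) 0 ∂μ)
  linarith

end Integral


/-! ### The main statement -/

/-- (P3) the critical term on an abstract Hilbert space embedded in L^q -/
theorem psi_data {α : Type*} [MeasurableSpace α] (μ : Measure α) [IsFiniteMeasure μ]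
    {H : Type*} [NormedAddCommGroup H] [InnerProductSpace ℝ H] [CompleteSpace H]
    (ι : H →L[ℝ] Lp ℝ 2 μ) (q S : ℝ) (hq2 : 2 < q) (_hq4 : q < 4) (hS : 0 ≤ S)
    (hSob : ∀ u : H, eLpNorm (ι u) (ENNReal.ofReal q) μ ≤ ENNReal.ofReal (S * ‖u‖)) :
    ∃ DΨ : H → H,
      (∀ u φ, ⟪DΨ u, φ⟫ = ∫ x, |ι u x| ^ (q - 2) * ι u x * ι φ x ∂μ) ∧
      (∀ u, HasGradientAt (fun u => (1 / q) * ∫ x, |ι u x| ^ q ∂μ) (DΨ u) u) ∧
      (∃ c, 0 ≤ c ∧ ∀ u w, ‖DΨ u - DΨ w‖ ≤ c * (‖u‖ + ‖w‖) ^ (q - 2) * ‖u - w‖) ∧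
      ∀ (v : ℕ → H) (x : H) (R : ℝ), (∀ n, ‖v n‖ ≤ R) →
        Tendsto (fun n => ι (v n)) atTop (𝓝 (ι x)) →
        Tendsto (fun n => (1 / q) * ∫ y, |ι (v n) y| ^ q ∂μ - (1 / q) * ∫ y, |ι x y| ^ q ∂μ
            - (1 / q) * ∫ y, |ι (v n - x) y| ^ q ∂μ) atTop (𝓝 0) ∧
          Tendsto (fun n => ⟪DΨ (v n), v n - x⟫ - q * ((1 / q) * ∫ y, |ι (v n - x) y| ^ q ∂μ))
            atTop (𝓝 0) := by
  have hq0 : 0 < q := by linarith
  have hqm2 : 0 ≤ q - 2 := by linarith
  have hq1 : 0 ≤ q - 1 := by linarith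
  have hm : ∀ u : H, AEStronglyMeasurable (ι u : α → ℝ) μ := fun u => Lp.aestronglyMeasurable _
  have hN : ∀ u : H, 0 ≤ S * ‖u‖ := fun u => by positivity
  have hint : ∀ u : H, Integrable (fun x => |ι u x| ^ q) μ := fun u =>
    (int_rpow_le hq2 (hm u) (hN u) (hSob u)).1
  have hadd : ∀ u w : H, (ι (u + w) : α → ℝ) =ᵐ[μ] fun x => ι u x + ι w x := by
    intro u w
    rw [map_add]
    exact Lp.coeFn_add _ _
  have hsub : ∀ u w : H, (ι (u - w) : α → ℝ) =ᵐ[μ] fun x => ι u x - ι w x := by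
    intro u w
    rw [map_sub]
    exact Lp.coeFn_sub _ _
  have hsmul : ∀ (c : ℝ) (u : H), (ι (c • u) : α → ℝ) =ᵐ[μ] fun x => c * ι u x := by
    intro c u
    rw [map_smul]
    exact Lp.coeFn_smul _ _
  have isub3 : ∀ (f g h : α → ℝ), Integrable f μ → Integrable g μ → Integrable h μ →
      ∫ x, f x ∂μ - ∫ x, g x ∂μ - ∫ x, h x ∂μ = ∫ x, (f x - g x - h x) ∂μ := by
    intro f g h hf hg hh
    have h1 : ∫ x, (f x - g x - h x) ∂μ = ∫ x, (f x - g x) ∂μ - ∫ x, h x ∂μ :=
      integral_sub (hf.sub hg) hh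
    rw [h1, integral_sub hf hg]
  have cg : Continuous (fun y : ℝ => |y| ^ (q - 2) * y) :=
    ((Real.continuous_rpow_const hqm2).comp continuous_abs).mul continuous_id
  -- integrability of the linear functional
  have hLi : ∀ u φ : H, Integrable (fun x => |ι u x| ^ (q - 2) * ι u x * ι φ x) μ := by
    intro u φ
    refine Integrable.mono (holder3 hq2 (hm u) (hm u) (hm φ) (hN u) (hN u) (hN φ) (hSob u) (hSob u)
      (hSob φ)).1 ((cg.comp_aestronglyMeasurable (hm u)).mul (hm φ)) (ae_of_all _ fun x => ?_)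
    simp only [norm_mul, Real.norm_eq_abs, abs_abs]
    exact le_rfl
  have hLb : ∀ u φ : H, |∫ x, |ι u x| ^ (q - 2) * ι u x * ι φ x ∂μ| ≤
      (S * ‖u‖) ^ (q - 2) * (S * ‖u‖) * (S * ‖φ‖) := by
    intro u φ
    have h := (holder3 hq2 (hm u) (hm u) (hm φ) (hN u) (hN u) (hN φ) (hSob u) (hSob u) (hSob φ))
    refine (abs_integral_le_integral_abs).trans (le_trans (le_of_eq ?_) h.2)
    refine integral_congr_ae (ae_of_all _ fun x => ?_)
    simp only [abs_mul]
    rw [abs_of_nonneg (Real.rpow_nonneg (abs_nonneg _) _)]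
  -- the functional
  let L : H → (H →L[ℝ] ℝ) := fun u => LinearMap.mkContinuous
    { toFun := fun φ => ∫ x, |ι u x| ^ (q - 2) * ι u x * ι φ x ∂μ
      map_add' := by
        intro φ ψ
        rw [← integral_add (hLi u φ) (hLi u ψ)]
        refine integral_congr_ae ?_
        filter_upwards [hadd φ ψ] with x hx
        rw [hx]; ring
      map_smul' := by
        intro c φ
        rw [RingHom.id_apply, smul_eq_mul, ← integral_const_mul]
        refine integral_congr_ae ?_
        filter_upwards [hsmul c φ] with x hx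
        rw [hx]; ring }
    ((S * ‖u‖) ^ (q - 2) * (S * ‖u‖) * S)
    (by
      intro φ
      have := hLb u φ
      rw [Real.norm_eq_abs]
      refine this.trans (le_of_eq ?_)
      ring)
  let D : H → H := fun u => (InnerProductSpace.toDual ℝ H).symm (L u)
  have hD : ∀ u φ, ⟪D u, φ⟫ = ∫ x, |ι u x| ^ (q - 2) * ι u x * ι φ x ∂μ := by
    intro u φ
    simp only [D, InnerProductSpace.toDual_symm_apply]
    rfl
  have habs : ∀ (f : α → ℝ) (A : ℝ), eLpNorm f (ENNReal.ofReal q) μ ≤ ENNReal.ofReal A →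
      eLpNorm (fun x => |f x|) (ENNReal.ofReal q) μ ≤ ENNReal.ofReal A := by
    intro f A h
    have := eLpNorm_norm (p := ENNReal.ofReal q) (μ := μ) f
    simp only [Real.norm_eq_abs] at this
    rw [this]; exact h
  have h1q : (1 : ℝ≥0∞) ≤ ENNReal.ofReal q := by
    rw [← ENNReal.ofReal_one]
    exact ENNReal.ofReal_le_ofReal (by linarith)
  refine ⟨D, hD, ?_, ⟨(q - 1) * S ^ (q - 2) * S * S, by positivity, ?_⟩, ?_⟩
  · -- gradient
    intro u
    rw [hasGradientAt_iff_isLittleO_nhds_zero, Asymptotics.isLittleO_iff]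
    intro c hc
    -- quadratic estimate
    have hquad : ∀ h : H, |(1 / q) * ∫ x, |ι (u + h) x| ^ q ∂μ - (1 / q) * ∫ x, |ι u x| ^ q ∂μ
        - ⟪D u, h⟫| ≤ (q - 1) * ((S * (2 * ‖u‖ + ‖h‖)) ^ (q - 2) * (S * ‖h‖) * (S * ‖h‖)) := by
      intro h
      have hm1 : AEStronglyMeasurable (fun x => 2 * |ι u x| + |ι h x|) μ :=
        ((hm u).norm.const_mul 2).add (hm h).norm
      have hb1 : eLpNorm (fun x => 2 * |ι u x| + |ι h x|) (ENNReal.ofReal q) μ
          ≤ ENNReal.ofReal (S * (2 * ‖u‖ + ‖h‖)) := by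
        have e : (fun x => 2 * |ι u x| + |ι h x|) = (fun x => |ι u x|) + ((fun x => |ι u x|) +
          (fun x => |ι h x|)) := by
          funext x; simp only [Pi.add_apply]; ring
        rw [e]
        refine (eLpNorm_add_le (hm u).norm ((hm u).norm.add (hm h).norm) h1q).trans ?_
        refine (add_le_add (habs _ _ (hSob u)) ((eLpNorm_add_le (hm u).norm (hm h).norm h1q).trans
          (add_le_add (habs _ _ (hSob u)) (habs _ _ (hSob h))))).trans (le_of_eq ?_)
        rw [← ENNReal.ofReal_add (hN _) (hN _), ← ENNReal.ofReal_add (hN _) (by positivity)]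
        congr 1; ring
      have hh3 := holder3 hq2 hm1 (hm h) (hm h) (by positivity) (hN h) (hN h) hb1 (hSob h) (hSob h)
      rw [hD, ← integral_const_mul, ← integral_const_mul,
        isub3 _ _ _ ((hint _).const_mul _) ((hint _).const_mul _) (hLi u h)]
      have hh4 := mul_le_mul_of_nonneg_left hh3.2 hq1
      rw [← integral_const_mul] at hh4
      refine le_trans ?_ hh4
      refine (abs_integral_le_integral_abs).trans (integral_mono_ae
        ((((hint _).const_mul _).sub ((hint _).const_mul _)).sub (hLi u h)).abs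
        (hh3.1.const_mul _) ?_)
      filter_upwards [hadd u h] with x hx
      rw [hx]
      have := G_bound hq2 (ι u x) (ι h x)
      rw [abs_of_nonneg (show 0 ≤ 2 * |ι u x| + |ι h x| by positivity)]
      refine this.trans (le_of_eq ?_)
      ring
    set M : ℝ := (q - 1) * ((S * (2 * ‖u‖ + 1)) ^ (q - 2) * S * S) with hM
    have hM0 : 0 ≤ M := by positivity
    have hδ : 0 < min 1 (c / (M + 1)) := lt_min one_pos (by positivity)
    filter_upwards [Metric.ball_mem_nhds (0 : H) hδ] with h hh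
    rw [mem_ball_zero_iff] at hh
    have hh1 : ‖h‖ ≤ 1 := (hh.trans_le (min_le_left _ _)).le
    have hh2 : ‖h‖ ≤ c / (M + 1) := (hh.trans_le (min_le_right _ _)).le
    rw [Real.norm_eq_abs]
    refine (hquad h).trans ?_
    have h5 : (S * (2 * ‖u‖ + ‖h‖)) ^ (q - 2) ≤ (S * (2 * ‖u‖ + 1)) ^ (q - 2) := by
      apply Real.rpow_le_rpow (by positivity) _ hqm2
      gcongr
    calc (q - 1) * ((S * (2 * ‖u‖ + ‖h‖)) ^ (q - 2) * (S * ‖h‖) * (S * ‖h‖))
        ≤ (q - 1) * ((S * (2 * ‖u‖ + 1)) ^ (q - 2) * (S * ‖h‖) * (S * ‖h‖)) := by gcongr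
      _ = M * ‖h‖ * ‖h‖ := by rw [hM]; ring
      _ ≤ c * ‖h‖ := by
          apply mul_le_mul_of_nonneg_right _ (norm_nonneg _)
          rw [le_div_iff₀ (by positivity)] at hh2
          nlinarith [norm_nonneg h]
  · -- Lipschitz estimate
    intro u w
    set d : H := D u - D w with hd
    have hm1 : AEStronglyMeasurable (fun x => |ι u x| + |ι w x|) μ := (hm u).norm.add (hm w).norm
    have hb1 : eLpNorm (fun x => |ι u x| + |ι w x|) (ENNReal.ofReal q) μ
        ≤ ENNReal.ofReal (S * (‖u‖ + ‖w‖)) := by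
      refine ((eLpNorm_add_le (hm u).norm (hm w).norm h1q).trans
          (add_le_add (habs _ _ (hSob u)) (habs _ _ (hSob w)))).trans (le_of_eq ?_)
      rw [← ENNReal.ofReal_add (hN _) (hN _)]
      congr 1; ring
    have hh3 := holder3 hq2 hm1 (hm (u - w)) (hm d) (by positivity) (hN _) (hN _) hb1
      (hSob _) (hSob _)
    have h1 : ‖d‖ * ‖d‖ ≤ (q - 1) * ((S * (‖u‖ + ‖w‖)) ^ (q - 2) * (S * ‖u - w‖) * (S * ‖d‖)) := by
      have e0 : ‖d‖ * ‖d‖ = ⟪D u, d⟫ - ⟪D w, d⟫ := by
        rw [← inner_sub_left, ← hd, real_inner_self_eq_norm_mul_norm]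
      rw [e0, hD, hD, ← integral_sub (hLi u d) (hLi w d)]
      have hh4 := mul_le_mul_of_nonneg_left hh3.2 hq1
      rw [← integral_const_mul] at hh4
      refine le_trans ?_ hh4
      refine integral_mono_ae ((hLi u d).sub (hLi w d)) (hh3.1.const_mul _) ?_
      filter_upwards [hsub u w] with x hx
      rw [hx]
      have h2 := g_lip hq2 (ι u x) (ι w x)
      rw [abs_of_nonneg (show 0 ≤ |ι u x| + |ι w x| by positivity)]
      calc |ι u x| ^ (q - 2) * ι u x * ι d x - |ι w x| ^ (q - 2) * ι w x * ι d x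
          = (|ι u x| ^ (q - 2) * ι u x - |ι w x| ^ (q - 2) * ι w x) * ι d x := by ring
        _ ≤ |(|ι u x| ^ (q - 2) * ι u x - |ι w x| ^ (q - 2) * ι w x) * ι d x| := le_abs_self _
        _ = |(|ι u x| ^ (q - 2) * ι u x - |ι w x| ^ (q - 2) * ι w x)| * |ι d x| := abs_mul _ _
        _ ≤ ((q - 1) * (|ι u x| + |ι w x|) ^ (q - 2) * |ι u x - ι w x|) * |ι d x| := by gcongr
        _ = _ := by ring
    rcases (norm_nonneg d).eq_or_lt with h0 | h0
    · rw [← h0]; positivity
    · have h2 : (S * (‖u‖ + ‖w‖)) ^ (q - 2) = S ^ (q - 2) * (‖u‖ + ‖w‖) ^ (q - 2) :=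
        Real.mul_rpow hS (by positivity)
      rw [h2] at h1
      refine le_of_mul_le_mul_right (h1.trans (le_of_eq ?_)) h0
      ring
  · -- Brezis–Lieb
    intro v x R hR hv
    have hR0 : 0 ≤ R := (norm_nonneg _).trans (hR 0)
    have hwB : ∀ n, eLpNorm (ι (v n - x) : α → ℝ) (ENNReal.ofReal q) μ
        ≤ ENNReal.ofReal (S * (R + ‖x‖)) := by
      intro n
      refine (hSob _).trans (ENNReal.ofReal_le_ofReal ?_)
      have : ‖v n - x‖ ≤ R + ‖x‖ := (norm_sub_le _ _).trans (by linarith [hR n])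
      gcongr
    have hw0 : TendstoInMeasure μ (fun n => (ι (v n - x) : α → ℝ)) atTop (fun _ => 0) := by
      have h1 : Tendsto (fun n => ι (v n - x)) atTop (𝓝 0) := by
        have h2 := hv.sub_const (ι x)
        simpa [map_sub] using h2
      have h3 := tendstoInMeasure_of_tendsto_Lp h1
      exact h3.congr_right (Lp.coeFn_zero ℝ 2 μ)
    have hB0 : 0 ≤ S * (R + ‖x‖) := by positivity
    have cq : Continuous (fun y : ℝ => |y| ^ q) :=
      (Real.continuous_rpow_const hq0.le).comp continuous_abs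
    have c1 : Continuous (Function.uncurry fun a w : ℝ =>
        (1 / q) * |a + w| ^ q - (1 / q) * |a| ^ q - (1 / q) * |w| ^ q) := by
      simp only [Function.uncurry_def]
      exact ((continuous_const.mul (cq.comp (continuous_fst.add continuous_snd))).sub
        (continuous_const.mul (cq.comp continuous_fst))).sub
        (continuous_const.mul (cq.comp continuous_snd))
    have c2 : Continuous (Function.uncurry fun a w : ℝ =>
        |a + w| ^ (q - 2) * (a + w) * w - |w| ^ q) := by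
      simp only [Function.uncurry_def]
      exact ((cg.comp (continuous_fst.add continuous_snd)).mul continuous_snd).sub
        (cq.comp continuous_snd)
    have B1 := BL_conv hq2 _ c1 (by
        intro a
        simp [Real.zero_rpow hq0.ne']) 2 (by norm_num) (fun a w => BL1 hq2 a w) (hm x) (hN x)
        (hSob x) (fun n => hm (v n - x)) hB0 hwB hw0
    have B2 := BL_conv hq2 _ c2 (by
        intro a
        simp [Real.zero_rpow hq0.ne']) (q - 1) hq1 (fun a w => BL2 hq2 a w) (hm x) (hN x)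
        (hSob x) (fun n => hm (v n - x)) hB0 hwB hw0
    constructor
    · refine B1.2.congr fun n => ?_
      rw [← integral_const_mul, ← integral_const_mul, ← integral_const_mul,
        isub3 _ _ _ ((hint _).const_mul _) ((hint _).const_mul _) ((hint _).const_mul _)]
      refine integral_congr_ae ?_
      filter_upwards [hsub (v n) x] with y hy
      rw [hy, add_sub_cancel]
    · refine B2.2.congr fun n => ?_
      rw [hD, ← mul_assoc, mul_one_div_cancel hq0.ne', one_mul, ← integral_sub (hLi _ _) (hint _)]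
      refine integral_congr_ae ?_
      filter_upwards [hsub (v n) x] with y hy
      rw [hy, add_sub_cancel]

end Pool.Agent.Work.MP_804706_an
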