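import Mathlib
import Pool.Agent.Work.MP_804706_an.Abstract
import Pool.Agent.Work.MP_804706_an.Iota
import Pool.Agent.Work.MP_804706_an.P3

set_option autoImplicit false

open Set Metric Filter InnerProductSpace MeasureTheory
open scoped Topology RealInnerProductSpace ENNReal ContDiff NNReal

namespace Pool.Agent.Work.MP_804706_an

variable {N : ℕ} {Ω : Set (Eu N)}

theorem iota_eq (hN : 2 < N) (hΩ : Bornology.IsBounded Ω)
    (ι : HSp Ω →L[ℝ] LL Ω) (hι : ∀ g : HSp Ω, (ι g, (g : LV Ω)) ∈ H01 Ω)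
    (p : LL Ω × LV Ω) (hp : p ∈ H01 Ω) (h : p.2 ∈ HSp Ω) : ι ⟨p.2, h⟩ = p.1 := by
  obtain ⟨P, hP0, hP⟩ := poincare (Ω := Ω) hN hΩ
  have h1 : (ι ⟨p.2, h⟩ - p.1, (0 : LV Ω)) ∈ WW Ω := by
    have h2 := (WW Ω).sub_mem (mem_WW.2 (hι ⟨p.2, h⟩)) (mem_WW.2 hp)
    convert! h2 using 1
    exact Prod.ext rfl (sub_self _).symm
  have h3 := hP _ (mem_WW.1 h1)
  rw [norm_zero, mul_zero] at h3
  exact sub_eq_zero.1 (norm_le_zero_iff.1 h3)

theorem iota_inj (hΩo : IsOpen Ω) (hΩ : Bornology.IsBounded Ω)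
    (ι : HSp Ω →L[ℝ] LL Ω) (hι : ∀ g : HSp Ω, (ι g, (g : LV Ω)) ∈ H01 Ω) :
    Function.Injective ι := by
  rw [injective_iff_map_eq_zero]
  intro g hg
  have h1 := hι g
  rw [hg] at h1
  exact Subtype.ext (closable hΩo hΩ _ h1)

theorem rpow_small (K q ε : ℝ) (hq : q < 4) (hε : 0 < ε) :
    ∃ S, ∀ s : ℝ, S ≤ s → K * |s| ^ (q - 2) ≤ ε * s ^ 2 := by
  have h1 : Tendsto (fun s : ℝ => K * s ^ (-(4 - q))) atTop (𝓝 (K * 0)) :=
    (tendsto_rpow_neg_atTop (by linarith)).const_mul K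
  rw [mul_zero] at h1
  have h2 := h1.eventually_le_const hε
  obtain ⟨S, hS⟩ := eventually_atTop.1 h2
  refine ⟨max S 1, fun s hs => ?_⟩
  have hs1 : 0 < s := by
    have := (le_max_right S 1).trans hs
    linarith
  have h3 := hS s ((le_max_left _ _).trans hs)
  rw [abs_of_pos hs1]
  have h4 : s ^ (q - 2) = s ^ (-(4 - q)) * s ^ 2 := by
    rw [← Real.rpow_natCast s 2, ← Real.rpow_add hs1]
    congr 1
    push_cast
    ring
  rw [h4, ← mul_assoc]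
  gcongr

theorem norm_sq_LV (g : LV Ω) : ‖g‖ ^ 2 = ∫ x in Ω, ‖g x‖ ^ 2 := by
  rw [← real_inner_self_eq_norm_sq, L2.inner_def]
  simp only [real_inner_self_eq_norm_sq]

theorem norm_sq_LL (g : LL Ω) : ‖g‖ ^ 2 = ∫ x in Ω, (g x) ^ 2 := by
  rw [← real_inner_self_eq_norm_sq, L2.inner_def]
  simp only [real_inner_self_eq_norm_sq, Real.norm_eq_abs, sq_abs]

/-- construction of the abstract data -/
theorem exists_data_abs {α : Type*} [MeasurableSpace α] (μ : Measure α) [IsFiniteMeasure μ]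
    {H : Type*} [NormedAddCommGroup H] [InnerProductSpace ℝ H] [CompleteSpace H]
    (ι : H →L[ℝ] Lp ℝ 2 μ) (q S : ℝ) (hq2 : 2 < q) (hq4 : q < 4) (hS0 : 0 ≤ S)
    (hSob : ∀ u : H, eLpNorm (ι u) (ENNReal.ofReal q) μ ≤ ENNReal.ofReal (S * ‖u‖))
    (hinj : Function.Injective ι) (hcpt : IsCompactOperator ι) :
    ∃ D : KData H (Lp ℝ 2 μ), D.ι = ι ∧
      (∀ u, D.Ψ u = 1 / q * ∫ x, |ι u x| ^ q ∂μ) ∧
      (∀ u φ, ⟪D.DΨ u, φ⟫ = ∫ x, |ι u x| ^ (q - 2) * ι u x * ι φ x ∂μ) := by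
  obtain ⟨DΨ, h1, h2, ⟨c, hc0, hc⟩, h4⟩ := psi_data μ ι q S hq2 hq4 hS0 hSob
  have hq0 : 0 < q := by linarith
  set K := max c (1 / q * S ^ q) with hK
  have hK0 : 0 ≤ K := hc0.trans (le_max_left _ _)
  refine ⟨{ ι := ι, inj := hinj, cpt := hcpt,
            Ψ := fun u => 1 / q * ∫ x, |ι u x| ^ q ∂μ, DΨ := DΨ,
            θ := fun s => K * |s| ^ (q - 2), q := q, hq0 := hq0.le, hq4 := hq4.le,
            θ_nonneg := ?_, θ_mono := ?_, θ_small := ?_, nonneg := ?_, even := ?_,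
            bound := ?_, grad := h2, lip := ?_, bl := ?_ }, rfl, fun u => rfl, h1⟩
  · intro s
    positivity
  · intro s t hs hst
    have : 0 ≤ t := hs.trans hst
    rw [abs_of_nonneg hs, abs_of_nonneg this]
    have : 0 ≤ q - 2 := by linarith
    gcongr
  · intro ε hε
    exact rpow_small K q ε hq4 hε
  · intro u
    have : 0 ≤ ∫ x, |ι u x| ^ q ∂μ := integral_nonneg fun x => by positivity
    positivity
  · intro u
    congr 1
    apply integral_congr_ae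
    rw [map_neg]
    filter_upwards [Lp.coeFn_neg (ι u)] with x hx
    rw [hx, Pi.neg_apply, abs_neg]
  · intro u
    have h5 := (int_rpow_le hq2 (Lp.aestronglyMeasurable (ι u)) (by positivity) (hSob u)).2
    rw [abs_of_nonneg (norm_nonneg u)]
    have h6 : ‖u‖ ^ q = ‖u‖ ^ (q - 2) * ‖u‖ ^ 2 := by
      rw [← Real.rpow_natCast ‖u‖ 2, ← Real.rpow_add' (norm_nonneg u)]
      · congr 1
        push_cast
        ring
      · push_cast
        linarith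
    rw [Real.mul_rpow hS0 (norm_nonneg u)] at h5
    calc 1 / q * ∫ x, |ι u x| ^ q ∂μ ≤ 1 / q * (S ^ q * ‖u‖ ^ q) := by gcongr
      _ = (1 / q * S ^ q) * (‖u‖ ^ (q - 2) * ‖u‖ ^ 2) := by rw [h6]; ring
      _ ≤ K * (‖u‖ ^ (q - 2) * ‖u‖ ^ 2) := by
          gcongr
          exact le_max_right _ _
      _ = K * ‖u‖ ^ (q - 2) * ‖u‖ ^ 2 := by ring
  · intro u w
    refine (hc u w).trans ?_
    rw [abs_of_nonneg (by positivity : 0 ≤ ‖u‖ + ‖w‖)]
    gcongr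
    exact le_max_left _ _
  · intro v x R hv _ hlim
    exact h4 v x R hv hlim

/-- the abstract data of the concrete problem -/
theorem exists_data (hN : 4 < N) (hΩo : IsOpen Ω) (hΩ : Bornology.IsBounded Ω)
    (ι : HSp Ω →L[ℝ] LL Ω) (hι : ∀ g : HSp Ω, (ι g, (g : LV Ω)) ∈ H01 Ω)
    (hcpt : IsCompactOperator ι) :
    ∃ D : KData (HSp Ω) (LL Ω), D.ι = ι ∧
      (∀ u, D.Ψ u = 1 / critExp N * ∫ x in Ω, |ι u x| ^ critExp N) ∧
      (∀ u φ, ⟪D.DΨ u, φ⟫ = ∫ x in Ω, |ι u x| ^ (critExp N - 2) * ι u x * ι φ x) := by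
  have hfin : IsFiniteMeasure (volume.restrict Ω) := ⟨by
    rw [Measure.restrict_apply_univ]
    exact hΩ.measure_lt_top⟩
  obtain ⟨hq2, hq4⟩ := one_lt_critExp hN
  obtain ⟨S, hS0, hS⟩ := sobolev (Ω := Ω) hN
  have hSob : ∀ u : HSp Ω, eLpNorm (ι u) (ENNReal.ofReal (critExp N)) (volume.restrict Ω) ≤
      ENNReal.ofReal (S * ‖u‖) := by
    intro u
    have h := hS (ι u, (u : LV Ω)) (hι u)
    exact h
  have hinj := iota_inj hΩo hΩ ι hι
  exact exists_data_abs (volume.restrict Ω) ι (critExp N) S hq2 hq4 hS0 hSob hinj hcpt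

theorem energy_eq (D : KData (HSp Ω) (LL Ω)) (ι : HSp Ω →L[ℝ] LL Ω) (hD : D.ι = ι)
    (hΨ : ∀ u, D.Ψ u = 1 / critExp N * ∫ x in Ω, |ι u x| ^ critExp N)
    (a b lam : ℝ) (v : LL Ω) (u : HSp Ω) :
    D.E a b lam v u = energy Ω a b lam v (ι u, (u : LV Ω)) := by
  have h1 : ‖u‖ ^ 2 = ∫ x in Ω, ‖(u : LV Ω) x‖ ^ 2 := norm_sq_LV (u : LV Ω)
  have h3 : ‖ι u - v‖ ^ 2 = ∫ x in Ω, (ι u x - v x) ^ 2 := by
    rw [norm_sq_LL]
    apply integral_congr_ae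
    filter_upwards [Lp.coeFn_sub (ι u) v] with x hx
    rw [hx, Pi.sub_apply]
  have h4 : D.E a b lam v u = a / 2 * ‖u‖ ^ 2 + b / 4 * (‖u‖ ^ 2) ^ 2 - D.Ψ u
      - lam / 2 * ‖ι u - v‖ ^ 2 := by
    unfold KData.E KData.I
    rw [hD]
    ring
  rw [h4, h1, h3, hΨ]
  rfl

end Pool.Agent.Work.MP_804706_an
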