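import Mathlib

set_option autoImplicit false

open Set Metric Filter InnerProductSpace MeasureTheory
open scoped Topology RealInnerProductSpace ENNReal ContDiff

namespace Pool.Agent.Work.MP_804706_an

section Rellich

/-- Cauchy–Schwarz for lintegrals against a constant -/
lemma sq_lintegral_le {α : Type*} [MeasurableSpace α] (ν : Measure α) {g : α → ℝ≥0∞}
    (hg : AEMeasurable g ν) : (∫⁻ x, g x ∂ν) ^ 2 ≤ ν univ * ∫⁻ x, g x ^ 2 ∂ν := by
  have h := ENNReal.lintegral_mul_le_Lp_mul_Lq ν Real.HolderConjugate.two_two hg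
    (aemeasurable_const (b := (1 : ℝ≥0∞)))
  simp only [Pi.mul_apply, mul_one, ENNReal.rpow_two, one_pow, lintegral_const, one_mul] at h
  have h2 := pow_le_pow_left' h 2
  refine h2.trans (le_of_eq ?_)
  have e : ∀ x : ℝ≥0∞, (x ^ (1 / 2 : ℝ)) ^ 2 = x := by
    intro x
    rw [← ENNReal.rpow_two, ← ENNReal.rpow_mul]
    norm_num
  rw [mul_pow, e, e, mul_comm]

variable {E : Type*} [NormedAddCommGroup E] [InnerProductSpace ℝ E] [FiniteDimensional ℝ E]
  [MeasurableSpace E] [BorelSpace E]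

lemma translate_le {φ : E → ℝ} (hφ : ContDiff ℝ 1 φ) (h : E) :
    ∫⁻ x, ‖φ (x + h) - φ x‖ₑ ^ 2 ≤ ‖h‖ₑ ^ 2 * ∫⁻ x, ‖fderiv ℝ φ x‖ₑ ^ 2 := by
  have hc : Continuous (fderiv ℝ φ) := hφ.continuous_fderiv one_ne_zero
  have hpt : ∀ x : E, ‖φ (x + h) - φ x‖ₑ ^ 2 ≤
      ∫⁻ s in Ioc (0:ℝ) 1, (‖fderiv ℝ φ (x + s • h)‖ₑ * ‖h‖ₑ) ^ 2 := by
    intro x
    have hd : ∀ s : ℝ, HasDerivAt (fun s : ℝ => φ (x + s • h)) (fderiv ℝ φ (x + s • h) h) s := by
      intro s
      have h1 : HasDerivAt (fun s : ℝ => x + s • h) h s := by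
        simpa using ((hasDerivAt_id s).smul_const h).const_add x
      exact ((hφ.differentiable one_ne_zero (x + s • h)).hasFDerivAt).comp_hasDerivAt s h1
    have hcont : Continuous (fun s : ℝ => fderiv ℝ φ (x + s • h) h) := by fun_prop
    have hcont2 : Continuous (fun s : ℝ => fderiv ℝ φ (x + s • h)) := by fun_prop
    have hftc : ∫ s in (0:ℝ)..1, fderiv ℝ φ (x + s • h) h = φ (x + h) - φ x := by
      rw [intervalIntegral.integral_eq_sub_of_hasDerivAt (fun s _ => hd s)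
        (hcont.intervalIntegrable _ _)]
      simp
    rw [← hftc, intervalIntegral.integral_of_le zero_le_one]
    have h2 : ‖∫ s in Ioc (0:ℝ) 1, fderiv ℝ φ (x + s • h) h‖ₑ ≤
        ∫⁻ s in Ioc (0:ℝ) 1, ‖fderiv ℝ φ (x + s • h)‖ₑ * ‖h‖ₑ := by
      refine (enorm_integral_le_lintegral_enorm _).trans (lintegral_mono fun s => ?_)
      exact ContinuousLinearMap.le_opENorm _ _
    refine (pow_le_pow_left' h2 2).trans ?_
    refine (sq_lintegral_le _ ?_).trans (le_of_eq ?_)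
    · exact (hcont2.enorm.measurable.mul_const _).aemeasurable
    · simp
  calc ∫⁻ x, ‖φ (x + h) - φ x‖ₑ ^ 2
      ≤ ∫⁻ x, ∫⁻ s in Ioc (0:ℝ) 1, (‖fderiv ℝ φ (x + s • h)‖ₑ * ‖h‖ₑ) ^ 2 := lintegral_mono hpt
    _ = ∫⁻ s in Ioc (0:ℝ) 1, ∫⁻ x, (‖fderiv ℝ φ (x + s • h)‖ₑ * ‖h‖ₑ) ^ 2 := by
        apply lintegral_lintegral_swap
        have : Continuous (fun p : E × ℝ => fderiv ℝ φ (p.1 + p.2 • h)) := by fun_prop
        exact ((this.enorm.measurable.mul_const _).pow_const 2).aemeasurable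
    _ = ∫⁻ s in Ioc (0:ℝ) 1, (‖h‖ₑ ^ 2 * ∫⁻ x, ‖fderiv ℝ φ x‖ₑ ^ 2) := by
        refine lintegral_congr fun s => ?_
        rw [lintegral_add_right_eq_self (fun y => (‖fderiv ℝ φ y‖ₑ * ‖h‖ₑ) ^ 2) (s • h),
          ← lintegral_const_mul _ (hc.enorm.measurable.pow_const 2)]
        refine lintegral_congr fun x => ?_
        rw [mul_pow, mul_comm]
    _ = _ := by simp

/-- variance on a set by double integral -/
lemma variance_le {φ : E → ℝ} (hφ : Continuous φ) {Q : Set E}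
    (hQ0 : volume Q ≠ 0) (hQ : volume Q ≠ ⊤) (hint : IntegrableOn φ Q) :
    ∫⁻ x in Q, ‖φ x - ⨍ y in Q, φ y‖ₑ ^ 2 ≤
      (volume Q)⁻¹ * ∫⁻ x in Q, ∫⁻ y in Q, ‖φ x - φ y‖ₑ ^ 2 := by
  rw [← lintegral_const_mul' _ _ (ENNReal.inv_ne_top.2 hQ0)]
  refine lintegral_mono fun x => ?_
  have : IsFiniteMeasure (volume.restrict Q) := ⟨by simpa using hQ.lt_top⟩
  have hv : volume.real Q ≠ 0 := by
    rw [Measure.real]
    exact (ENNReal.toReal_ne_zero).2 ⟨hQ0, hQ⟩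
  have h1 : φ x - ⨍ y in Q, φ y = (volume.real Q)⁻¹ * ∫ y in Q, (φ x - φ y) := by
    rw [setAverage_eq, integral_sub (integrable_const _) hint, integral_const]
    simp only [smul_eq_mul, Measure.real, Measure.restrict_apply MeasurableSet.univ, univ_inter]
    rw [Measure.real] at hv
    field_simp
  have h2 : ‖φ x - ⨍ y in Q, φ y‖ₑ ≤ (volume Q)⁻¹ * ∫⁻ y in Q, ‖φ x - φ y‖ₑ := by
    rw [h1, enorm_mul]
    refine mul_le_mul' (le_of_eq ?_) (enorm_integral_le_lintegral_enorm _)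
    rw [Real.enorm_of_nonneg (by positivity), Measure.real, ← ENNReal.toReal_inv,
      ENNReal.ofReal_toReal (ENNReal.inv_ne_top.2 hQ0)]
  refine (pow_le_pow_left' h2 2).trans ?_
  rw [mul_pow]
  have h3 := sq_lintegral_le (volume.restrict Q) (g := fun y => ‖φ x - φ y‖ₑ)
    ((continuous_const.sub hφ).enorm.aemeasurable)
  rw [Measure.restrict_apply_univ] at h3
  calc (volume Q)⁻¹ ^ 2 * (∫⁻ y in Q, ‖φ x - φ y‖ₑ) ^ 2
      ≤ (volume Q)⁻¹ ^ 2 * (volume Q * ∫⁻ y in Q, ‖φ x - φ y‖ₑ ^ 2) := by gcongr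
    _ = ((volume Q)⁻¹ * volume Q) * ((volume Q)⁻¹ * ∫⁻ y in Q, ‖φ x - φ y‖ₑ ^ 2) := by ring
    _ = _ := by rw [ENNReal.inv_mul_cancel hQ0 hQ, one_mul]

/-- the sum over a partition of sets of the same measure `v` -/
lemma partition_le {φ : E → ℝ} (hφ : ContDiff ℝ 1 φ) {ι : Type*} [Fintype ι] (Q : ι → Set E)
    (hQm : ∀ i, MeasurableSet (Q i)) (hdisj : Pairwise fun i j => Disjoint (Q i) (Q j))
    (v : ℝ≥0∞) (hv0 : v ≠ 0) (hv : v ≠ ⊤) (hQv : ∀ i, volume (Q i) = v)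
    (hint : ∀ i, IntegrableOn φ (Q i))
    (B : Set E) (hB : MeasurableSet B) (hQB : ∀ i, ∀ x ∈ Q i, ∀ y ∈ Q i, y - x ∈ B)
    (r : ℝ≥0∞) (hr : ∀ h ∈ B, ‖h‖ₑ ^ 2 ≤ r) :
    ∑ i, ∫⁻ x in Q i, ‖φ x - ⨍ y in Q i, φ y‖ₑ ^ 2 ≤
      v⁻¹ * (volume B * (r * ∫⁻ x, ‖fderiv ℝ φ x‖ₑ ^ 2)) := by
  have hφc : Continuous φ := hφ.continuous
  have h1 : ∑ i, ∫⁻ x in Q i, ‖φ x - ⨍ y in Q i, φ y‖ₑ ^ 2 ≤
      ∑ i, v⁻¹ * ∫⁻ x in Q i, ∫⁻ y in Q i, ‖φ x - φ y‖ₑ ^ 2 := by
    refine Finset.sum_le_sum fun i _ => ?_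
    have := variance_le (φ := φ) hφc (Q := Q i) (by rw [hQv]; exact hv0) (by rw [hQv]; exact hv)
      (hint i)
    rwa [hQv] at this
  refine h1.trans ?_
  rw [← Finset.mul_sum]
  refine mul_le_mul' le_rfl ?_
  -- enlarge to all of space
  have hmeas : Measurable (fun p : E × E => B.indicator (1 : E → ℝ≥0∞) p.2 *
      ‖φ (p.1 + p.2) - φ p.1‖ₑ ^ 2) := by
    refine Measurable.mul ?_ ?_
    · exact (measurable_one.indicator hB).comp measurable_snd
    · exact (((hφc.comp (continuous_fst.add continuous_snd)).sub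
          (hφc.comp continuous_fst)).enorm.measurable).pow_const 2
  have h2 : ∀ i, ∫⁻ x in Q i, ∫⁻ y in Q i, ‖φ x - φ y‖ₑ ^ 2 ≤
      ∫⁻ x in Q i, ∫⁻ h, B.indicator (1 : E → ℝ≥0∞) h * ‖φ (x + h) - φ x‖ₑ ^ 2 := by
    intro i
    refine setLIntegral_mono' (hQm i) fun x hx => ?_
    have e1 : ∫⁻ h, B.indicator (1 : E → ℝ≥0∞) h * ‖φ (x + h) - φ x‖ₑ ^ 2 =
        ∫⁻ y, B.indicator (1 : E → ℝ≥0∞) (y - x) * ‖φ y - φ x‖ₑ ^ 2 := by
      rw [← lintegral_add_left_eq_self (fun y => B.indicator (1 : E → ℝ≥0∞) (y - x) *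
        ‖φ y - φ x‖ₑ ^ 2) x]
      simp
    rw [e1, ← lintegral_indicator (hQm i)]
    refine lintegral_mono fun y => ?_
    by_cases hy : y ∈ Q i
    · rw [indicator_of_mem hy, indicator_of_mem (hQB i x hx y hy), Pi.one_apply, one_mul]
      rw [← enorm_neg, neg_sub]
    · rw [indicator_of_notMem hy]
      exact bot_le
  refine (Finset.sum_le_sum fun i _ => h2 i).trans ?_
  have h3 : ∑ i, ∫⁻ x in Q i, ∫⁻ h, B.indicator (1 : E → ℝ≥0∞) h * ‖φ (x + h) - φ x‖ₑ ^ 2 ≤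
      ∫⁻ x, ∫⁻ h, B.indicator (1 : E → ℝ≥0∞) h * ‖φ (x + h) - φ x‖ₑ ^ 2 := by
    have := lintegral_biUnion_finset (μ := (volume : Measure E)) (s := (Finset.univ : Finset ι))
      (t := Q) (fun i _ j _ hij => hdisj hij) (fun i _ => hQm i)
      (fun x => ∫⁻ h, B.indicator (1 : E → ℝ≥0∞) h * ‖φ (x + h) - φ x‖ₑ ^ 2)
    rw [← this]
    exact setLIntegral_le_lintegral _ _
  refine h3.trans ?_
  rw [lintegral_lintegral_swap hmeas.aemeasurable]
  calc ∫⁻ h, ∫⁻ x, B.indicator (1 : E → ℝ≥0∞) h * ‖φ (x + h) - φ x‖ₑ ^ 2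
      ≤ ∫⁻ h, B.indicator (1 : E → ℝ≥0∞) h * (r * ∫⁻ x, ‖fderiv ℝ φ x‖ₑ ^ 2) := by
        refine lintegral_mono fun h => ?_
        by_cases hh : h ∈ B
        · simp only [indicator_of_mem hh, Pi.one_apply, one_mul]
          refine (translate_le hφ h).trans ?_
          exact mul_le_mul' (hr h hh) le_rfl
        · simp [indicator_of_notMem hh]
    _ = volume B * (r * ∫⁻ x, ‖fderiv ℝ φ x‖ₑ ^ 2) := by
        rw [lintegral_mul_const _ (measurable_one.indicator hB), lintegral_indicator_one hB]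
lemma integrable_fderiv_sq {φ : E → ℝ} (hφ : ContDiff ℝ 1 φ) (hc : HasCompactSupport φ) :
    Integrable (fun x => ‖fderiv ℝ φ x‖ ^ 2) := by
  have hdc : Continuous (fderiv ℝ φ) := hφ.continuous_fderiv one_ne_zero
  have h1 : HasCompactSupport (fderiv ℝ φ) := hc.fderiv (𝕜 := ℝ)
  have h2 : HasCompactSupport (fun x => ‖fderiv ℝ φ x‖ ^ 2) := by
    refine h1.mono' ?_
    intro x hx
    apply subset_tsupport
    rw [Function.mem_support] at hx ⊢
    intro h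
    exact hx (by rw [h]; simp)
  exact Continuous.integrable_of_hasCompactSupport (hdc.norm.pow 2) h2

/-- half-open cube of side `δ` with index `k` -/
def cube {N : ℕ} (δ : ℝ) (k : Fin N → ℤ) : Set (EuclideanSpace ℝ (Fin N)) :=
  {x | ∀ j, x j ∈ Ico (δ * k j) (δ * (k j + 1))}

lemma cube_eq {N : ℕ} (δ : ℝ) (k : Fin N → ℤ) :
    cube δ k = (WithLp.ofLp : EuclideanSpace ℝ (Fin N) → (Fin N → ℝ)) ⁻¹'
      (univ.pi fun j => Ico (δ * k j) (δ * (k j + 1))) := by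
  ext x; simp [cube]

lemma measurableSet_cube {N : ℕ} (δ : ℝ) (k : Fin N → ℤ) : MeasurableSet (cube δ k) := by
  rw [cube_eq]
  exact (PiLp.volume_preserving_ofLp (Fin N)).measurable
    (MeasurableSet.univ_pi fun j => measurableSet_Ico)

lemma volume_cube {N : ℕ} {δ : ℝ} (k : Fin N → ℤ) :
    volume (cube δ k) = ENNReal.ofReal δ ^ N := by
  rw [cube_eq, (PiLp.volume_preserving_ofLp (Fin N)).measure_preimage
    (MeasurableSet.univ_pi fun j => measurableSet_Ico).nullMeasurableSet, Real.volume_pi_Ico]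
  have : ∀ i, δ * ((k i : ℝ) + 1) - δ * (k i : ℝ) = δ := fun i => by ring
  simp [this]

/-- open cube centred at the origin -/
def ocube (N : ℕ) (δ : ℝ) : Set (EuclideanSpace ℝ (Fin N)) :=
  {x | ∀ j, x j ∈ Ioo (-δ) δ}

lemma ocube_eq {N : ℕ} (δ : ℝ) :
    ocube N δ = (WithLp.ofLp : EuclideanSpace ℝ (Fin N) → (Fin N → ℝ)) ⁻¹'
      (univ.pi fun _ => Ioo (-δ) δ) := by
  ext x; simp [ocube]

lemma measurableSet_ocube {N : ℕ} (δ : ℝ) : MeasurableSet (ocube N δ) := by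
  rw [ocube_eq]
  exact (PiLp.volume_preserving_ofLp (Fin N)).measurable
    (MeasurableSet.univ_pi fun j => measurableSet_Ioo)

lemma volume_ocube {N : ℕ} {δ : ℝ} :
    volume (ocube N δ) = ENNReal.ofReal (2 * δ) ^ N := by
  rw [ocube_eq, (PiLp.volume_preserving_ofLp (Fin N)).measure_preimage
    (MeasurableSet.univ_pi fun j => measurableSet_Ioo).nullMeasurableSet, Real.volume_pi_Ioo]
  have : δ - -δ = 2 * δ := by ring
  simp [this]

lemma norm_sq_ocube {N : ℕ} {δ : ℝ} {h : EuclideanSpace ℝ (Fin N)}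
    (hh : h ∈ ocube N δ) : ‖h‖ ^ 2 ≤ N * δ ^ 2 := by
  rw [EuclideanSpace.norm_sq_eq]
  calc ∑ i, ‖h i‖ ^ 2 ≤ ∑ _i : Fin N, δ ^ 2 := by
        refine Finset.sum_le_sum fun i _ => ?_
        have := hh i
        rw [Real.norm_eq_abs, sq_abs]
        nlinarith [this.1, this.2]
    _ = N * δ ^ 2 := by simp

lemma cube_sub {N : ℕ} {δ : ℝ} (k : Fin N → ℤ) {x y : EuclideanSpace ℝ (Fin N)}
    (hx : x ∈ cube δ k) (hy : y ∈ cube δ k) : y - x ∈ ocube N δ := by
  intro j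
  have h1 := hx j
  have h2 := hy j
  rw [mem_Ico] at h1 h2
  rw [PiLp.sub_apply, mem_Ioo]
  constructor <;> nlinarith [h1.1, h1.2, h2.1, h2.2]

lemma cube_disjoint {N : ℕ} {δ : ℝ} (hδ : 0 < δ) {k l : Fin N → ℤ} (hkl : k ≠ l) :
    Disjoint (cube δ k) (cube δ l) := by
  rw [Set.disjoint_left]
  intro x hx hy
  apply hkl
  funext j
  have h1 := hx j
  have h2 := hy j
  rw [mem_Ico] at h1 h2
  have h3 : (k j : ℝ) < l j + 1 := lt_of_mul_lt_mul_left (h1.1.trans_lt h2.2) hδ.le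
  have h4 : (l j : ℝ) < k j + 1 := lt_of_mul_lt_mul_left (h2.1.trans_lt h1.2) hδ.le
  have h5 : k j < l j + 1 := by exact_mod_cast h3
  have h6 : l j < k j + 1 := by exact_mod_cast h4
  omega

lemma cube_bounded {N : ℕ} {δ : ℝ} (k : Fin N → ℤ) :
    Bornology.IsBounded (cube δ k) := by
  rcases (cube δ k).eq_empty_or_nonempty with h | ⟨x0, hx0⟩
  · rw [h]; exact Bornology.isBounded_empty
  · rw [isBounded_iff_forall_norm_le]
    refine ⟨‖x0‖ + √(N * δ ^ 2), fun y hy => ?_⟩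
    have h1 := Real.le_sqrt_of_sq_le (norm_sq_ocube (cube_sub k hx0 hy))
    have h2 : y = x0 + (y - x0) := by abel
    calc ‖y‖ = ‖x0 + (y - x0)‖ := by rw [← h2]
      _ ≤ ‖x0‖ + ‖y - x0‖ := norm_add_le _ _
      _ ≤ _ := by linarith

/-- (P2) Rellich, quantitative finite-partition form. -/
theorem rellich_partition (N : ℕ) (Ω : Set (EuclideanSpace ℝ (Fin N))) (hΩ : Bornology.IsBounded Ω)
    (ε : ℝ) (hε : 0 < ε) :
    ∃ (n : ℕ) (Q : Fin n → Set (EuclideanSpace ℝ (Fin N))),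
      (∀ i, MeasurableSet (Q i)) ∧ (∀ i, Bornology.IsBounded (Q i)) ∧
      (Pairwise fun i j => Disjoint (Q i) (Q j)) ∧ Ω ⊆ ⋃ i, Q i ∧
      ∀ φ : EuclideanSpace ℝ (Fin N) → ℝ, ContDiff ℝ ∞ φ → HasCompactSupport φ →
        ∑ i, ∫ x in Q i, (φ x - ⨍ y in Q i, φ y) ^ 2 ≤ ε ^ 2 * ∫ x, ‖fderiv ℝ φ x‖ ^ 2 := by
  classical
  set δ : ℝ := ε / √(2 ^ N * (N + 1)) with hδdef
  have hs : (0:ℝ) < 2 ^ N * (N + 1) := by positivity
  have hδ : 0 < δ := by positivity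
  have hδ2 : 2 ^ N * (N * δ ^ 2) ≤ ε ^ 2 := by
    rw [hδdef, div_pow, Real.sq_sqrt hs.le]
    rw [show (2:ℝ) ^ N * (N * (ε ^ 2 / (2 ^ N * (N + 1)))) = ε ^ 2 * (N / (N + 1)) by
      field_simp]
    have : (N : ℝ) / (N + 1) ≤ 1 := by
      rw [div_le_one (by positivity)]; linarith
    nlinarith [sq_nonneg ε]
  obtain ⟨R, hR⟩ := (isBounded_iff_forall_norm_le).1 hΩ
  set K : ℤ := ⌈|R| / δ⌉ + 1 with hK
  let I := {k : Fin N → ℤ // k ∈ Fintype.piFinset fun _ : Fin N => Finset.Icc (-K) K}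
  let e : Fin (Fintype.card I) ≃ I := (Fintype.equivFin I).symm
  refine ⟨Fintype.card I, fun i => cube δ (e i).1, fun i => measurableSet_cube _ _,
    fun i => cube_bounded _, ?_, ?_, ?_⟩
  · intro i j hij
    refine cube_disjoint hδ fun h => hij ?_
    exact e.injective (Subtype.ext h)
  · intro x hx
    rw [mem_iUnion]
    have hmem : (fun j => ⌊x j / δ⌋) ∈ Fintype.piFinset fun _ : Fin N => Finset.Icc (-K) K := by
      rw [Fintype.mem_piFinset]
      intro j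
      rw [Finset.mem_Icc]
      have h1 : |x j| ≤ |R| := by
        have := PiLp.norm_apply_le x j
        rw [Real.norm_eq_abs] at this
        exact this.trans ((hR x hx).trans (le_abs_self R))
      have h2 : |x j / δ| ≤ |R| / δ := by
        rw [abs_div, abs_of_pos hδ]
        gcongr
      have h3 : |R| / δ ≤ ⌈|R| / δ⌉ := Int.le_ceil _
      rw [abs_le] at h2
      constructor
      · rw [Int.le_floor, hK]
        push_cast
        linarith [h2.1]
      · have h4 : (⌊x j / δ⌋ : ℝ) ≤ x j / δ := Int.floor_le _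
        have h5 : (⌊x j / δ⌋ : ℝ) ≤ K := by
          rw [hK]; push_cast; linarith [h2.2]
        exact_mod_cast h5
    refine ⟨e.symm ⟨_, hmem⟩, ?_⟩
    rw [Equiv.apply_symm_apply]
    intro j
    rw [mem_Ico]
    constructor
    · have := Int.floor_le (x j / δ)
      rw [le_div_iff₀ hδ] at this
      linarith
    · have := Int.lt_floor_add_one (x j / δ)
      rw [div_lt_iff₀ hδ] at this
      linarith
  · intro φ hφ hφc
    have hφ1 : ContDiff ℝ 1 φ := hφ.of_le (by exact_mod_cast le_top)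
    have hφcont : Continuous φ := hφ.continuous
    have hφi : Integrable φ := hφcont.integrable_of_hasCompactSupport hφc
    have hdi : Integrable (fun x => ‖fderiv ℝ φ x‖ ^ 2) := integrable_fderiv_sq hφ1 hφc
    have hG : ∫⁻ x, ‖fderiv ℝ φ x‖ₑ ^ 2 = ENNReal.ofReal (∫ x, ‖fderiv ℝ φ x‖ ^ 2) := by
      rw [ofReal_integral_eq_lintegral_ofReal hdi (ae_of_all _ fun x => by positivity)]
      refine lintegral_congr fun x => ?_
      rw [ENNReal.ofReal_pow (norm_nonneg _), ofReal_norm]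
    have hmain := partition_le hφ1 (fun i : Fin (Fintype.card I) => cube δ (e i).1)
      (fun i => measurableSet_cube _ _)
      (by
        intro i j hij
        exact cube_disjoint hδ fun h => hij (e.injective (Subtype.ext h)))
      (ENNReal.ofReal δ ^ N) (pow_ne_zero _ (by simpa using hδ)) (ENNReal.pow_ne_top (by simp))
      (fun i => volume_cube _)
      (fun i => hφi.integrableOn)
      (ocube N δ) (measurableSet_ocube δ) (fun i x hx y hy => cube_sub _ hx hy)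
      (ENNReal.ofReal (N * δ ^ 2))
      (fun h hh => by
        rw [← ofReal_norm, ← ENNReal.ofReal_pow (norm_nonneg _)]
        exact ENNReal.ofReal_le_ofReal (norm_sq_ocube hh))
    rw [hG, volume_ocube] at hmain
    have hG0 : 0 ≤ ∫ x, ‖fderiv ℝ φ x‖ ^ 2 := integral_nonneg fun x => by positivity
    have hrhs : (ENNReal.ofReal δ ^ N)⁻¹ * (ENNReal.ofReal (2 * δ) ^ N * (ENNReal.ofReal (N * δ ^ 2)
        * ENNReal.ofReal (∫ x, ‖fderiv ℝ φ x‖ ^ 2))) ≤
        ENNReal.ofReal (ε ^ 2 * ∫ x, ‖fderiv ℝ φ x‖ ^ 2) := by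
      rw [ENNReal.ofReal_mul zero_le_two, mul_pow]
      have h1 : ENNReal.ofReal δ ^ N ≠ 0 := pow_ne_zero _ (by simpa using hδ)
      have h2 : ENNReal.ofReal δ ^ N ≠ ⊤ := ENNReal.pow_ne_top (by simp)
      calc (ENNReal.ofReal δ ^ N)⁻¹ * (ENNReal.ofReal 2 ^ N * ENNReal.ofReal δ ^ N *
            (ENNReal.ofReal (N * δ ^ 2) * ENNReal.ofReal (∫ x, ‖fderiv ℝ φ x‖ ^ 2)))
          = ((ENNReal.ofReal δ ^ N)⁻¹ * ENNReal.ofReal δ ^ N) * (ENNReal.ofReal 2 ^ N *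
            (ENNReal.ofReal (N * δ ^ 2) * ENNReal.ofReal (∫ x, ‖fderiv ℝ φ x‖ ^ 2))) := by ring
        _ = ENNReal.ofReal (2 ^ N * (N * δ ^ 2) * ∫ x, ‖fderiv ℝ φ x‖ ^ 2) := by
            rw [ENNReal.inv_mul_cancel h1 h2, one_mul,
              ENNReal.ofReal_mul (p := 2 ^ N * (N * δ ^ 2)) (by positivity),
              ENNReal.ofReal_mul (p := 2 ^ N) (by positivity), ENNReal.ofReal_pow zero_le_two,
              mul_assoc]
        _ ≤ _ := ENNReal.ofReal_le_ofReal (by gcongr)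
    have hle := hmain.trans hrhs
    have hl : ∀ i : Fin (Fintype.card I), ∫ x in cube δ (e i).1, (φ x - ⨍ y in cube δ (e i).1, φ y) ^ 2
        = (∫⁻ x in cube δ (e i).1, ‖φ x - ⨍ y in cube δ (e i).1, φ y‖ₑ ^ 2).toReal := by
      intro i
      have hcc : Continuous fun x => (φ x - ⨍ y in cube δ (e i).1, φ y) ^ 2 :=
        (hφcont.sub continuous_const).pow 2
      rw [integral_eq_lintegral_of_nonneg_ae (ae_of_all _ fun x => sq_nonneg _)
        hcc.aestronglyMeasurable]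
      congr 1
      refine lintegral_congr fun x => ?_
      rw [← ofReal_norm, ← ENNReal.ofReal_pow (norm_nonneg _), Real.norm_eq_abs, sq_abs]
    have hfin : ∀ i ∈ (Finset.univ : Finset (Fin (Fintype.card I))),
        ∫⁻ x in cube δ (e i).1, ‖φ x - ⨍ y in cube δ (e i).1, φ y‖ₑ ^ 2 ≠ ⊤ := by
      intro i _
      refine ne_top_of_le_ne_top ENNReal.ofReal_ne_top (le_trans ?_ hle)
      exact Finset.single_le_sum (f := fun i : Fin (Fintype.card I) =>
        ∫⁻ x in cube δ (e i).1, ‖φ x - ⨍ y in cube δ (e i).1, φ y‖ₑ ^ 2)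
        (fun i _ => bot_le) (Finset.mem_univ i)
    calc ∑ i : Fin (Fintype.card I), ∫ x in cube δ (e i).1, (φ x - ⨍ y in cube δ (e i).1, φ y) ^ 2
        = ∑ i : Fin (Fintype.card I),
            (∫⁻ x in cube δ (e i).1, ‖φ x - ⨍ y in cube δ (e i).1, φ y‖ₑ ^ 2).toReal :=
          Finset.sum_congr rfl fun i _ => hl i
      _ = (∑ i : Fin (Fintype.card I),
            ∫⁻ x in cube δ (e i).1, ‖φ x - ⨍ y in cube δ (e i).1, φ y‖ₑ ^ 2).toReal :=
          (ENNReal.toReal_sum hfin).symm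
      _ ≤ _ := ENNReal.toReal_le_of_le_ofReal (by positivity) hle

end Rellich

end Pool.Agent.Work.MP_804706_an
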