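import Mathlib
import Pool.Agent.Work.MP_804706_an.Inst
import Pool.Agent.Work.MP_804706_an.P2

set_option autoImplicit false

open Set Metric Filter InnerProductSpace MeasureTheory
open scoped Topology RealInnerProductSpace ENNReal ContDiff NNReal

namespace Pool.Agent.Work.MP_804706_an

variable {N : ℕ} {Ω : Set (Eu N)}

theorem inner_LV (f g : LV Ω) : ⟪f, g⟫ = ∫ x in Ω, ⟪f x, g x⟫ := L2.inner_def f g

theorem inner_LL (f g : LL Ω) : ⟪f, g⟫ = ∫ x in Ω, f x * g x := by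
  rw [L2.inner_def]
  apply integral_congr_ae
  filter_upwards with x
  simp [mul_comm]

theorem integrable_LL (f g : LL Ω) : Integrable (fun x => f x * g x) (volume.restrict Ω) := by
  have h := L2.integrable_inner (𝕜 := ℝ) f g
  refine h.congr ?_
  filter_upwards with x
  simp [mul_comm]

theorem integrable_crit (hq2 : 2 < critExp N) (S : ℝ) (hS0 : 0 ≤ S)
    (hS : ∀ p ∈ H01 Ω, eLpNorm p.1 (ENNReal.ofReal (critExp N)) (volume.restrict Ω) ≤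
        ENNReal.ofReal (S * ‖p.2‖)) (p w : LL Ω × LV Ω) (hp : p ∈ H01 Ω) (hw : w ∈ H01 Ω) :
    Integrable (fun x => |p.1 x| ^ (critExp N - 2) * p.1 x * w.1 x) (volume.restrict Ω) := by
  have h1 := (holder3 hq2 (Lp.aestronglyMeasurable p.1) (Lp.aestronglyMeasurable p.1)
    (Lp.aestronglyMeasurable w.1) (A := S * ‖p.2‖) (B := S * ‖p.2‖) (C := S * ‖w.2‖)
    (by positivity) (by positivity) (by positivity) (hS p hp) (hS p hp) (hS w hw)).1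
  refine h1.mono' ?_ ?_
  · have hc : Continuous (fun y : ℝ => |y| ^ (critExp N - 2)) :=
      (Real.continuous_rpow_const (by linarith)).comp continuous_abs
    exact ((hc.comp_aestronglyMeasurable (Lp.aestronglyMeasurable p.1)).mul
      (Lp.aestronglyMeasurable p.1)).mul (Lp.aestronglyMeasurable w.1)
  · filter_upwards with x
    rw [Real.norm_eq_abs, abs_mul, abs_mul, abs_of_nonneg (by positivity :
      0 ≤ |p.1 x| ^ (critExp N - 2))]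

theorem inner_G (D : KData (HSp Ω) (LL Ω)) (ι : HSp Ω →L[ℝ] LL Ω) (hD : D.ι = ι)
    (a b lam : ℝ) (v : LL Ω) (u h : HSp Ω) :
    ⟪D.G a b lam v u, h⟫ = (a + b * ‖u‖ ^ 2) * ⟪u, h⟫ - ⟪D.DΨ u, h⟫
      - lam * ⟪ι u, ι h⟫ + lam * ⟪v, ι h⟫ := by
  simp only [KData.G, inner_add_left, inner_sub_left, real_inner_smul_left,
      ContinuousLinearMap.adjoint_inner_left, hD]

theorem int_split (f₁ f₂ : LL Ω) (w : LL Ω) (lam : ℝ) (q : ℝ)
    (i1 : Integrable (fun x => |f₁ x| ^ (q - 2) * f₁ x * w x) (volume.restrict Ω)) :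
    ∫ x in Ω, (|f₁ x| ^ (q - 2) * f₁ x + lam * (f₁ x - f₂ x)) * w x =
      (∫ x in Ω, |f₁ x| ^ (q - 2) * f₁ x * w x) +
        lam * (∫ x in Ω, f₁ x * w x) - lam * (∫ x in Ω, f₂ x * w x) := by
  have i2 := integrable_LL f₁ w
  have i3 := integrable_LL f₂ w
  have i12 : Integrable (fun x => |f₁ x| ^ (q - 2) * f₁ x * w x + lam * (f₁ x * w x))
    (volume.restrict Ω) := i1.add (i2.const_mul lam)
  rw [← integral_const_mul, ← integral_const_mul, ← integral_add i1 (i2.const_mul lam),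
    ← integral_sub i12 (i3.const_mul lam)]
  apply integral_congr_ae
  filter_upwards with x
  ring

theorem weak_of_G (hN : 4 < N) (hΩ : Bornology.IsBounded Ω)
    (ι : HSp Ω →L[ℝ] LL Ω) (hι : ∀ g : HSp Ω, (ι g, (g : LV Ω)) ∈ H01 Ω)
    (D : KData (HSp Ω) (LL Ω)) (hD : D.ι = ι)
    (hDΨ : ∀ u φ, ⟪D.DΨ u, φ⟫ = ∫ x in Ω, |ι u x| ^ (critExp N - 2) * ι u x * ι φ x)
    (a b lam : ℝ) (v : LL Ω) (u : HSp Ω) (hG : D.G a b lam v u = 0) :
    IsWeakSol Ω a b lam v (ι u, (u : LV Ω)) := by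
  obtain ⟨hq2, hq4⟩ := one_lt_critExp hN
  obtain ⟨S, hS0, hS⟩ := sobolev (Ω := Ω) hN
  refine ⟨hι u, fun w hw => ?_⟩
  have hw2 : w.2 ∈ HSp Ω := snd_mem_HSp hw
  obtain ⟨h, hh⟩ : ∃ h : HSp Ω, (h : LV Ω) = w.2 := ⟨⟨w.2, hw2⟩, rfl⟩
  have hιh : ι h = w.1 := by
    have h1 := iota_eq (by omega) hΩ ι hι w hw hw2
    rw [← h1]
    congr 1
    exact Subtype.ext hh
  have h0 : ⟪D.G a b lam v u, h⟫ = 0 := by rw [hG, inner_zero_left]
  rw [inner_G D ι hD a b lam v u h] at h0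
  have h2 : ‖u‖ ^ 2 = ∫ x in Ω, ‖(u : LV Ω) x‖ ^ 2 := norm_sq_LV (u : LV Ω)
  have h3 : ⟪u, h⟫ = ∫ x in Ω, ⟪(u : LV Ω) x, w.2 x⟫ := by
    rw [← inner_LV, ← hh]
    rfl
  rw [h2, h3, hDΨ, hιh, inner_LL, inner_LL] at h0
  have i1 := integrable_crit hq2 S hS0 hS (ι u, (u : LV Ω)) w (hι u) hw
  have h5 := int_split (ι u) v w.1 lam (critExp N) i1
  change (a + b * ∫ x in Ω, ‖(u : LV Ω) x‖ ^ 2) * (∫ x in Ω, ⟪(u : LV Ω) x, w.2 x⟫) =
    ∫ x in Ω, (|ι u x| ^ (critExp N - 2) * ι u x + lam * (ι u x - v x)) * w.1 x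
  rw [h5]
  linarith

/-- the main theorem, from compactness of the embedding and six independent test functions -/
theorem main (hN : 4 < N) (hΩo : IsOpen Ω) (hΩ : Bornology.IsBounded Ω)
    (hcptall : ∀ ι : HSp Ω →L[ℝ] LL Ω, (∀ g : HSp Ω, (ι g, (g : LV Ω)) ∈ H01 Ω) →
      IsCompactOperator ι)
    (hsix : ∃ (f : Fin 6 → Eu N → ℝ) (hf : ∀ i, IsTest Ω (f i)),
      LinearIndependent ℝ (fun i => (pair (hf i)).1))
    (a b : ℝ) (ha : 0 ≤ a) (hb : 0 < b) :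
    ∃ lam₀ : ℝ, 0 < lam₀ ∧ ∀ lam, lam₀ < lam → ∀ C : Set (LL Ω), Convex ℝ C →
      (∀ p ∈ H01 Ω, p.1 ∈ closure C) → ∃ v ∈ C, ∃ p₁ p₂ p₃ : LL Ω × LV Ω,
        IsWeakSol Ω a b lam v p₁ ∧ IsWeakSol Ω a b lam v p₂ ∧ IsWeakSol Ω a b lam v p₃ ∧
        IsGlobalMin Ω a b lam v p₁ ∧ IsGlobalMin Ω a b lam v p₂ ∧
        p₁.1 ≠ p₂.1 ∧ p₁.1 ≠ p₃.1 ∧ p₂.1 ≠ p₃.1 := by
  obtain ⟨ι, hι⟩ := exists_iota (Ω := Ω) (by omega) hΩ
  have hinj := iota_inj hΩo hΩ ι hι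
  obtain ⟨D, hD, hΨ, hDΨ⟩ := exists_data hN hΩo hΩ ι hι (hcptall ι hι)
  -- the six dimensional subspace
  obtain ⟨f, hf, hli⟩ := hsix
  have hmem : ∀ i, pair (hf i) ∈ H01 Ω := fun i => subset_closure (pair_mem (hf i))
  obtain ⟨g, hg⟩ : ∃ g : Fin 6 → HSp Ω, ∀ i, ι (g i) = (pair (hf i)).1 :=
    ⟨fun i => ⟨(pair (hf i)).2, snd_mem_HSp (hmem i)⟩,
      fun i => iota_eq (by omega) hΩ ι hι (pair (hf i)) (hmem i) (snd_mem_HSp (hmem i))⟩
  have hgli : LinearIndependent ℝ g := by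
    apply LinearIndependent.of_comp (ι : HSp Ω →ₗ[ℝ] LL Ω)
    have : (fun i => (pair (hf i)).1) = (ι : HSp Ω →ₗ[ℝ] LL Ω) ∘ g := by
      funext i
      exact (hg i).symm
    rwa [← this]
  have hfin : FiniteDimensional ℝ (Submodule.span ℝ (range g)) :=
    FiniteDimensional.span_of_finite ℝ (finite_range g)
  have hrank : 5 < Module.finrank ℝ (Submodule.span ℝ (range g)) := by
    rw [finrank_span_eq_card hgli]
    simp
  obtain ⟨lam₀, hlam₀, hmain⟩ := D.abstract_main a b ha hb (Submodule.span ℝ (range g)) hrank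
  refine ⟨lam₀, hlam₀, fun lam hlam C hC hCd => ?_⟩
  have hrange : range D.ι ⊆ closure C := by
    rintro _ ⟨u, rfl⟩
    rw [hD]
    exact hCd _ (hι u)
  obtain ⟨v, hv, u₁, u₂, u₃, h12, h13, h23, hm1, hm2, hG1, hG2, hG3⟩ := hmain lam hlam C hC hrange
  have hmin : ∀ u : HSp Ω, (∀ y, D.E a b lam v u ≤ D.E a b lam v y) →
      IsGlobalMin Ω a b lam v (ι u, (u : LV Ω)) := by
    intro u hu
    refine ⟨hι u, fun w hw => ?_⟩
    have hw2 : w.2 ∈ HSp Ω := snd_mem_HSp hw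
    obtain ⟨h, hh⟩ : ∃ h : HSp Ω, (h : LV Ω) = w.2 := ⟨⟨w.2, hw2⟩, rfl⟩
    have hιh : ι h = w.1 := by
      have h1 := iota_eq (by omega) hΩ ι hι w hw hw2
      rw [← h1]
      congr 1
      exact Subtype.ext hh
    have h4 := hu h
    rw [energy_eq D ι hD hΨ, energy_eq D ι hD hΨ, hιh, hh] at h4
    exact h4
  refine ⟨v, hv, (ι u₁, (u₁ : LV Ω)), (ι u₂, (u₂ : LV Ω)), (ι u₃, (u₃ : LV Ω)),
    weak_of_G hN hΩ ι hι D hD hDΨ a b lam v u₁ hG1, weak_of_G hN hΩ ι hι D hD hDΨ a b lam v u₂ hG2,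
    weak_of_G hN hΩ ι hι D hD hDΨ a b lam v u₃ hG3, hmin u₁ hm1, hmin u₂ hm2,
    fun h => h12 (hinj h), fun h => h13 (hinj h), fun h => h23 (hinj h)⟩

end Pool.Agent.Work.MP_804706_an
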