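import Mathlib
import Pool.Agent.Work.MP_804706_an.Iota
import Pool.Agent.Work.MP_804706_an.P2

set_option autoImplicit false

open Set Metric Filter InnerProductSpace MeasureTheory
open scoped Topology RealInnerProductSpace ENNReal ContDiff NNReal

namespace Pool.Agent.Work.MP_804706_an

variable {N : ℕ} {Ω : Set (Eu N)}

/-- rank one (finite rank) averaging operator -/
noncomputable def avgOp {n : ℕ} (c : Fin n → ℝ) (e : Fin n → LL Ω) : LL Ω →L[ℝ] LL Ω :=
  ∑ i, (c i) • (innerSL ℝ (e i)).smulRight (e i)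

theorem avgOp_apply {n : ℕ} (c : Fin n → ℝ) (e : Fin n → LL Ω) (u : LL Ω) :
    avgOp c e u = ∑ i, (c i * ⟪e i, u⟫) • e i := by
  simp [avgOp, smul_smul]

theorem avgOp_compact {n : ℕ} (c : Fin n → ℝ) (e : Fin n → LL Ω) :
    IsCompactOperator (avgOp c e) := by
  have h : ∀ i, IsCompactOperator ((c i) • (innerSL ℝ (e i)).smulRight (e i)) := by
    intro i
    have h1 : IsCompactOperator (innerSL ℝ (e i)) :=
      isCompactOperator_of_locallyCompactSpace_dom (innerSL ℝ (e i))
    have h2 : IsCompactOperator ((ContinuousLinearMap.toSpanSingleton ℝ (e i)) ∘ (innerSL ℝ (e i))) :=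
      h1.clm_comp _
    have h3 : IsCompactOperator ((innerSL ℝ (e i)).smulRight (e i)) := by
      have e1 : (⇑((innerSL ℝ (e i)).smulRight (e i)) : LL Ω → LL Ω) =
          (ContinuousLinearMap.toSpanSingleton ℝ (e i)) ∘ (innerSL ℝ (e i)) := by
        funext u
        simp
      rw [e1]
      exact h2
    exact h3.smul (c i)
  have key : ∀ s : Finset (Fin n), IsCompactOperator
      ((∑ i ∈ s, (c i) • (innerSL ℝ (e i)).smulRight (e i) : LL Ω →L[ℝ] LL Ω)) := by
    intro s
    induction s using Finset.induction with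
    | empty => simpa using isCompactOperator_zero
    | insert a s ha ih =>
      rw [Finset.sum_insert ha]
      exact (h a).add ih
  exact key Finset.univ

/-- the averaging estimate on `H¹₀` -/
theorem exists_avgOp (hΩo : IsOpen Ω) (hΩ : Bornology.IsBounded Ω) (ε : ℝ) (hε : 0 < ε) :
    ∃ (n : ℕ) (c : Fin n → ℝ) (e : Fin n → LL Ω), ∀ p ∈ H01 Ω,
      ‖p.1 - avgOp c e p.1‖ ≤ ε * ‖p.2‖ := by
  obtain ⟨n, Q, hQm, hQb, hQd, hQc, hQ⟩ := rellich_partition N Ω hΩ ε hε
  have hfin : ∀ i, volume (Q i) ≠ ⊤ := fun i => (hQb i).measure_lt_top.ne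
  have hfin' : ∀ i, (volume.restrict Ω) (Q i) ≠ ⊤ := fun i =>
    ((Measure.restrict_apply_le _ _).trans_lt (hQb i).measure_lt_top).ne
  set e : Fin n → LL Ω := fun i => indicatorConstLp 2 (hQm i) (hfin' i) (1 : ℝ) with he
  set c : Fin n → ℝ := fun i => (volume.real (Q i))⁻¹ with hc
  refine ⟨n, c, e, ?_⟩
  have h0 : ∀ p ∈ (W0 Ω : Set (LL Ω × LV Ω)), ‖p.1 - avgOp c e p.1‖ ≤ ε * ‖p.2‖ := by
    intro p hp
    obtain ⟨φ, hφ, rfl⟩ := exists_pair hp
    have hae : ((pair hφ).1 : Eu N → ℝ) =ᵐ[volume.restrict Ω] φ := MemLp.coeFn_toLp (hφ.memLp 2 _)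
    have hae2 : ((pair hφ).2 : Eu N → Eu N) =ᵐ[volume.restrict Ω] gradient φ :=
      MemLp.coeFn_toLp (hφ.memLp_gradient 2 _)
    have hφi : Integrable φ := hφ.continuous.integrable_of_hasCompactSupport hφ.2.1
    -- coefficients are averages
    have hcoef : ∀ i, c i * ⟪e i, (pair hφ).1⟫ = ⨍ y in Q i, φ y := by
      intro i
      rw [he, hc]
      simp only
      rw [L2.inner_indicatorConstLp_one (hQm i) (hfin' i), setAverage_eq, smul_eq_mul]
      congr 1
      have h1 : ∫ x in Q i, (pair hφ).1 x ∂(volume.restrict Ω) =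
          ∫ x in Q i, φ x ∂(volume.restrict Ω) :=
        setIntegral_congr_ae (hQm i) (hae.mono fun x hx _ => hx)
      rw [h1, Measure.restrict_restrict (hQm i)]
      rw [inter_comm, ← Measure.restrict_restrict hΩo.measurableSet]
      apply setIntegral_eq_integral_of_forall_compl_eq_zero
      intro x hx
      by_contra h
      exact hx (hφ.support h)
    -- the averaged function
    have hT : (avgOp c e (pair hφ).1 : Eu N → ℝ) =ᵐ[volume.restrict Ω]
        fun x => ∑ i, (⨍ y in Q i, φ y) * (Q i).indicator (fun _ => (1:ℝ)) x := by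
      rw [avgOp_apply]
      have h1 := Lp.coeFn_finsetSum (Finset.univ : Finset (Fin n))
        (fun i => (c i * ⟪e i, (pair hφ).1⟫) • e i)
      have h2 : ∀ᵐ x ∂(volume.restrict Ω), ∀ i,
          ((c i * ⟪e i, (pair hφ).1⟫) • e i : LL Ω) x =
            (⨍ y in Q i, φ y) * (Q i).indicator (fun _ => (1:ℝ)) x := by
        rw [ae_all_iff]
        intro i
        filter_upwards [Lp.coeFn_smul (c i * ⟪e i, (pair hφ).1⟫) (e i),
          indicatorConstLp_coeFn (p := 2) (hs := hQm i) (hμs := hfin' i) (c := (1:ℝ))] with x a b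
        rw [a, Pi.smul_apply, smul_eq_mul, hcoef i]
        congr 1
      filter_upwards [h1, h2] with x a b
      rw [a]
      simp only [Finset.sum_apply]
      exact Finset.sum_congr rfl fun i _ => b i
    have hnorm : ‖(pair hφ).1 - avgOp c e (pair hφ).1‖ ^ 2 =
        ∫ x in Ω, (φ x - ∑ i, (⨍ y in Q i, φ y) * (Q i).indicator (fun _ => (1:ℝ)) x) ^ 2 := by
      rw [← real_inner_self_eq_norm_sq, L2.inner_def]
      apply integral_congr_ae
      filter_upwards [hae, hT, Lp.coeFn_sub (pair hφ).1 (avgOp c e (pair hφ).1)] with x a b d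
      rw [d, Pi.sub_apply, a, b, real_inner_self_eq_norm_sq, Real.norm_eq_abs, sq_abs]
    have hpt : ∀ i, ∀ x ∈ Q i,
        (φ x - ∑ i, (⨍ y in Q i, φ y) * (Q i).indicator (fun _ => (1:ℝ)) x) ^ 2 =
          (φ x - ⨍ y in Q i, φ y) ^ 2 := by
      intro i x hx
      congr 2
      rw [Finset.sum_eq_single i]
      · rw [indicator_of_mem hx, mul_one]
      · intro j _ hj
        rw [indicator_of_notMem, mul_zero]
        intro hxj
        exact (hQd hj).le_bot ⟨hxj, hx⟩
      · intro h; exact absurd (Finset.mem_univ i) h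
    have hint : ∀ i, IntegrableOn
        (fun x => (φ x - ∑ i, (⨍ y in Q i, φ y) * (Q i).indicator (fun _ => (1:ℝ)) x) ^ 2)
        (Q i) volume := by
      intro i
      have hcont : Continuous fun x => (φ x - ⨍ y in Q i, φ y) ^ 2 :=
        (hφ.continuous.sub continuous_const).pow 2
      have h1 : IntegrableOn (fun x => (φ x - ⨍ y in Q i, φ y) ^ 2) (Q i) volume := by
        have h2 : IntegrableOn (fun x => (φ x - ⨍ y in Q i, φ y) ^ 2) (closure (Q i)) volume :=
          hcont.continuousOn.integrableOn_compact (hQb i).isCompact_closure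
        exact h2.mono_set subset_closure
      exact h1.congr_fun (fun x hx => (hpt i x hx).symm) (hQm i)
    have hle : ∫ x in Ω, (φ x - ∑ i, (⨍ y in Q i, φ y) * (Q i).indicator (fun _ => (1:ℝ)) x) ^ 2 ≤
        ∑ i, ∫ x in Q i, (φ x - ⨍ y in Q i, φ y) ^ 2 := by
      have h1 : ∫ x in Ω, (φ x - ∑ i, (⨍ y in Q i, φ y) * (Q i).indicator (fun _ => (1:ℝ)) x) ^ 2 ≤
          ∫ x in ⋃ i, Q i,
            (φ x - ∑ i, (⨍ y in Q i, φ y) * (Q i).indicator (fun _ => (1:ℝ)) x) ^ 2 := by
        apply setIntegral_mono_set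
        · rw [integrableOn_finite_iUnion]
          exact hint
        · exact ae_of_all _ fun x => sq_nonneg _
        · exact hQc.eventuallyLE
      refine h1.trans (le_of_eq ?_)
      rw [integral_iUnion_fintype hQm hQd hint]
      exact Finset.sum_congr rfl fun i _ => setIntegral_congr_fun (hQm i) (hpt i)
    have hrhs : ∫ x, ‖fderiv ℝ φ x‖ ^ 2 = ‖(pair hφ).2‖ ^ 2 := by
      rw [← real_inner_self_eq_norm_sq, L2.inner_def]
      have h1 : ∫ x in Ω, ⟪(pair hφ).2 x, (pair hφ).2 x⟫ = ∫ x in Ω, ‖fderiv ℝ φ x‖ ^ 2 := by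
        apply integral_congr_ae
        filter_upwards [hae2] with x a
        rw [real_inner_self_eq_norm_sq, a, norm_gradient']
      rw [h1]
      symm
      apply setIntegral_eq_integral_of_forall_compl_eq_zero
      intro x hx
      have : fderiv ℝ φ x = 0 := by
        by_contra h
        exact hx (hφ.support_fderiv h)
      rw [this]; simp
    have hfinal : ‖(pair hφ).1 - avgOp c e (pair hφ).1‖ ^ 2 ≤ (ε * ‖(pair hφ).2‖) ^ 2 := by
      rw [hnorm, mul_pow, ← hrhs]
      exact hle.trans (hQ φ hφ.1 hφ.2.1)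
    exact (pow_le_pow_iff_left₀ (norm_nonneg _) (by positivity) two_ne_zero).1 hfinal
  intro p hp
  have hcl : IsClosed {p : LL Ω × LV Ω | ‖p.1 - avgOp c e p.1‖ ≤ ε * ‖p.2‖} :=
    isClosed_le (by fun_prop) (by fun_prop)
  exact closure_minimal h0 hcl hp

/-- (P5) Rellich: compactness of the embedding -/
theorem iota_compact (hΩo : IsOpen Ω) (hΩ : Bornology.IsBounded Ω)
    (ι : HSp Ω →L[ℝ] LL Ω) (hι : ∀ g : HSp Ω, (ι g, (g : LV Ω)) ∈ H01 Ω) :
    IsCompactOperator ι := by
  have h : ∀ k : ℕ, ∃ (n : ℕ) (c : Fin n → ℝ) (e : Fin n → LL Ω), ∀ p ∈ H01 Ω,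
      ‖p.1 - avgOp c e p.1‖ ≤ (1 / ((k : ℝ) + 1)) * ‖p.2‖ := fun k =>
    exists_avgOp hΩo hΩ _ (by positivity)
  choose n c e hce using h
  have hlim : Tendsto (fun k => (avgOp (c k) (e k)).comp ι) atTop (𝓝 ι) := by
    refine (tendsto_iff_norm_sub_tendsto_zero (E := HSp Ω →L[ℝ] LL Ω)).2 ?_
    refine squeeze_zero (fun k => norm_nonneg ((avgOp (c k) (e k)).comp ι - ι)) (fun k => ?_)
      tendsto_one_div_add_atTop_nhds_zero_nat
    refine ContinuousLinearMap.opNorm_le_bound _ (by positivity) fun g => ?_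
    have h1 := hce k _ (hι g)
    rw [norm_sub_rev] at h1
    exact h1
  exact isCompactOperator_of_tendsto hlim
    (Eventually.of_forall fun k => (avgOp_compact (c k) (e k)).comp_clm ι)

end Pool.Agent.Work.MP_804706_an
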