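import Mathlib
import Pool.Agent.Work.MP_804706_an.FDefs
import Pool.Agent.Work.MP_804706_an.Main
import Pool.Agent.Work.MP_804706_an.Bumps
import Pool.Agent.Work.MP_804706_an.P5

set_option autoImplicit false

open Set Metric Filter InnerProductSpace MeasureTheory
open scoped Topology RealInnerProductSpace ENNReal ContDiff NNReal

namespace Pool.Agent.Work.MP_804706_an

variable {N : ℕ} {Ω : Set (Eu N)}

theorem isH01_of_mem (p : LL Ω × LV Ω) (hp : p ∈ H01 Ω) : Fun.IsH01 Ω p.1 p.2 := by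
  refine ⟨Lp.memLp p.1, Lp.memLp p.2, fun ε hε => ?_⟩
  obtain ⟨q, hq, hpq⟩ := EMetric.mem_closure_iff.1 hp ε hε
  obtain ⟨φ, hφ, rfl⟩ := exists_pair hq
  rw [Prod.edist_eq, max_lt_iff] at hpq
  refine ⟨φ, hφ, ?_, ?_⟩
  · refine lt_of_eq_of_lt ?_ hpq.1
    rw [Lp.edist_def]
    apply eLpNorm_congr_ae
    filter_upwards [(hφ.memLp 2 (volume.restrict Ω)).coeFn_toLp] with x hx
    unfold pair
    simp only [Pi.sub_apply]
    rw [hx]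
  · refine lt_of_eq_of_lt ?_ hpq.2
    rw [Lp.edist_def]
    apply eLpNorm_congr_ae
    filter_upwards [(hφ.memLp_gradient 2 (volume.restrict Ω)).coeFn_toLp] with x hx
    unfold pair
    simp only [Pi.sub_apply]
    rw [hx]

theorem mem_of_isH01 (u : Eu N → ℝ) (g : Eu N → Eu N) (h : Fun.IsH01 Ω u g)
    (hu : MemLp u 2 (volume.restrict Ω)) (hg : MemLp g 2 (volume.restrict Ω)) :
    (hu.toLp u, hg.toLp g) ∈ H01 Ω := by
  apply EMetric.mem_closure_iff.2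
  intro ε hε
  obtain ⟨φ, hφ, h1, h2⟩ := h.2.2 ε hε
  refine ⟨pair hφ, pair_mem hφ, ?_⟩
  rw [Prod.edist_eq, max_lt_iff]
  constructor
  · refine lt_of_eq_of_lt ?_ h1
    unfold pair
    simp only
    rw [Lp.edist_toLp_toLp]
    rfl
  · refine lt_of_eq_of_lt ?_ h2
    unfold pair
    simp only
    rw [Lp.edist_toLp_toLp]
    rfl

theorem energy_congr (a b lam : ℝ) (v v' u u' : Eu N → ℝ) (g g' : Eu N → Eu N)
    (hv : v =ᵐ[Fun.mu Ω] v') (hu : u =ᵐ[Fun.mu Ω] u') (hg : g =ᵐ[Fun.mu Ω] g') :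
    Fun.energy Ω a b lam v u g = Fun.energy Ω a b lam v' u' g' := by
  have h1 : ∫ x, ‖g x‖ ^ 2 ∂(Fun.mu Ω) = ∫ x, ‖g' x‖ ^ 2 ∂(Fun.mu Ω) := by
    apply integral_congr_ae
    filter_upwards [hg] with x hx
    rw [hx]
  have h2 : ∫ x, |u x| ^ Fun.critExp N ∂(Fun.mu Ω) = ∫ x, |u' x| ^ Fun.critExp N ∂(Fun.mu Ω) := by
    apply integral_congr_ae
    filter_upwards [hu] with x hx
    rw [hx]
  have h3 : ∫ x, (u x - v x) ^ 2 ∂(Fun.mu Ω) = ∫ x, (u' x - v' x) ^ 2 ∂(Fun.mu Ω) := by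
    apply integral_congr_ae
    filter_upwards [hu, hv] with x hx hy
    rw [hx, hy]
  unfold Fun.energy
  rw [h1, h2, h3]

theorem energy_coe (a b lam : ℝ) (v : LL Ω) (p : LL Ω × LV Ω) :
    energy Ω a b lam v p = Fun.energy Ω a b lam v p.1 p.2 := rfl

theorem isGlobalMin_coe (a b lam : ℝ) (v : LL Ω) (v' : Eu N → ℝ) (hv : v =ᵐ[Fun.mu Ω] v')
    (p : LL Ω × LV Ω) (hp : IsGlobalMin Ω a b lam v p) :
    Fun.IsGlobalMin Ω a b lam v' p.1 p.2 := by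
  refine ⟨isH01_of_mem p hp.1, fun w h hwh => ?_⟩
  have hw : MemLp w 2 (volume.restrict Ω) := hwh.1
  have hh : MemLp h 2 (volume.restrict Ω) := hwh.2.1
  have h1 := hp.2 _ (mem_of_isH01 w h hwh hw hh)
  rw [energy_coe, energy_coe] at h1
  rw [energy_congr a b lam v v' p.1 p.1 p.2 p.2 hv EventuallyEq.rfl EventuallyEq.rfl,
    energy_congr a b lam v v' _ w _ h hv hw.coeFn_toLp hh.coeFn_toLp] at h1
  exact h1

theorem isWeakSol_coe (a b lam : ℝ) (v : LL Ω) (v' : Eu N → ℝ) (hv : v =ᵐ[Fun.mu Ω] v')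
    (p : LL Ω × LV Ω) (hp : IsWeakSol Ω a b lam v p) :
    Fun.IsWeakSol Ω a b lam v' p.1 p.2 := by
  refine ⟨isH01_of_mem p hp.1, fun w h hwh => ?_⟩
  have hw : MemLp w 2 (volume.restrict Ω) := hwh.1
  have hh : MemLp h 2 (volume.restrict Ω) := hwh.2.1
  have h1 := hp.2 _ (mem_of_isH01 w h hwh hw hh)
  have e1 : ∫ x in Ω, ⟪p.2 x, (hh.toLp h) x⟫ = ∫ x, ⟪p.2 x, h x⟫ ∂(Fun.mu Ω) := by
    apply integral_congr_ae
    filter_upwards [hh.coeFn_toLp] with x hx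
    rw [hx]
  have e2 : ∫ x in Ω, (|p.1 x| ^ (critExp N - 2) * p.1 x + lam * (p.1 x - v x)) * (hw.toLp w) x =
      ∫ x, (|p.1 x| ^ (Fun.critExp N - 2) * p.1 x + lam * (p.1 x - v' x)) * w x ∂(Fun.mu Ω) := by
    apply integral_congr_ae
    have hv' : v =ᵐ[volume.restrict Ω] v' := hv
    filter_upwards [hw.coeFn_toLp, hv'] with x hx hy
    rw [hx, hy]
    rfl
  simp only at h1
  rw [e1, e2] at h1
  exact h1

/-- the final theorem in terms of functions -/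
theorem final (hN : 4 < N) (hΩo : IsOpen Ω) (hΩb : Bornology.IsBounded Ω) (hΩn : Ω.Nonempty)
    (a b : ℝ) (ha : 0 ≤ a) (hb : 0 < b) :
    ∃ lam₀ : ℝ, 0 < lam₀ ∧ ∀ lam : ℝ, lam₀ < lam →
      ∀ C : Set (Eu N → ℝ), Convex ℝ C → (∀ c ∈ C, MemLp c 2 (Fun.mu Ω)) →
        (∀ u g, Fun.IsH01 Ω u g → ∀ ε : ℝ≥0∞, 0 < ε →
          ∃ c ∈ C, eLpNorm (fun x => u x - c x) 2 (Fun.mu Ω) < ε) →
        ∃ v ∈ C, ∃ u₁ u₂ u₃ g₁ g₂ g₃,
          Fun.IsWeakSol Ω a b lam v u₁ g₁ ∧ Fun.IsWeakSol Ω a b lam v u₂ g₂ ∧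
          Fun.IsWeakSol Ω a b lam v u₃ g₃ ∧
          Fun.IsGlobalMin Ω a b lam v u₁ g₁ ∧ Fun.IsGlobalMin Ω a b lam v u₂ g₂ ∧
          ¬ u₁ =ᵐ[Fun.mu Ω] u₂ ∧ ¬ u₁ =ᵐ[Fun.mu Ω] u₃ ∧ ¬ u₂ =ᵐ[Fun.mu Ω] u₃ := by
  obtain ⟨lam₀, hlam₀, hmain⟩ := main hN hΩo hΩb (fun ι hι => iota_compact hΩo hΩb ι hι)
    (exists_six_tests (by omega) hΩo hΩn) a b ha hb
  refine ⟨lam₀, hlam₀, fun lam hlam C hC hCm hCd => ?_⟩
  set C' : Set (LL Ω) := {c' | ∃ c ∈ C, c' =ᵐ[volume.restrict Ω] c} with hC'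
  have hC'conv : Convex ℝ C' := by
    rintro x ⟨c, hc, hxc⟩ y ⟨d, hd, hyd⟩ s t hs ht hst
    refine ⟨s • c + t • d, hC hc hd hs ht hst, ?_⟩
    filter_upwards [hxc, hyd, Lp.coeFn_add (s • x) (t • y), Lp.coeFn_smul s x,
      Lp.coeFn_smul t y] with z h1 h2 h3 h4 h5
    rw [h3, Pi.add_apply, h4, h5, Pi.add_apply, Pi.smul_apply, Pi.smul_apply, Pi.smul_apply,
      Pi.smul_apply, h1, h2]
  have hC'd : ∀ p ∈ H01 Ω, p.1 ∈ closure C' := by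
    intro p hp
    apply EMetric.mem_closure_iff.2
    intro ε hε
    obtain ⟨c, hc, hce⟩ := hCd p.1 p.2 (isH01_of_mem p hp) ε hε
    have hcm : MemLp c 2 (volume.restrict Ω) := hCm c hc
    refine ⟨hcm.toLp c, ⟨c, hc, hcm.coeFn_toLp⟩, ?_⟩
    refine lt_of_eq_of_lt ?_ hce
    rw [Lp.edist_def]
    apply eLpNorm_congr_ae
    filter_upwards [hcm.coeFn_toLp] with x hx
    rw [Pi.sub_apply, hx]
  obtain ⟨v, ⟨v', hv', hvv'⟩, p₁, p₂, p₃, hw1, hw2, hw3, hm1, hm2, h12, h13, h23⟩ :=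
    hmain lam hlam C' hC'conv hC'd
  exact ⟨v', hv', p₁.1, p₂.1, p₃.1, p₁.2, p₂.2, p₃.2, isWeakSol_coe a b lam v v' hvv' p₁ hw1,
    isWeakSol_coe a b lam v v' hvv' p₂ hw2, isWeakSol_coe a b lam v v' hvv' p₃ hw3,
    isGlobalMin_coe a b lam v v' hvv' p₁ hm1, isGlobalMin_coe a b lam v v' hvv' p₂ hm2,
    fun h => h12 (Lp.ext h), fun h => h13 (Lp.ext h), fun h => h23 (Lp.ext h)⟩

end Pool.Agent.Work.MP_804706_an
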